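import Pool.Agent.Y858.BU.Fun

set_option autoImplicit false

namespace Pool.Agent.Y858.BU

open Set Filter Topology MeasureTheory Metric
open scoped ENNReal

variable {m : ℕ} {P : Polynomial ℂ} {Θ : Finset ℝ} {G : ℂ → ℂ} {K : ℝ → Set ℂ}
    {U V eU eV : ℝ → ℝ → ℝ} {T : ℝ → ℝ} {B Ξ : Finset ℝ}

theorem sin_finite (ξ : ℝ) : {φ : ℝ | φ ∈ Ioo (-Real.pi) Real.pi ∧ Real.sin (φ - ξ) = 0}.Finite := by
  obtain ⟨N, hN⟩ := exists_nat_gt ((Real.pi + |ξ|) / Real.pi)
  have hpi := Real.pi_pos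
  apply ((Set.finite_Icc (-(N : ℤ)) N).image (fun k : ℤ => ξ + k * Real.pi)).subset
  rintro φ ⟨hφ, hs⟩
  obtain ⟨k, hk⟩ := Real.sin_eq_zero_iff.1 hs
  have h1 : |(k : ℝ)| * Real.pi ≤ Real.pi + |ξ| := by
    have h2 : |(k : ℝ) * Real.pi| ≤ |φ| + |ξ| := by
      rw [hk]
      exact abs_sub _ _
    rw [abs_mul, abs_of_pos hpi] at h2
    have h3 : |φ| ≤ Real.pi := abs_le.2 ⟨hφ.1.le, hφ.2.le⟩
    linarith
  have h4 : |(k : ℝ)| ≤ N := by
    have : |(k : ℝ)| ≤ (Real.pi + |ξ|) / Real.pi := by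
      rw [le_div_iff₀ hpi]; exact h1
    linarith
  refine ⟨k, ?_, by linarith⟩
  rw [abs_le] at h4
  constructor
  · exact_mod_cast h4.1
  · exact_mod_cast h4.2

theorem line_finite (hc : P.coeff 1 = 1) {φ ξ : ℝ} (hs : Real.sin (φ - ξ) ≠ 0) :
    {ρ : ℝ | (Complex.exp (-(ξ * Complex.I)) * P.eval (pol ρ φ)).im = 0}.Finite := by
  classical
  set p : Polynomial ℝ := ∑ k ∈ Finset.range (P.natDegree + 1),
    Polynomial.monomial k
      ((Complex.exp (-(ξ * Complex.I)) * P.coeff k * Complex.exp (φ * Complex.I) ^ k).im) with hp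
  have hev : ∀ ρ : ℝ, p.eval ρ = (Complex.exp (-(ξ * Complex.I)) * P.eval (pol ρ φ)).im := by
    intro ρ
    rw [hp, Polynomial.eval_finset_sum, Polynomial.eval_eq_sum_range, Finset.mul_sum, Complex.im_sum]
    apply Finset.sum_congr rfl
    intro k _
    rw [Polynomial.eval_monomial]
    have h1 : Complex.exp (-(ξ * Complex.I)) * (P.coeff k * pol ρ φ ^ k) =
        ((ρ ^ k : ℝ) : ℂ) *
          (Complex.exp (-(ξ * Complex.I)) * P.coeff k * Complex.exp (φ * Complex.I) ^ k) := by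
      unfold pol
      push_cast
      ring
    rw [h1, Complex.im_ofReal_mul]
    ring
  have h1 : 1 ∈ Finset.range (P.natDegree + 1) := by
    rw [Finset.mem_range]
    have : P.natDegree ≠ 0 := by
      intro h0
      have := Polynomial.coeff_eq_zero_of_natDegree_lt (p := P) (n := 1) (by omega)
      rw [hc] at this
      exact one_ne_zero this
    omega
  have hp0 : p ≠ 0 := by
    intro h0
    have h2 : p.coeff 1 = Real.sin (φ - ξ) := by
      rw [hp, Polynomial.finset_sum_coeff, Finset.sum_eq_single_of_mem 1 h1]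
      · rw [Polynomial.coeff_monomial_same, hc, mul_one, pow_one, ← Complex.exp_add]
        have : -((ξ : ℂ) * Complex.I) + φ * Complex.I = ((φ - ξ : ℝ) : ℂ) * Complex.I := by
          push_cast; ring
        rw [this, Complex.exp_ofReal_mul_I_im]
      · intro k _ hk
        rw [Polynomial.coeff_monomial, if_neg hk]
    rw [h0, Polynomial.coeff_zero] at h2
    exact hs h2.symm
  apply p.roots.toFinset.finite_toSet.subset
  intro ρ hρ
  rw [Finset.mem_coe, Multiset.mem_toFinset, Polynomial.mem_roots hp0, Polynomial.IsRoot.def, hev]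
  exact hρ

theorem Dat.rays (h : Dat m P Θ G K U V eU eV T B Ξ) : ∃ X : Set ℝ, X.Finite ∧
    ∀ φ ∈ Ioo (-Real.pi) Real.pi, φ ∉ X →
      ContinuousOn (fun ρ : ℝ => ff P Θ G K U V T (pol ρ φ)) (Ioi 0) ∧
      ∃ Y : Set ℝ, Y.Finite ∧ ∀ ρ : ℝ, 0 < ρ → ρ ∉ Y →
        ∃ d : ℝ, HasDerivAt (fun ρ : ℝ => ff P Θ G K U V T (pol ρ φ)) d ρ ∧
          ENNReal.ofReal (d ^ 2) ≤ EE P Θ G K eU eV T (pol ρ φ) := by
  refine ⟨(Complex.arg '' {z : ℂ | P.eval z = 0}) ∪
    ⋃ ξ ∈ Ξ, {φ : ℝ | φ ∈ Ioo (-Real.pi) Real.pi ∧ Real.sin (φ - ξ) = 0}, ?_, ?_⟩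
  · apply ((finite_fib h.hub.deg 0).image _).union
    exact Ξ.finite_toSet.biUnion fun ξ _ => sin_finite ξ
  · intro φ hφ hX
    have hpi := Real.pi_pos
    have hne : ∀ ρ : ℝ, 0 < ρ → P.eval (pol ρ φ) ≠ 0 := by
      intro ρ hρ h0
      apply hX
      left
      refine ⟨pol ρ φ, h0, ?_⟩
      have h1 : pol ‖pol ρ φ‖ (Complex.arg (pol ρ φ)) = pol ρ φ := pol_arg _
      rw [pol_eq_iff (norm_pos_iff.2 (pol_ne_zero hρ)) hρ] at h1
      obtain ⟨-, k, hk⟩ := h1
      have h2 := Complex.neg_pi_lt_arg (pol ρ φ)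
      have h3 := Complex.arg_le_pi (pol ρ φ)
      have h4 : (k : ℝ) < 1 := by
        by_contra hc
        have : 2 * Real.pi ≤ 2 * Real.pi * (k : ℝ) := by nlinarith
        linarith [hφ.1]
      have h5 : (-1 : ℝ) < k := by
        by_contra hc
        have : 2 * Real.pi * (k : ℝ) ≤ -(2 * Real.pi) := by nlinarith
        linarith [hφ.2]
      have h6 : k < 1 := by exact_mod_cast h4
      have h7 : -1 < k := by exact_mod_cast h5
      have h8 : k = 0 := by omega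
      rw [hk, h8]
      simp
    have hsin : ∀ ξ ∈ Ξ, Real.sin (φ - ξ) ≠ 0 := by
      intro ξ hξ h0
      apply hX
      right
      exact mem_iUnion₂.2 ⟨ξ, hξ, hφ, h0⟩
    constructor
    · intro ρ hρ
      apply ContinuousAt.continuousWithinAt
      exact ContinuousAt.comp (g := ff P Θ G K U V T) (f := fun ρ : ℝ => pol ρ φ)
        (h.cont (hne ρ hρ)) (hasDerivAt_pol φ ρ).continuousAt
    · refine ⟨⋃ ξ ∈ Ξ, {ρ : ℝ | (Complex.exp (-(ξ * Complex.I)) * P.eval (pol ρ φ)).im = 0},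
        Ξ.finite_toSet.biUnion fun ξ hξ => line_finite h.c1 (hsin ξ hξ), ?_⟩
      intro ρ hρ hY
      apply h.der (hne ρ hρ)
      intro ξ hξ k hk
      apply hY
      refine mem_iUnion₂.2 ⟨ξ, hξ, ?_⟩
      have h1 : P.eval (pol ρ φ) = pol ‖P.eval (pol ρ φ)‖ ξ := by
        conv_lhs => rw [← pol_arg (P.eval (pol ρ φ)), hk, pol_per]
      have h2 : Complex.exp (-(ξ * Complex.I)) * P.eval (pol ρ φ) =
          ((‖P.eval (pol ρ φ)‖ : ℝ) : ℂ) := by
        conv_lhs => rw [h1]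
        unfold pol
        rw [mul_left_comm, ← Complex.exp_add]
        simp
      rw [mem_ofPred_eq, h2, Complex.ofReal_im]

end Pool.Agent.Y858.BU
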