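import Pool.Agent.Y858.BU.Energy2
import Pool.Agent.Y858.BU.Rays

set_option autoImplicit false

namespace Pool.Agent.Y858.BU

open Set Filter Topology MeasureTheory Metric
open scoped ENNReal

variable {m : ℕ} {P : Polynomial ℂ} {Θ : Finset ℝ} {G : ℂ → ℂ} {K : ℝ → Set ℂ}
    {U V eU eV : ℝ → ℝ → ℝ} {T : ℝ → ℝ} {B Ξ : Finset ℝ}

theorem lin_bound {F : ℂ → ℂ} (h : HasDerivAt F 1 0) (h0 : F 0 = 0) {η : ℝ} (hη : 0 < η) :
    ∀ᶠ z in 𝓝 (0 : ℂ), ‖F z‖ ≤ Real.exp η * ‖z‖ := by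
  have h1 := h.isLittleO
  have hc : 0 < Real.exp η - 1 := by
    have := Real.add_one_lt_exp hη.ne'
    linarith
  filter_upwards [h1.bound hc] with z hz
  simp only [h0, sub_zero, smul_eq_mul, mul_one] at hz
  calc ‖F z‖ = ‖(F z - z) + z‖ := by rw [sub_add_cancel]
    _ ≤ ‖F z - z‖ + ‖z‖ := norm_add_le _ _
    _ ≤ (Real.exp η - 1) * ‖z‖ + ‖z‖ := by linarith
    _ = _ := by ring

theorem tail_bound (P : Polynomial ℂ) {n : ℕ} (hn : P.natDegree = n + 1) {z : ℂ} {r : ℝ}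
    (hr : 1 ≤ r) (hz : ‖z‖ ≤ r) :
    ‖P.eval z - P.coeff (n + 1) * z ^ (n + 1)‖ ≤ (∑ k ∈ Finset.range (n + 1), ‖P.coeff k‖) * r ^ n := by
  have h1 : P.eval z - P.coeff (n + 1) * z ^ (n + 1) =
      ∑ k ∈ Finset.range (n + 1), P.coeff k * z ^ k := by
    rw [Polynomial.eval_eq_sum_range, hn, Finset.sum_range_succ]
    ring
  rw [h1, Finset.sum_mul]
  apply (norm_sum_le _ _).trans
  apply Finset.sum_le_sum
  intro k hk
  rw [Finset.mem_range] at hk
  rw [norm_mul, norm_pow]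
  apply mul_le_mul_of_nonneg_left _ (norm_nonneg _)
  calc ‖z‖ ^ k ≤ r ^ k := pow_le_pow_left₀ (norm_nonneg _) hz k
    _ ≤ r ^ n := pow_le_pow_right₀ hr (by omega)

/-- lower bound at infinity -/
theorem low_inf (P : Polynomial ℂ) {n : ℕ} (hn : P.natDegree = n + 1) {η : ℝ} (hη : 0 < η) :
    ∃ R₁ : ℝ, 1 ≤ R₁ ∧ ∀ z : ℂ, R₁ ≤ ‖z‖ →
      ((n : ℝ) + 1) * Real.log ‖z‖ + Real.log ‖P.coeff (n + 1)‖ - η ≤ Real.log ‖P.eval z‖ := by
  set M : ℝ := ∑ k ∈ Finset.range (n + 1), ‖P.coeff k‖ with hM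
  have hM0 : 0 ≤ M := Finset.sum_nonneg fun k _ => norm_nonneg _
  set a : ℝ := ‖P.coeff (n + 1)‖ with ha
  have ha0 : 0 < a := by
    rw [ha, norm_pos_iff, ← hn]
    exact Polynomial.leadingCoeff_ne_zero.2 (by
      intro h0
      rw [h0] at hn
      simp at hn)
  have he : 0 < 1 - Real.exp (-η) := by
    have : Real.exp (-η) < 1 := by rw [Real.exp_lt_one_iff]; linarith
    linarith
  refine ⟨max 1 (M / (a * (1 - Real.exp (-η)))), le_max_left _ _, ?_⟩
  intro z hz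
  have hz1 : 1 ≤ ‖z‖ := (le_max_left _ _).trans hz
  have hz0 : 0 < ‖z‖ := by linarith
  have hz2 : M ≤ ‖z‖ * (a * (1 - Real.exp (-η))) := by
    have := (le_max_right _ _).trans hz
    rwa [div_le_iff₀ (by positivity)] at this
  have h1 := tail_bound P hn hz1 le_rfl
  have h2 : a * ‖z‖ ^ (n + 1) - M * ‖z‖ ^ n ≤ ‖P.eval z‖ := by
    have h3 : ‖P.coeff (n + 1) * z ^ (n + 1)‖ ≤
        ‖P.eval z‖ + ‖P.eval z - P.coeff (n + 1) * z ^ (n + 1)‖ := by
      calc ‖P.coeff (n + 1) * z ^ (n + 1)‖ =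
          ‖P.eval z - (P.eval z - P.coeff (n + 1) * z ^ (n + 1))‖ := by
            rw [sub_sub_cancel]
        _ ≤ _ := norm_sub_le _ _
    rw [norm_mul, norm_pow] at h3
    linarith
  have h4 : a * ‖z‖ ^ (n + 1) * Real.exp (-η) ≤ ‖P.eval z‖ := by
    have h5 : M * ‖z‖ ^ n ≤ ‖z‖ * (a * (1 - Real.exp (-η))) * ‖z‖ ^ n :=
      mul_le_mul_of_nonneg_right hz2 (by positivity)
    have h6 : ‖z‖ * (a * (1 - Real.exp (-η))) * ‖z‖ ^ n =
        a * ‖z‖ ^ (n + 1) - a * ‖z‖ ^ (n + 1) * Real.exp (-η) := by ring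
    linarith
  have h7 := Real.log_le_log (by positivity) h4
  rw [Real.log_mul (by positivity) (by positivity), Real.log_mul (by positivity) (by positivity),
    Real.log_pow, Real.log_exp] at h7
  push_cast at h7
  linarith

/-- upper bound at infinity -/
theorem up_inf (P : Polynomial ℂ) {n : ℕ} (hn : P.natDegree = n + 1) {η : ℝ} (hη : 0 < η) :
    ∃ R₁ : ℝ, 1 ≤ R₁ ∧ ∀ R : ℝ, R₁ ≤ R → ∀ z : ℂ, ‖z‖ < R →
      ‖P.eval z‖ < Real.exp (((n : ℝ) + 1) * Real.log R + Real.log ‖P.coeff (n + 1)‖ + η) := by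
  set M : ℝ := ∑ k ∈ Finset.range (n + 1), ‖P.coeff k‖ with hM
  have hM0 : 0 ≤ M := Finset.sum_nonneg fun k _ => norm_nonneg _
  set a : ℝ := ‖P.coeff (n + 1)‖ with ha
  have ha0 : 0 < a := by
    rw [ha, norm_pos_iff, ← hn]
    exact Polynomial.leadingCoeff_ne_zero.2 (by
      intro h0
      rw [h0] at hn
      simp at hn)
  have he : 0 < Real.exp η - 1 := by
    have := Real.add_one_lt_exp hη.ne'
    linarith
  refine ⟨max 1 (M / (a * (Real.exp η - 1))), le_max_left _ _, ?_⟩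
  intro R hR z hz
  have hz1 : 1 ≤ R := (le_max_left _ _).trans hR
  have hz0 : 0 < R := by linarith
  have hz2 : M ≤ R * (a * (Real.exp η - 1)) := by
    have := (le_max_right _ _).trans hR
    rwa [div_le_iff₀ (by positivity)] at this
  have h1 := tail_bound P hn hz1 hz.le
  have h2 : ‖P.eval z‖ ≤ a * ‖z‖ ^ (n + 1) + M * R ^ n := by
    have h3 : ‖P.eval z‖ ≤
        ‖P.coeff (n + 1) * z ^ (n + 1)‖ + ‖P.eval z - P.coeff (n + 1) * z ^ (n + 1)‖ := by
      calc ‖P.eval z‖ =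
          ‖P.coeff (n + 1) * z ^ (n + 1) + (P.eval z - P.coeff (n + 1) * z ^ (n + 1))‖ := by
            rw [add_sub_cancel]
        _ ≤ _ := norm_add_le _ _
    rw [norm_mul, norm_pow] at h3
    linarith
  have h3 : a * ‖z‖ ^ (n + 1) < a * R ^ (n + 1) := by
    apply mul_lt_mul_of_pos_left _ ha0
    exact pow_lt_pow_left₀ hz (norm_nonneg _) (by omega)
  have h4 : ‖P.eval z‖ < a * R ^ (n + 1) * Real.exp η := by
    have h5 : M * R ^ n ≤ R * (a * (Real.exp η - 1)) * R ^ n :=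
      mul_le_mul_of_nonneg_right hz2 (by positivity)
    have h6 : R * (a * (Real.exp η - 1)) * R ^ n =
        a * R ^ (n + 1) * Real.exp η - a * R ^ (n + 1) := by ring
    linarith
  refine h4.trans_le (le_of_eq ?_)
  rw [Real.exp_add, Real.exp_add, Real.exp_log ha0]
  have h7 : ((n : ℝ) + 1) * Real.log R = Real.log (R ^ (n + 1)) := by
    rw [Real.log_pow]; push_cast; ring
  rw [h7, Real.exp_log (by positivity)]
  ring

theorem Hub.der0 (h : Hub P Θ G) (hc : P.coeff 1 = 1) : HasDerivAt G 1 0 := by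
  have h1 := h.der (zero_mem_slitted Θ)
  have h2 : P.derivative.eval 0 = 1 := by
    rw [← Polynomial.coeff_zero_eq_eval_zero, Polynomial.coeff_derivative]
    simp [hc]
  rw [h.G0, h2, one_mul] at h1
  have h3 : HasDerivAt G (deriv G 0) 0 :=
    (h.dif.differentiableAt ((isOpen_slitted Θ).mem_nhds (zero_mem_slitted Θ))).hasDerivAt
  rwa [h1] at h3

theorem Dat.tauO_rng (h : Dat m P Θ G K U V eU eV T B Ξ) (z : ℂ) :
    tauO P Θ K z ∈ Icc 0 Real.pi := by
  by_cases hK : ∃ θ ∈ Θ, z ∈ K θ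
  · obtain ⟨θ, hθ, hz⟩ := hK
    rw [h.tauO_mem hθ hz]
    exact tri_mem _
  · push Not at hK
    rw [tauO_out hK]
    exact ⟨le_rfl, Real.pi_pos.le⟩

/-- behaviour at infinity -/
theorem Dat.far (h : Dat m P Θ G K U V eU eV T B Ξ) {η : ℝ} (hη : 0 < η) :
    ∃ R₁ : ℝ, 1 ≤ R₁ ∧ ∀ z : ℂ, R₁ ≤ ‖z‖ →
      Real.log ‖z‖ + (Real.log ‖P.coeff (m + 1)‖ - Real.log (ast m)) / (m + 1) - 2 * η ≤
        ff P Θ G K U V T z := by
  obtain ⟨R₁, hR₁, hlow⟩ := low_inf P h.deg hη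
  obtain ⟨sU, hsU⟩ := h.mod.asyU1 η hη
  obtain ⟨sV, hsV⟩ := h.mod.asyV1 η hη
  have hm : (0 : ℝ) < (m : ℝ) + 1 := by positivity
  have htop : Tendsto (fun x : ℝ => ((m : ℝ) + 1) * Real.log x + Real.log ‖P.coeff (m + 1)‖ - η)
      atTop atTop := by
    apply tendsto_atTop_add_const_right
    apply tendsto_atTop_add_const_right
    exact Real.tendsto_log_atTop.const_mul_atTop hm
  obtain ⟨R₂, hR₂⟩ := (htop.eventually_ge_atTop (max sU sV)).exists_forall_of_atTop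
  refine ⟨max R₁ R₂, hR₁.trans (le_max_left _ _), ?_⟩
  intro z hz
  have h1 := hlow z ((le_max_left _ _).trans hz)
  have h2 := hR₂ ‖z‖ ((le_max_right _ _).trans hz)
  have h3 : max sU sV ≤ Real.log ‖P.eval z‖ := h2.trans h1
  have h4 : |ff P Θ G K U V T z - (Real.log ‖P.eval z‖ - Real.log (ast m)) / (m + 1)| ≤ η := by
    by_cases hz : z ∈ HH Θ G
    · rw [ff_H hz]
      exact hsU _ ((le_max_left _ _).trans h3) _ (h.zig.rng _)
    · rw [ff_O hz]
      exact hsV _ ((le_max_right _ _).trans h3) _ (h.tauO_rng z)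
  have h5 := (abs_le.1 h4).1
  have h6 : Real.log ‖z‖ + (Real.log ‖P.coeff (m + 1)‖ - Real.log (ast m)) / (m + 1) - η ≤
      (Real.log ‖P.eval z‖ - Real.log (ast m)) / (m + 1) := by
    rw [le_div_iff₀ hm]
    have h7 : (Real.log ‖z‖ + (Real.log ‖P.coeff (m + 1)‖ - Real.log (ast m)) / (m + 1) - η) *
        (m + 1) = (m + 1) * Real.log ‖z‖ + Real.log ‖P.coeff (m + 1)‖ - Real.log (ast m) -
          η * (m + 1) := by
      field_simp
      ring
    rw [h7]
    have : η ≤ η * (m + 1) := by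
      have : (0 : ℝ) ≤ m := by positivity
      nlinarith
    linarith
  linarith

/-- behaviour near the origin -/
theorem Dat.near (h : Dat m P Θ G K U V eU eV T B Ξ) {η : ℝ} (hη : 0 < η) (s₀ : ℝ) :
    ∃ ε : ℝ, 0 < ε ∧ ε < 1 ∧ Real.log ε - η ≤ s₀ ∧
      (∀ z : ℂ, ‖z‖ = ε → ff P Θ G K U V T z ≤ Real.log ε + 2 * η) ∧
      (∀ z ∈ HH Θ G, ε < ‖z‖ → Real.exp (Real.log ε - η) < ‖P.eval z‖) := by
  obtain ⟨sU, hsU⟩ := h.mod.asyU0 η hη
  have hP1 : HasDerivAt (fun z => P.eval z) 1 0 := by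
    have h1 := P.hasDerivAt 0
    have h2 : P.derivative.eval 0 = 1 := by
      rw [← Polynomial.coeff_zero_eq_eval_zero, Polynomial.coeff_derivative]
      simp [h.c1]
    rwa [h2] at h1
  obtain ⟨δ₁, hδ₁, h1⟩ := Metric.eventually_nhds_iff_ball.1
    ((lin_bound hP1 h.hub.P0 hη).and (h.hub.isOpen.mem_nhds h.hub.zero_mem))
  obtain ⟨δ₂, hδ₂, h2⟩ := Metric.eventually_nhds_iff_ball.1
    (lin_bound (h.hub.der0 h.c1) h.hub.G0 hη)
  have hlog : Tendsto Real.log (𝓝[>] 0) atBot := Real.tendsto_log_nhdsGT_zero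
  have hev : ∀ᶠ ε : ℝ in 𝓝[>] 0, Real.log ε ≤ min (s₀ + η) (sU - η) :=
    hlog.eventually_le_atBot _
  have hev2 : ∀ᶠ ε : ℝ in 𝓝[>] 0, ε < min 1 (min δ₁ δ₂) := by
    apply mem_nhdsWithin_of_mem_nhds
    apply Iio_mem_nhds
    positivity
  obtain ⟨ε, ⟨h3, h4⟩, h5⟩ := ((hev.and hev2).and self_mem_nhdsWithin).exists
  have hε : 0 < ε := h5
  have hε1 : ε < 1 := h4.trans_le (min_le_left _ _)
  have hεδ₁ : ε < δ₁ := h4.trans_le ((min_le_right _ _).trans (min_le_left _ _))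
  have hεδ₂ : ε < δ₂ := h4.trans_le ((min_le_right _ _).trans (min_le_right _ _))
  have hls : Real.log ε ≤ s₀ + η := h3.trans (min_le_left _ _)
  have hlU : Real.log ε ≤ sU - η := h3.trans (min_le_right _ _)
  refine ⟨ε, hε, hε1, by linarith, ?_, ?_⟩
  · intro z hz
    obtain ⟨h6, h7⟩ := h1 z (by rw [mem_ball_zero_iff, hz]; exact hεδ₁)
    have hz0 : z ≠ 0 := by
      rw [← norm_pos_iff, hz]; exact hε
    have hPz : P.eval z ≠ 0 := by
      intro h0
      have := h.hub.eqG h7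
      rw [h0, h.hub.G0] at this
      exact hz0 this.symm
    have h8 : Real.log ‖P.eval z‖ ≤ Real.log ε + η := by
      have := Real.log_le_log (norm_pos_iff.2 hPz) h6
      rw [hz, Real.log_mul (Real.exp_pos _).ne' hε.ne', Real.log_exp] at this
      linarith
    rw [ff_H h7]
    have h9 := hsU (Real.log ‖P.eval z‖) (by linarith) _ (h.zig.rng (Complex.arg (P.eval z)))
    have := (abs_le.1 h9).2
    linarith
  · intro z hz hzε
    by_contra hc
    push Not at hc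
    have hex : Real.exp (Real.log ε - η) = ε * Real.exp (-η) := by
      rw [sub_eq_add_neg, Real.exp_add, Real.exp_log hε]
    rw [hex] at hc
    have h6 : ‖P.eval z‖ < δ₂ := by
      apply hc.trans_lt
      have : Real.exp (-η) < 1 := by rw [Real.exp_lt_one_iff]; linarith
      nlinarith
    have h7 := h2 (P.eval z) (by rw [mem_ball_zero_iff]; exact h6)
    rw [h.hub.eqG hz] at h7
    have h8 : Real.exp η * ‖P.eval z‖ ≤ Real.exp η * (ε * Real.exp (-η)) :=
      mul_le_mul_of_nonneg_left hc (Real.exp_pos _).le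
    have h9 : Real.exp η * (ε * Real.exp (-η)) = ε := by
      rw [mul_comm ε, ← mul_assoc, ← Real.exp_add, add_neg_cancel, Real.exp_zero, one_mul]
    linarith

theorem Dat.bound (hray : S_ray) (harea : S_area) (h : Dat m P Θ G K U V eU eV T B Ξ) :
    Real.log ‖P.coeff (m + 1)‖ ≤ Real.log (ast m) := by
  set C : ℝ := (Real.log ‖P.coeff (m + 1)‖ - Real.log (ast m)) / (m + 1) with hC
  have hm : (0 : ℝ) < (m : ℝ) + 1 := by positivity
  have hm0 : (0 : ℝ) < (m : ℝ) := by exact_mod_cast h.mpos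
  have hpi := Real.pi_pos
  suffices hC0 : C ≤ 0 by
    rw [hC, div_nonpos_iff] at hC0
    rcases hC0 with h1 | h1
    · linarith [h1.2]
    · linarith [h1.1]
  by_contra hCpos
  push Not at hCpos
  set η : ℝ := C / 16 with hη
  have hη0 : 0 < η := by positivity
  obtain ⟨s₀, hs₀⟩ := h.mod.energy η hη0
  obtain ⟨ε, hε, hε1, hs₁, hnear, hnear2⟩ := h.near hη0 (-s₀)
  obtain ⟨R₁, hR₁, hfar⟩ := h.far hη0
  obtain ⟨R₂, hR₂, hup⟩ := up_inf P h.deg hη0
  obtain ⟨X, hX, hrays⟩ := h.rays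
  have htop : Tendsto (fun x : ℝ => ((m : ℝ) + 1) * Real.log x + Real.log ‖P.coeff (m + 1)‖ + η)
      atTop atTop := by
    apply tendsto_atTop_add_const_right
    apply tendsto_atTop_add_const_right
    exact Real.tendsto_log_atTop.const_mul_atTop hm
  obtain ⟨R, hRs, hR1, hR2⟩ := ((htop.eventually_ge_atTop s₀).and
    ((eventually_ge_atTop R₁).and (eventually_ge_atTop R₂))).exists
  have hRpos : 0 < R := by linarith
  have hεR : ε < R := by linarith
  set ℓ : ℝ := Real.log (R / ε) with hℓ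
  have hℓe : ℓ = Real.log R - Real.log ε := Real.log_div hRpos.ne' hε.ne'
  have hℓ0 : 0 < ℓ := by
    rw [hℓ]
    apply Real.log_pos
    rw [lt_div_iff₀ hε]
    linarith
  set A : ℝ := ℓ + C - 4 * η with hA
  have hA0 : 0 ≤ A := by rw [hA, hη]; linarith
  have h1 := hray (ff P Θ G K U V T) (EE P Θ G K eU eV T) X h.meas_EE hX hrays ε R A hε hεR hA0
    (by
      intro φ _ _
      have h2 := hfar (pol R φ) (by rw [norm_pol' φ hRpos.le]; exact hR1)
      have h3 := hnear (pol ε φ) (norm_pol' φ hε.le)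
      rw [norm_pol' φ hRpos.le] at h2
      rw [hA, hℓe]
      linarith)
  have h2 := h.energy harea (ε := ε) (R := R) (s₁ := Real.log ε - η)
    (s₂ := ((m : ℝ) + 1) * Real.log R + Real.log ‖P.coeff (m + 1)‖ + η) (hup R hR2) hnear2
  have h3 := hs₀ (Real.log ε - η) (((m : ℝ) + 1) * Real.log R + Real.log ‖P.coeff (m + 1)‖ + η)
    hs₁ hRs
  set Q : ℝ := (((m : ℝ) + 1) * Real.log R + Real.log ‖P.coeff (m + 1)‖ + η -
    Real.log (ast m)) / (m + 1) - (Real.log ε - η) + η with hQ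
  have hQe : Q ≤ ℓ + C + 3 * η := by
    rw [hQ, hℓe, hC]
    have : (((m : ℝ) + 1) * Real.log R + Real.log ‖P.coeff (m + 1)‖ + η -
        Real.log (ast m)) / (m + 1) =
        Real.log R + (Real.log ‖P.coeff (m + 1)‖ - Real.log (ast m)) / (m + 1) + η / (m + 1) := by
      field_simp
      ring
    rw [this]
    have h4 : η / (m + 1) ≤ η := by
      apply div_le_self hη0.le
      linarith
    linarith
  have hQ2 : 0 ≤ ℓ + C + 3 * η := by positivity
  have h4 : ENNReal.ofReal (2 * Real.pi * A ^ 2) ≤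
      ENNReal.ofReal (ℓ * (2 * m * (Real.pi / m * (ℓ + C + 3 * η)))) := by
    calc ENNReal.ofReal (2 * Real.pi * A ^ 2) ≤ _ := h1
      _ ≤ ENNReal.ofReal ℓ * (2 * m * ENNReal.ofReal (Real.pi / m * Q)) := by
        gcongr
        exact h2.trans (by gcongr)
      _ ≤ ENNReal.ofReal ℓ * (2 * m * ENNReal.ofReal (Real.pi / m * (ℓ + C + 3 * η))) := by
        gcongr
      _ = _ := by
        have e2 : ENNReal.ofReal (2 * (m : ℝ)) = 2 * m := by
          rw [ENNReal.ofReal_mul (by norm_num : (0 : ℝ) ≤ 2), ENNReal.ofReal_natCast]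
          norm_num
        rw [ENNReal.ofReal_mul hℓ0.le, ENNReal.ofReal_mul (p := 2 * (m : ℝ)) (by positivity), e2]
  rw [ENNReal.ofReal_le_ofReal_iff (by positivity)] at h4
  have h5 : ℓ * (2 * m * (Real.pi / m * (ℓ + C + 3 * η))) = 2 * Real.pi * (ℓ * (ℓ + C + 3 * η)) := by
    field_simp
  rw [h5] at h4
  have h6 : A ^ 2 ≤ ℓ * (ℓ + C + 3 * η) := by
    have : (0 : ℝ) < 2 * Real.pi := by positivity
    exact le_of_mul_le_mul_left h4 this
  rw [hA] at h6
  have hCη : C = 16 * η := by rw [hη]; ring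
  rw [hCη] at h6
  nlinarith [mul_pos hℓ0 hη0, sq_nonneg η]

end Pool.Agent.Y858.BU
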