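import Pool.Agent.Y858.BU.Stm

set_option autoImplicit false

namespace Pool.Agent.Y858.BU

open Set Filter Topology MeasureTheory Metric
open scoped ENNReal

theorem norm_pol (r φ : ℝ) : ‖pol r φ‖ = |r| := by
  rw [pol, norm_mul, Complex.norm_exp_ofReal_mul_I, mul_one, Complex.norm_real, Real.norm_eq_abs]

theorem norm_pol' {r : ℝ} (φ : ℝ) (hr : 0 ≤ r) : ‖pol r φ‖ = r := by
  rw [norm_pol, abs_of_nonneg hr]

theorem pol_ne_zero {r φ : ℝ} (hr : 0 < r) : pol r φ ≠ 0 := by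
  rw [← norm_pos_iff, norm_pol' φ hr.le]; exact hr

theorem pol_zero (φ : ℝ) : pol 0 φ = 0 := by simp [pol]

theorem pol_per (r φ : ℝ) (k : ℤ) : pol r (φ + 2 * Real.pi * k) = pol r φ := by
  unfold pol
  congr 1
  rw [Complex.exp_eq_exp_iff_exists_int]
  exact ⟨k, by push_cast; ring⟩

theorem pol_arg (w : ℂ) : pol ‖w‖ (Complex.arg w) = w := Complex.norm_mul_exp_arg_mul_I w

theorem pol_eq_iff {r r' φ φ' : ℝ} (hr : 0 < r) (hr' : 0 < r') :
    pol r φ = pol r' φ' ↔ r = r' ∧ ∃ k : ℤ, φ = φ' + 2 * Real.pi * k := by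
  constructor
  · intro h
    have h1 : r = r' := by
      have := congrArg norm h
      rwa [norm_pol' φ hr.le, norm_pol' φ' hr'.le] at this
    refine ⟨h1, ?_⟩
    subst h1
    unfold pol at h
    have h2 : Complex.exp (φ * Complex.I) = Complex.exp (φ' * Complex.I) :=
      mul_left_cancel₀ (by exact_mod_cast hr.ne') h
    rw [Complex.exp_eq_exp_iff_exists_int] at h2
    obtain ⟨k, hk⟩ := h2
    refine ⟨k, ?_⟩
    have h3 : ((φ : ℂ)) * Complex.I = ((φ' + 2 * Real.pi * k : ℝ) : ℂ) * Complex.I := by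
      rw [hk]; push_cast; ring
    have h4 := mul_right_cancel₀ Complex.I_ne_zero h3
    exact_mod_cast h4
  · rintro ⟨rfl, k, rfl⟩
    exact pol_per r φ' k

theorem continuous_pol : Continuous (fun p : ℝ × ℝ => pol p.1 p.2) := by
  unfold pol
  fun_prop

/-- the angle `φ` is free -/
def Free (Θ : Finset ℝ) (φ : ℝ) : Prop := ∀ θ ∈ Θ, ∀ k : ℤ, φ ≠ θ + 2 * Real.pi * k

theorem pol_mem_slitted_iff {Θ : Finset ℝ} {r φ : ℝ} (hr : 0 < r) :
    pol r φ ∈ slitted Θ ↔ (r < 1 ∨ Free Θ φ) := by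
  constructor
  · intro h
    by_contra hc
    push Not at hc
    obtain ⟨h1, h2⟩ := hc
    unfold Free at h2
    push Not at h2
    obtain ⟨θ, hθ, k, hk⟩ := h2
    exact h θ hθ r h1 (by rw [hk, pol_per])
  · intro h θ hθ r' hr' heq
    rw [pol_eq_iff hr (by linarith)] at heq
    obtain ⟨h1, k, hk⟩ := heq
    rcases h with h | h
    · linarith
    · exact h θ hθ k hk

theorem ball_subset_slitted (Θ : Finset ℝ) : ball (0 : ℂ) 1 ⊆ slitted Θ := by
  intro w hw θ hθ r hr h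
  rw [mem_ball_zero_iff, h, norm_pol' θ (by linarith)] at hw
  linarith

theorem zero_mem_slitted (Θ : Finset ℝ) : (0 : ℂ) ∈ slitted Θ :=
  ball_subset_slitted Θ (by simp)

theorem Free.mem {Θ : Finset ℝ} {φ : ℝ} (h : Free Θ φ) {r : ℝ} (hr : 0 ≤ r) :
    pol r φ ∈ slitted Θ := by
  rcases hr.eq_or_lt with h0 | h0
  · rw [← h0, pol_zero]; exact zero_mem_slitted Θ
  · exact (pol_mem_slitted_iff h0).2 (Or.inr h)

theorem slitted_star {Θ : Finset ℝ} {r φ t : ℝ} (h : pol r φ ∈ slitted Θ) (ht : 0 ≤ t)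
    (htr : t ≤ r) : pol t φ ∈ slitted Θ := by
  rcases ht.eq_or_lt with h0 | h0
  · rw [← h0, pol_zero]; exact zero_mem_slitted Θ
  · rw [pol_mem_slitted_iff (h0.trans_le htr)] at h
    rw [pol_mem_slitted_iff h0]
    rcases h with h | h
    · left; linarith
    · right; exact h

theorem slit_iff (w : ℂ) (θ : ℝ) : (∃ r : ℝ, 1 ≤ r ∧ w = pol r θ) ↔
    ((w * Complex.exp (-(θ * Complex.I))).im = 0 ∧ 1 ≤ (w * Complex.exp (-(θ * Complex.I))).re) := by
  have he : Complex.exp (θ * Complex.I) * Complex.exp (-(θ * Complex.I)) = 1 := by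
    rw [← Complex.exp_add]; simp
  constructor
  · rintro ⟨r, hr, rfl⟩
    unfold pol
    rw [mul_assoc, he, mul_one]
    simp [hr]
  · rintro ⟨h1, h2⟩
    refine ⟨_, h2, ?_⟩
    unfold pol
    have h3 : (((w * Complex.exp (-(θ * Complex.I))).re : ℝ) : ℂ) =
        w * Complex.exp (-(θ * Complex.I)) := by
      apply Complex.ext <;> simp [h1]
    rw [h3, mul_assoc, mul_comm (Complex.exp (-(θ * Complex.I))), he, mul_one]

theorem isClosed_slit (θ : ℝ) : IsClosed {w : ℂ | ∃ r : ℝ, 1 ≤ r ∧ w = pol r θ} := by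
  simp only [slit_iff]
  have hc : Continuous (fun w : ℂ => w * Complex.exp (-(θ * Complex.I))) := by fun_prop
  exact (isClosed_eq (Complex.continuous_im.comp hc) continuous_const).and
    (isClosed_le continuous_const (Complex.continuous_re.comp hc))

theorem isOpen_slitted (Θ : Finset ℝ) : IsOpen (slitted Θ) := by
  have : slitted Θ = (⋃ θ ∈ Θ, {w : ℂ | ∃ r : ℝ, 1 ≤ r ∧ w = pol r θ})ᶜ := by
    ext w
    simp only [slitted, mem_ofPred_eq, mem_compl_iff, mem_iUnion, not_exists, exists_prop, not_and]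
  rw [this, isOpen_compl_iff]
  exact Θ.finite_toSet.isClosed_biUnion (fun θ _ => isClosed_slit θ)

/-- data of the central sheet of the polynomial `P` -/
structure Hub (P : Polynomial ℂ) (Θ : Finset ℝ) (G : ℂ → ℂ) : Prop where
  deg : 1 ≤ P.natDegree
  dif : DifferentiableOn ℂ G (slitted Θ)
  inv : ∀ w ∈ slitted Θ, P.eval (G w) = w
  G0 : G 0 = 0

variable {P : Polynomial ℂ} {Θ : Finset ℝ} {G : ℂ → ℂ}

theorem Hub.inj (h : Hub P Θ G) : InjOn G (slitted Θ) := by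
  intro w hw w' hw' heq
  rw [← h.inv w hw, ← h.inv w' hw', heq]

theorem Hub.cont (h : Hub P Θ G) : ContinuousOn G (slitted Θ) := h.dif.continuousOn

theorem Hub.der (h : Hub P Θ G) {w : ℂ} (hw : w ∈ slitted Θ) :
    P.derivative.eval (G w) * deriv G w = 1 := by
  have h1 : HasDerivAt G (deriv G w) w :=
    (h.dif.differentiableAt ((isOpen_slitted Θ).mem_nhds hw)).hasDerivAt
  have h2 := (P.hasDerivAt (G w)).comp w h1
  have h3 : HasDerivAt (fun x => P.eval (G x)) 1 w := by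
    apply (hasDerivAt_id w).congr_of_eventuallyEq
    filter_upwards [(isOpen_slitted Θ).mem_nhds hw] with x hx
    exact h.inv x hx
  exact h2.unique h3

theorem Hub.P0 (h : Hub P Θ G) : P.eval 0 = 0 := by
  have := h.inv 0 (zero_mem_slitted Θ)
  rwa [h.G0] at this

/-- the image of the central sheet -/
def HH (Θ : Finset ℝ) (G : ℂ → ℂ) : Set ℂ := G '' slitted Θ

theorem Hub.eqG (h : Hub P Θ G) {z : ℂ} (hz : z ∈ HH Θ G) : G (P.eval z) = z := by
  obtain ⟨w, hw, rfl⟩ := hz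
  rw [h.inv w hw]

theorem Hub.memS (h : Hub P Θ G) {z : ℂ} (hz : z ∈ HH Θ G) : P.eval z ∈ slitted Θ := by
  obtain ⟨w, hw, rfl⟩ := hz
  rw [h.inv w hw]; exact hw

theorem Hub.isOpen (h : Hub P Θ G) : IsOpen (HH Θ G) := by
  rw [isOpen_iff_mem_nhds]
  rintro _ ⟨w, hw, rfl⟩
  have hG : AnalyticAt ℂ G w := h.dif.analyticAt ((isOpen_slitted Θ).mem_nhds hw)
  have hd : deriv G w ≠ 0 := by
    intro h0
    have := h.der hw
    rw [h0, mul_zero] at this
    exact zero_ne_one this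
  have h1 := hG.hasStrictDerivAt.map_nhds_eq hd
  rw [← h1]
  exact image_mem_map ((isOpen_slitted Θ).mem_nhds hw)

theorem Hub.zero_mem (h : Hub P Θ G) : (0 : ℂ) ∈ HH Θ G := ⟨0, zero_mem_slitted Θ, h.G0⟩

theorem Hub.closure_mem (h : Hub P Θ G) {z : ℂ} (hz : z ∈ closure (HH Θ G)) (hz' : z ∉ HH Θ G) :
    ∃ θ ∈ Θ, ∃ r : ℝ, 1 ≤ r ∧ P.eval z = pol r θ := by
  by_contra hc
  push Not at hc
  have hw : P.eval z ∈ slitted Θ := fun θ hθ r hr => hc θ hθ r hr
  apply hz'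
  have h1 : Tendsto (fun x => G (P.eval x)) (𝓝 z) (𝓝 (G (P.eval z))) :=
    (h.cont.continuousAt ((isOpen_slitted Θ).mem_nhds hw)).tendsto.comp P.continuous.continuousAt
  have h2 : Tendsto (fun x => G (P.eval x)) (𝓝[HH Θ G] z) (𝓝 (G (P.eval z))) :=
    h1.mono_left nhdsWithin_le_nhds
  have h3 : Tendsto (fun x => G (P.eval x)) (𝓝[HH Θ G] z) (𝓝 z) := by
    apply (tendsto_id.mono_left nhdsWithin_le_nhds).congr'
    filter_upwards [self_mem_nhdsWithin] with x hx
    exact (h.eqG hx).symm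
  have : (𝓝[HH Θ G] z).NeBot := mem_closure_iff_nhdsWithin_neBot.1 hz
  have h4 := tendsto_nhds_unique h3 h2
  rw [h4]
  exact ⟨_, hw, rfl⟩

end Pool.Agent.Y858.BU
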