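import Pool.Agent.Y858.BU.Label

set_option autoImplicit false

namespace Pool.Agent.Y858.BU

open Set Filter Topology MeasureTheory Metric
open scoped ENNReal

variable {P : Polynomial ℂ} {Θ : Finset ℝ} {G : ℂ → ℂ}

/-- the roots of `P - w` in `K` -/
noncomputable def cnt (P : Polynomial ℂ) (K : Set ℂ) (w : ℂ) : ℕ := {z : ℂ | P.eval z = w ∧ z ∈ K}.ncard

/-- the set of the roots of `P - w` -/
noncomputable def rts (P : Polynomial ℂ) (w : ℂ) : Finset ℂ := by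
  classical exact (P - Polynomial.C w).roots.toFinset

theorem sub_ne (hP : 1 ≤ P.natDegree) (w : ℂ) : P - Polynomial.C w ≠ 0 := by
  intro h0
  have h1 : P = Polynomial.C w := sub_eq_zero.1 h0
  rw [h1, Polynomial.natDegree_C] at hP
  omega

theorem mem_rts (hP : 1 ≤ P.natDegree) {w z : ℂ} : z ∈ rts P w ↔ P.eval z = w := by
  classical
  unfold rts
  rw [Multiset.mem_toFinset, Polynomial.mem_roots (sub_ne hP w), Polynomial.IsRoot.def,
    Polynomial.eval_sub, Polynomial.eval_C, sub_eq_zero]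

theorem finite_fib (hP : 1 ≤ P.natDegree) (w : ℂ) : {z : ℂ | P.eval z = w}.Finite := by
  apply (rts P w).finite_toSet.subset
  intro z hz
  exact (mem_rts hP).2 hz

theorem card_rts (hP : 1 ≤ P.natDegree) {w : ℂ}
    (hw : ∀ z, P.derivative.eval z = 0 → P.eval z ≠ w) : (rts P w).card = P.natDegree := by
  classical
  have h1 : (P - Polynomial.C w).natDegree = P.natDegree := Polynomial.natDegree_sub_C
  have h2 : (P - Polynomial.C w).roots.card = (P - Polynomial.C w).natDegree :=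
    (Polynomial.splits_iff_card_roots.1 (IsAlgClosed.splits _))
  have h3 : (P - Polynomial.C w).roots.Nodup := by
    rw [Multiset.nodup_iff_count_le_one]
    intro z
    rw [Polynomial.count_roots]
    by_contra hc
    have h4 := (Polynomial.one_lt_rootMultiplicity_iff_isRoot (sub_ne hP w)).1 (not_le.1 hc)
    have h5 : P.derivative.eval z = 0 := by
      have := h4.2
      rwa [Polynomial.derivative_sub, Polynomial.derivative_C, sub_zero] at this
    have h6 : P.eval z = w := by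
      have := h4.1
      rwa [Polynomial.IsRoot.def, Polynomial.eval_sub, Polynomial.eval_C, sub_eq_zero] at this
    exact hw z h5 h6
  unfold rts
  rw [Multiset.toFinset_card_of_nodup h3, h2, h1]

theorem cnt_eq (hP : 1 ≤ P.natDegree) (K : Set ℂ) [DecidablePred (· ∈ K)] (w : ℂ) :
    cnt P K w = ((rts P w).filter (· ∈ K)).card := by
  unfold cnt
  rw [← Set.ncard_coe_finset]
  congr 1
  ext z
  simp only [Finset.coe_filter, mem_rts hP, mem_ofPred_eq]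

theorem cnt_locconst_aux {w₀ : ℂ} {K : Set ℂ} {I : Type} [TopologicalSpace I] [Finite I]
    {U : Set ℂ} (hwU : w₀ ∈ U) (hU : IsOpen U)
    (H : (fun z => P.eval z) ⁻¹' U ≃ₜ U × I)
    (hH : ∀ x : (fun z => P.eval z) ⁻¹' U, ((H x).1 : ℂ) = P.eval (x : ℂ))
    (hK : ∀ z, P.eval z = w₀ → K ∈ 𝓝 z ∨ Kᶜ ∈ 𝓝 z) :
    ∀ᶠ w in 𝓝 w₀, cnt P K w = cnt P K w₀ := by
  classical
  -- the sections
  have hcnt : ∀ w (hw : w ∈ U), cnt P K w = {i : I | (H.symm (⟨w, hw⟩, i) : ℂ) ∈ K}.ncard := by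
    intro w hw
    unfold cnt
    have hinj : Function.Injective (fun i : I => ((H.symm (⟨w, hw⟩, i) : _) : ℂ)) := by
      intro i j hij
      have h1 := Subtype.ext hij
      have h2 := H.symm.injective h1
      exact (Prod.ext_iff.1 h2).2
    rw [← Set.ncard_image_of_injective _ hinj]
    congr 1
    ext z
    constructor
    · rintro ⟨hz1, hz2⟩
      have hzU : z ∈ P.eval ⁻¹' U := by rw [mem_preimage, hz1]; exact hw
      refine ⟨(H ⟨z, hzU⟩).2, ?_, ?_⟩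
      · have h3 : H ⟨z, hzU⟩ = (⟨w, hw⟩, (H ⟨z, hzU⟩).2) := by
          apply Prod.ext
          · apply Subtype.ext
            rw [hH]
            exact hz1
          · rfl
        rw [mem_ofPred_eq, ← h3, H.symm_apply_apply]
        exact hz2
      · have h3 : H ⟨z, hzU⟩ = (⟨w, hw⟩, (H ⟨z, hzU⟩).2) := by
          apply Prod.ext
          · apply Subtype.ext
            rw [hH]
            exact hz1
          · rfl
        simp only
        rw [← h3, H.symm_apply_apply]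
    · rintro ⟨i, hi, rfl⟩
      refine ⟨?_, hi⟩
      have h4 := hH (H.symm (⟨w, hw⟩, i))
      rw [H.apply_symm_apply] at h4
      exact h4.symm
  have hloc : ∀ i : I, ∀ᶠ w in 𝓝 w₀, ∀ hw : w ∈ U,
      ((H.symm (⟨w, hw⟩, i) : ℂ) ∈ K ↔ (H.symm (⟨w₀, hwU⟩, i) : ℂ) ∈ K) := by
    intro i
    have hc : Continuous (fun u : U => (H.symm (u, i) : ℂ)) :=
      continuous_subtype_val.comp (H.symm.continuous.comp (by fun_prop))
    have hz0 : P.eval ((H.symm (⟨w₀, hwU⟩, i) : _) : ℂ) = w₀ := by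
      have h4 := hH (H.symm (⟨w₀, hwU⟩, i))
      rw [H.apply_symm_apply] at h4
      exact h4.symm
    have h5 : ∀ S : Set ℂ, S ∈ 𝓝 ((H.symm (⟨w₀, hwU⟩, i) : _) : ℂ) →
        ∀ᶠ w in 𝓝 w₀, ∀ hw : w ∈ U, (H.symm (⟨w, hw⟩, i) : ℂ) ∈ S := by
      intro S hS
      have h6 : ∀ᶠ u : U in 𝓝 ⟨w₀, hwU⟩, (H.symm (u, i) : ℂ) ∈ S := hc.continuousAt.eventually hS
      rw [hU.isOpenEmbedding_subtypeVal.nhds_eq_comap ⟨w₀, hwU⟩, Filter.eventually_comap] at h6
      filter_upwards [h6] with w hw hwU'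
      exact hw ⟨w, hwU'⟩ rfl
    rcases hK _ hz0 with h6 | h6
    · filter_upwards [h5 _ h6] with w hw hwU'
      exact ⟨fun _ => mem_of_mem_nhds h6, fun _ => hw hwU'⟩
    · filter_upwards [h5 _ h6] with w hw hwU'
      exact ⟨fun h7 => absurd h7 (hw hwU'), fun h7 => absurd h7 (mem_of_mem_nhds h6)⟩
  have hall : ∀ᶠ w in 𝓝 w₀, ∀ i : I, ∀ hw : w ∈ U,
      ((H.symm (⟨w, hw⟩, i) : ℂ) ∈ K ↔ (H.symm (⟨w₀, hwU⟩, i) : ℂ) ∈ K) :=
    Filter.eventually_all.2 hloc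
  filter_upwards [hall, hU.mem_nhds hwU] with w hw hwU'
  rw [hcnt w hwU', hcnt w₀ hwU]
  congr 1
  ext i
  exact hw i hwU'

theorem cnt_locconst (hP : 1 ≤ P.natDegree) {w₀ : ℂ} {K : Set ℂ}
    (hcrit : ∀ z, P.derivative.eval z = 0 → P.eval z ≠ w₀)
    (hK : ∀ z, P.eval z = w₀ → K ∈ 𝓝 z ∨ Kᶜ ∈ 𝓝 z) :
    ∀ᶠ w in 𝓝 w₀, cnt P K w = cnt P K w₀ := by
  have cov := P.isCoveringMapOn_eval w₀ (by
    rintro ⟨z, hz, hzw⟩
    exact hcrit z hz hzw)
  obtain ⟨hdisc, U, hwU, hU, hpU, H, hH⟩ := cov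
  have hfin : Finite ((fun z => P.eval z) ⁻¹' {w₀}) := (finite_fib hP w₀)
  exact cnt_locconst_aux hwU hU H hH hK

/-- the label sets -/
structure Lab (P : Polynomial ℂ) (Θ : Finset ℝ) (G : ℂ → ℂ) (K : ℝ → Set ℂ) : Prop where
  op : ∀ θ ∈ Θ, IsOpen (K θ)
  off : ∀ θ ∈ Θ, Disjoint (K θ) (closure (HH Θ G))
  cover : ∀ z, z ∉ closure (HH Θ G) → ∃ θ ∈ Θ, z ∈ K θ
  disj : ∀ θ ∈ Θ, ∀ θ' ∈ Θ, θ ≠ θ' → Disjoint (K θ) (K θ')
  bd : ∀ z ∈ closure (HH Θ G), z ∉ HH Θ G → ∀ θ ∈ Θ, ∀ r : ℝ, 1 ≤ r → P.eval z = pol r θ →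
        ∀ θ' ∈ Θ, θ' ≠ θ → z ∉ closure (K θ')

theorem Hub.exLab (hlog : S_log) (h : Hub P Θ G) (hΘ : ∀ θ ∈ Θ, θ ∈ Ico 0 (2 * Real.pi)) :
    ∃ K : ℝ → Set ℂ, Lab P Θ G K := by
  obtain ⟨K, h1, h2, h3, h4, h5⟩ := h.labels hlog hΘ
  exact ⟨K, h1, h2, h3, h4, h5⟩

theorem Lab.locconst {K : ℝ → Set ℂ} (hK : Lab P Θ G K) (h : Hub P Θ G) {θ : ℝ} (hθ : θ ∈ Θ)
    {w₀ : ℂ} (hcrit : ∀ z, P.derivative.eval z = 0 → P.eval z ≠ w₀)
    (hw₀ : ∀ r : ℝ, 1 ≤ r → w₀ ≠ pol r θ) :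
    ∀ᶠ w in 𝓝 w₀, cnt P (K θ) w = cnt P (K θ) w₀ := by
  apply cnt_locconst h.deg hcrit
  intro z hz
  by_cases hzH : z ∈ HH Θ G
  · right
    apply mem_of_superset (h.isOpen.mem_nhds hzH)
    intro x hx hxK
    exact Set.disjoint_left.1 (hK.off θ hθ) hxK (subset_closure hx)
  by_cases hzc : z ∈ closure (HH Θ G)
  · right
    obtain ⟨θ', hθ', r, hr, hzr⟩ := h.closure_mem hzc hzH
    have hne : θ ≠ θ' := by
      rintro rfl
      exact hw₀ r hr (hz.symm.trans hzr)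
    have h1 := hK.bd z hzc hzH θ' hθ' r hr hzr θ hθ hne
    apply mem_of_superset (isClosed_closure.isOpen_compl.mem_nhds h1)
    exact compl_subset_compl.2 subset_closure
  · obtain ⟨θ', hθ', hzK⟩ := hK.cover z hzc
    by_cases hne : θ = θ'
    · left
      rw [hne]
      exact (hK.op θ' hθ').mem_nhds hzK
    · right
      apply mem_of_superset ((hK.op θ' hθ').mem_nhds hzK)
      intro x hx hxK
      exact Set.disjoint_left.1 (hK.disj θ hθ θ' hθ' hne) hxK hx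

theorem derivative_ne (hP : 1 ≤ P.natDegree) : P.derivative ≠ 0 := by
  intro h0
  have := Polynomial.derivative_eq_zero.1 h0
  omega

theorem exists_r0 (hP : 1 ≤ P.natDegree) : ∃ r₀ : ℝ, 0 < r₀ ∧ r₀ < 1 ∧
    ∀ z, P.derivative.eval z = 0 → P.eval z ≠ 0 → r₀ < ‖P.eval z‖ := by
  classical
  set D : Finset ℝ := insert 1 (((P.derivative.roots.toFinset).filter (fun z => P.eval z ≠ 0)).image
    (fun z => ‖P.eval z‖)) with hD
  have hDne : D.Nonempty := ⟨_, Finset.mem_insert_self _ _⟩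
  have hpos : 0 < D.min' hDne := by
    rw [Finset.lt_min'_iff]
    intro x hx
    rw [hD, Finset.mem_insert] at hx
    rcases hx with rfl | hx
    · exact one_pos
    · rw [Finset.mem_image] at hx
      obtain ⟨z, hz, rfl⟩ := hx
      rw [Finset.mem_filter] at hz
      exact norm_pos_iff.2 hz.2
  have hle : D.min' hDne ≤ 1 := Finset.min'_le _ _ (Finset.mem_insert_self _ _)
  refine ⟨D.min' hDne / 2, by linarith, by linarith, ?_⟩
  intro z hz hz0
  have : D.min' hDne ≤ ‖P.eval z‖ := by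
    apply Finset.min'_le
    rw [hD, Finset.mem_insert]
    right
    rw [Finset.mem_image]
    refine ⟨z, ?_, rfl⟩
    rw [Finset.mem_filter, Multiset.mem_toFinset, Polynomial.mem_roots (derivative_ne hP)]
    exact ⟨hz, hz0⟩
  linarith

theorem Free.mono {Θ Ξ : Finset ℝ} (h : Θ ⊆ Ξ) {φ : ℝ} (hφ : Free Ξ φ) : Free Θ φ :=
  fun θ hθ k => hφ θ (h hθ) k

theorem free_ncrit {Ξ : Finset ℝ} (hΞ : ∀ z, P.derivative.eval z = 0 → Complex.arg (P.eval z) ∈ Ξ)
    {r φ : ℝ} (hr : 0 < r) (hφ : Free Ξ φ) : ∀ z, P.derivative.eval z = 0 → P.eval z ≠ pol r φ := by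
  intro z hz heq
  have h0 : P.eval z ≠ 0 := by rw [heq]; exact pol_ne_zero hr
  have h1 : pol ‖P.eval z‖ (Complex.arg (P.eval z)) = pol r φ := by rw [pol_arg, heq]
  rw [pol_eq_iff (norm_pos_iff.2 h0) hr] at h1
  obtain ⟨-, k, hk⟩ := h1
  exact hφ _ (hΞ z hz) (-k) (by push_cast; linarith)

theorem nat_const {X : Type*} [TopologicalSpace X] {S : Set X} (hS : IsPreconnected S) {f : X → ℕ}
    (hf : ∀ x ∈ S, ∀ᶠ y in 𝓝 x, f y = f x) {x y : X} (hx : x ∈ S) (hy : y ∈ S) : f x = f y := by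
  have h1 : ContinuousOn (fun x => (f x : ℝ)) S := by
    intro x hx
    apply ContinuousAt.continuousWithinAt
    apply (continuousAt_const (y := (f x : ℝ))).congr
    filter_upwards [hf x hx] with y hy
    rw [hy]
  have h2 := int_const hS h1 (fun x _ => ⟨(f x : ℤ), by simp⟩) hx hy
  exact_mod_cast h2

theorem Lab.exn {K : ℝ → Set ℂ} (hK : Lab P Θ G K) (h : Hub P Θ G) {Ξ : Finset ℝ} (hΘΞ : Θ ⊆ Ξ)
    (hΞ : ∀ z, P.derivative.eval z = 0 → Complex.arg (P.eval z) ∈ Ξ) :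
    ∃ r₀ : ℝ, 0 < r₀ ∧ r₀ < 1 ∧ (∀ z, P.derivative.eval z = 0 → P.eval z ≠ pol r₀ 0) ∧
      ∀ θ ∈ Θ, ∀ r φ : ℝ, 0 < r → Free Ξ φ → cnt P (K θ) (pol r φ) = cnt P (K θ) (pol r₀ 0) := by
  obtain ⟨r₀, hr₀, hr₁, hcr⟩ := exists_r0 h.deg
  have hcr' : ∀ φ : ℝ, ∀ z, P.derivative.eval z = 0 → P.eval z ≠ pol r₀ φ := by
    intro φ z hz heq
    have h0 : P.eval z ≠ 0 := by rw [heq]; exact pol_ne_zero hr₀
    have h1 := hcr z hz h0
    rw [heq, norm_pol' φ hr₀.le] at h1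
    exact lt_irrefl _ h1
  refine ⟨r₀, hr₀, hr₁, hcr' 0, ?_⟩
  intro θ hθ r φ hr hφ
  have hcp : Continuous (fun p : ℝ × ℝ => pol p.1 p.2) := continuous_pol
  -- along the ray
  have h1 : cnt P (K θ) (pol r φ) = cnt P (K θ) (pol r₀ φ) := by
    apply nat_const (f := fun t : ℝ => cnt P (K θ) (pol t φ)) (convex_Ioi (0 : ℝ)).isPreconnected
      _ (mem_Ioi.2 hr) (mem_Ioi.2 hr₀)
    intro t ht
    have h2 := hK.locconst h hθ (w₀ := pol t φ) (free_ncrit hΞ ht hφ) (by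
      intro r' hr' heq
      rw [pol_eq_iff ht (by linarith)] at heq
      obtain ⟨-, k, hk⟩ := heq
      exact hφ θ (hΘΞ hθ) k hk)
    have h3 : ContinuousAt (fun t : ℝ => pol t φ) t :=
      (hcp.comp (by fun_prop : Continuous fun t : ℝ => (t, φ))).continuousAt
    exact h3.eventually h2
  -- along the circle
  rw [h1]
  apply nat_const (f := fun ψ : ℝ => cnt P (K θ) (pol r₀ ψ)) isPreconnected_univ
    _ (mem_univ φ) (mem_univ 0)
  intro ψ _
  have h2 := hK.locconst h hθ (w₀ := pol r₀ ψ) (hcr' ψ) (by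
    intro r' hr' heq
    have := congrArg norm heq
    rw [norm_pol' _ hr₀.le, norm_pol' _ (by linarith)] at this
    linarith)
  have h3 : ContinuousAt (fun ψ : ℝ => pol r₀ ψ) ψ :=
    (hcp.comp (by fun_prop : Continuous fun ψ : ℝ => (r₀, ψ))).continuousAt
  exact h3.eventually h2

/-- sums over the roots -/
theorem Lab.sum {K : ℝ → Set ℂ} (hK : Lab P Θ G K) (h : Hub P Θ G) {w : ℂ} (hw : w ∈ slitted Θ)
    {F : ℂ → ℝ≥0∞} {a : ℝ≥0∞} {b : ℝ → ℝ≥0∞} (hFa : ∀ z ∈ HH Θ G, P.eval z = w → F z = a)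
    (hFb : ∀ θ ∈ Θ, ∀ z ∈ K θ, P.eval z = w → F z = b θ) :
    ∑ z ∈ rts P w, F z = a + ∑ θ ∈ Θ, cnt P (K θ) w * b θ := by
  classical
  have hpt : ∀ z ∈ rts P w, F z = (if z ∈ HH Θ G then a else 0) +
      ∑ θ ∈ Θ, (if z ∈ K θ then b θ else 0) := by
    intro z hz
    rw [mem_rts h.deg] at hz
    by_cases hzH : z ∈ HH Θ G
    · rw [if_pos hzH, hFa z hzH hz, Finset.sum_eq_zero, add_zero]
      intro θ hθ
      rw [if_neg]
      intro hzK
      exact Set.disjoint_left.1 (hK.off θ hθ) hzK (subset_closure hzH)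
    · have hzc : z ∉ closure (HH Θ G) := by
        intro hzc
        obtain ⟨θ, hθ, r, hr, hzr⟩ := h.closure_mem hzc hzH
        exact hw θ hθ r hr (hz.symm.trans hzr)
      obtain ⟨θ, hθ, hzK⟩ := hK.cover z hzc
      rw [if_neg hzH, zero_add, Finset.sum_eq_single_of_mem θ hθ, if_pos hzK, hFb θ hθ z hzK hz]
      intro θ' hθ' hne
      rw [if_neg]
      intro hzK'
      exact Set.disjoint_left.1 (hK.disj θ' hθ' θ hθ hne) hzK' hzK
  rw [Finset.sum_congr rfl hpt, Finset.sum_add_distrib, Finset.sum_comm]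
  congr 1
  · rw [← Finset.sum_filter]
    have : (rts P w).filter (· ∈ HH Θ G) = {G w} := by
      ext z
      rw [Finset.mem_filter, mem_rts h.deg, Finset.mem_singleton]
      constructor
      · rintro ⟨hz, hzH⟩
        rw [← h.eqG hzH, hz]
      · rintro rfl
        exact ⟨h.inv w hw, ⟨w, hw, rfl⟩⟩
    rw [this, Finset.sum_singleton]
  · apply Finset.sum_congr rfl
    intro θ _
    rw [← Finset.sum_filter, Finset.sum_const, cnt_eq h.deg, nsmul_eq_mul]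

theorem Lab.sum_card {K : ℝ → Set ℂ} (hK : Lab P Θ G K) (h : Hub P Θ G) {w : ℂ}
    (hw : w ∈ slitted Θ) (hcrit : ∀ z, P.derivative.eval z = 0 → P.eval z ≠ w) :
    1 + ∑ θ ∈ Θ, cnt P (K θ) w = P.natDegree := by
  have h1 := hK.sum h hw (F := fun _ => 1) (a := 1) (b := fun _ => 1) (fun _ _ _ => rfl)
    (fun _ _ _ _ _ => rfl)
  rw [Finset.sum_const, card_rts h.deg hcrit, nsmul_eq_mul, mul_one] at h1
  simp only [mul_one] at h1
  have h2 : ((1 + ∑ θ ∈ Θ, cnt P (K θ) w : ℕ) : ℝ≥0∞) = ((P.natDegree : ℕ) : ℝ≥0∞) := by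
    push_cast
    exact h1.symm
  exact_mod_cast h2

end Pool.Agent.Y858.BU
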