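import Pool.Agent.Y858.BU.Fun

set_option autoImplicit false

namespace Pool.Agent.Y858.BU

open Set Filter Topology MeasureTheory Metric
open scoped ENNReal

variable {m : ℕ} {P : Polynomial ℂ} {Θ : Finset ℝ} {G : ℂ → ℂ} {K : ℝ → Set ℂ}
    {U V eU eV : ℝ → ℝ → ℝ} {T : ℝ → ℝ} {B Ξ : Finset ℝ}

theorem tri_meas (θ : ℝ) : Measurable (fun x : ℝ => tri (x - θ)) :=
  (tri_cont.comp (by fun_prop)).measurable

theorem meas_log : Measurable (fun z : ℂ => Real.log ‖P.eval z‖) :=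
  Real.measurable_log.comp (P.continuous.norm.measurable)

theorem meas_arg : Measurable (fun z : ℂ => Complex.arg (P.eval z)) :=
  Complex.measurable_arg.comp P.continuous.measurable

theorem Dat.meas_eE (h : Dat m P Θ G K U V eU eV T B Ξ) : Measurable (eE P Θ G K eU eV T) := by
  classical
  unfold eE
  apply Measurable.ite h.hub.isOpen.measurableSet
  · exact (h.mod.measU.comp ((meas_log (P := P)).prodMk
      (h.zig.cont.measurable.comp (meas_arg (P := P))))).ennreal_ofReal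
  · apply Finset.measurable_sum
    intro θ hθ
    apply Measurable.ite (h.lab.op θ hθ).measurableSet
    · exact (h.mod.measV.comp ((meas_log (P := P)).prodMk
        ((tri_meas θ).comp (meas_arg (P := P))))).ennreal_ofReal
    · exact measurable_const

theorem Dat.meas_Phi (h : Dat m P Θ G K U V eU eV T B Ξ) : Measurable (Phi P Θ G K eU eV T) := by
  unfold Phi
  apply h.meas_eE.mul
  exact ((P.continuous.norm.measurable.pow_const 2).inv).ennreal_ofReal

theorem Dat.meas_EE (h : Dat m P Θ G K U V eU eV T B Ξ) : Measurable (EE P Θ G K eU eV T) := by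
  unfold EE
  exact ((P.derivative.continuous.norm.measurable.pow_const 2).ennreal_ofReal).mul h.meas_Phi

/-- energy density over the point `w` of the central sheet -/
noncomputable def aw (eU : ℝ → ℝ → ℝ) (T : ℝ → ℝ) (s₁ s₂ : ℝ) (w : ℂ) : ℝ≥0∞ := by
  classical exact
    (if Real.exp s₁ < ‖w‖ ∧ ‖w‖ < Real.exp s₂ then
      ENNReal.ofReal (eU (Real.log ‖w‖) (T (Complex.arg w))) * ENNReal.ofReal ((‖w‖ ^ 2)⁻¹) else 0)

/-- energy density over the point `w` of the other sheets -/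
noncomputable def bw (eV : ℝ → ℝ → ℝ) (s₂ θ : ℝ) (w : ℂ) : ℝ≥0∞ := by
  classical exact
    (if ‖w‖ < Real.exp s₂ then
      ENNReal.ofReal (eV (Real.log ‖w‖) (tri (Complex.arg w - θ))) *
        ENNReal.ofReal ((‖w‖ ^ 2)⁻¹) else 0)

theorem Dat.sum_le (h : Dat m P Θ G K U V eU eV T B Ξ) {ε R s₁ s₂ : ℝ}
    (hR : ∀ z : ℂ, ‖z‖ < R → ‖P.eval z‖ < Real.exp s₂)
    (hε : ∀ z ∈ HH Θ G, ε < ‖z‖ → Real.exp s₁ < ‖P.eval z‖) {w : ℂ} (hw : w ∈ slitted Θ) :
    ∑ z ∈ rts P w, {z : ℂ | ε < ‖z‖ ∧ ‖z‖ < R}.indicator (Phi P Θ G K eU eV T) z ≤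
      aw eU T s₁ s₂ w + ∑ θ ∈ Θ, cnt P (K θ) w * bw eV s₂ θ w := by
  classical
  set F : ℂ → ℝ≥0∞ := fun z => if z ∈ HH Θ G then
      (if Real.exp s₁ < ‖P.eval z‖ ∧ ‖P.eval z‖ < Real.exp s₂ then Phi P Θ G K eU eV T z else 0)
      else (if ‖P.eval z‖ < Real.exp s₂ then Phi P Θ G K eU eV T z else 0) with hF
  have h1 : ∀ z ∈ rts P w,
      {z : ℂ | ε < ‖z‖ ∧ ‖z‖ < R}.indicator (Phi P Θ G K eU eV T) z ≤ F z := by
    intro z _
    by_cases hz : z ∈ {z : ℂ | ε < ‖z‖ ∧ ‖z‖ < R}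
    · rw [indicator_of_mem hz, hF]
      simp only
      by_cases hH : z ∈ HH Θ G
      · rw [if_pos hH, if_pos ⟨hε z hH hz.1, hR z hz.2⟩]
      · rw [if_neg hH, if_pos (hR z hz.2)]
    · rw [indicator_of_notMem hz]
      exact bot_le
  refine (Finset.sum_le_sum h1).trans (le_of_eq ?_)
  apply h.lab.sum h.hub hw
  · intro z hz hzw
    simp only [hF]
    rw [if_pos hz, hzw]
    unfold aw Phi
    rw [eE_H hz, hzw]
  · intro θ hθ z hz hzw
    have hzH : z ∉ HH Θ G := fun hh => Set.disjoint_left.1 (h.lab.off θ hθ) hz (subset_closure hh)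
    simp only [hF]
    rw [if_neg hzH, hzw]
    unfold bw Phi
    rw [h.eE_mem hθ hz, hzw]

theorem lint_log (H : ℝ → ℝ≥0∞) :
    ∫⁻ r in Ioi (0 : ℝ), ENNReal.ofReal r⁻¹ * H (Real.log r) = ∫⁻ s, H s := by
  have h1 := lintegral_image_eq_lintegral_abs_deriv_mul (s := univ) (f := Real.exp)
    (f' := Real.exp) MeasurableSet.univ (fun x _ => (Real.hasDerivAt_exp x).hasDerivWithinAt)
    Real.exp_injective.injOn (fun r => ENNReal.ofReal r⁻¹ * H (Real.log r))
  rw [image_univ, Real.range_exp] at h1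
  rw [h1, Measure.restrict_univ]
  apply lintegral_congr
  intro s
  rw [Real.log_exp, abs_of_pos (Real.exp_pos s), ← mul_assoc, ← ENNReal.ofReal_mul (Real.exp_pos s).le,
    mul_inv_cancel₀ (Real.exp_pos s).ne', ENNReal.ofReal_one, one_mul]

theorem null_free (Ξ : Finset ℝ) : volume {φ : ℝ | ¬ Free Ξ φ} = 0 := by
  apply Set.Countable.measure_zero
  have : {φ : ℝ | ¬ Free Ξ φ} ⊆ ⋃ θ ∈ Ξ, range (fun k : ℤ => θ + 2 * Real.pi * (k : ℝ)) := by
    intro φ hφ
    have h1 : ¬ Free Ξ φ := hφ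
    unfold Free at h1
    push Not at h1
    obtain ⟨θ, hθ, k, hk⟩ := h1
    exact mem_iUnion₂.2 ⟨θ, hθ, k, hk.symm⟩
  exact (Ξ.countable_toSet.biUnion fun θ _ => countable_range _).mono this

theorem arg_pol {r φ : ℝ} (hr : 0 < r) (hφ : φ ∈ Ioo (-Real.pi) Real.pi) :
    Complex.arg (pol r φ) = φ := by
  have hpi := Real.pi_pos
  have h1 : pol ‖pol r φ‖ (Complex.arg (pol r φ)) = pol r φ := pol_arg _
  rw [pol_eq_iff (norm_pos_iff.2 (pol_ne_zero hr)) hr] at h1
  obtain ⟨-, k, hk⟩ := h1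
  have h2 := Complex.neg_pi_lt_arg (pol r φ)
  have h3 := Complex.arg_le_pi (pol r φ)
  have h4 : (k : ℝ) < 1 := by
    by_contra hc
    have : 2 * Real.pi ≤ 2 * Real.pi * (k : ℝ) := by nlinarith
    linarith [hφ.1]
  have h5 : (-1 : ℝ) < k := by
    by_contra hc
    have : 2 * Real.pi * (k : ℝ) ≤ -(2 * Real.pi) := by nlinarith
    linarith [hφ.2]
  have h6 : k < 1 := by exact_mod_cast h4
  have h7 : -1 < k := by exact_mod_cast h5
  have h8 : k = 0 := by omega
  rw [hk, h8]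
  simp

theorem symm_eq_pol (p : ℝ × ℝ) : Complex.polarCoord.symm p = pol p.1 p.2 := by
  rw [Complex.polarCoord_symm_apply, pol, Complex.exp_mul_I]
  simp

end Pool.Agent.Y858.BU
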