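import Pool.Agent.Y858.BU.Energy

set_option autoImplicit false

namespace Pool.Agent.Y858.BU

open Set Filter Topology MeasureTheory Metric
open scoped ENNReal

variable {m : ℕ} {P : Polynomial ℂ} {Θ : Finset ℝ} {G : ℂ → ℂ} {K : ℝ → Set ℂ}
    {U V eU eV : ℝ → ℝ → ℝ} {T : ℝ → ℝ} {B Ξ : Finset ℝ}

theorem polar_lint {H : ℝ → ℝ → ℝ≥0∞} (hH : Measurable (fun p : ℝ × ℝ => H p.1 p.2)) :
    ∫⁻ p in Ioi (0 : ℝ) ×ˢ Ioo (-Real.pi) Real.pi,
      ENNReal.ofReal (p.1)⁻¹ * H (Real.log p.1) p.2 =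
    ∫⁻ s, ∫⁻ φ in Ioo (-Real.pi) Real.pi, H s φ := by
  rw [Measure.volume_eq_prod, ← Measure.prod_restrict, lintegral_prod]
  · rw [← lint_log (fun s => ∫⁻ φ in Ioo (-Real.pi) Real.pi, H s φ)]
    apply lintegral_congr
    intro r
    exact lintegral_const_mul' (ENNReal.ofReal r⁻¹) (fun φ => H (Real.log r) φ)
      ENNReal.ofReal_ne_top
  · apply Measurable.aemeasurable
    apply Measurable.mul
    · exact (measurable_fst.inv).ennreal_ofReal
    · exact hH.comp ((Real.measurable_log.comp measurable_fst).prodMk measurable_snd)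

theorem lint_ind {H : ℝ → ℝ → ℝ≥0∞} (hH : Measurable (fun p : ℝ × ℝ => H p.1 p.2)) {I J : Set ℝ}
    (hI : MeasurableSet I) :
    ∫⁻ s, ∫⁻ t in J, I.indicator (fun s => H s t) s = ∫⁻ p in I ×ˢ J, H p.1 p.2 := by
  rw [Measure.volume_eq_prod, ← Measure.prod_restrict, lintegral_prod _ hH.aemeasurable]
  rw [← lintegral_indicator hI]
  apply lintegral_congr
  intro s
  by_cases hs : s ∈ I
  · simp only [indicator_of_mem hs]
  · simp only [indicator_of_notMem hs, lintegral_zero]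

theorem meas_ind {H : ℝ → ℝ → ℝ≥0∞} (hH : Measurable (fun p : ℝ × ℝ => H p.1 p.2)) {I : Set ℝ}
    (hI : MeasurableSet I) :
    Measurable (fun p : ℝ × ℝ => I.indicator (fun s => H s p.2) p.1) := by
  have h1 : (fun p : ℝ × ℝ => I.indicator (fun s => H s p.2) p.1) =
      (Prod.fst ⁻¹' I).indicator (fun p : ℝ × ℝ => H p.1 p.2) := by
    ext p
    by_cases hp : p.1 ∈ I
    · rw [indicator_of_mem hp, indicator_of_mem (show p ∈ Prod.fst ⁻¹' I from hp)]
    · rw [indicator_of_notMem hp, indicator_of_notMem (show p ∉ Prod.fst ⁻¹' I from hp)]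
  rw [h1]
  exact hH.indicator (measurable_fst hI)

theorem Zig.lint (h : Zig m Θ T B) {F : ℝ → ℝ≥0∞} (hF : Measurable F) :
    ∫⁻ x in Ioo (-Real.pi) Real.pi, F (T x) = 2 * m * ∫⁻ t in Ioo 0 (Real.pi / m), F t := by
  have h1 := lint_per (F := fun x => F (T x)) (fun x => by rw [h.per]) (-Real.pi) 0
  have h2 : -Real.pi + 2 * Real.pi = Real.pi := by ring
  rw [h2, zero_add] at h1
  rw [h1, h.meas F hF]

theorem Dat.energyU (h : Dat m P Θ G K U V eU eV T B Ξ) (s₁ s₂ : ℝ) :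
    ∫⁻ p in Ioi (0 : ℝ) ×ˢ Ioo (-Real.pi) Real.pi, ENNReal.ofReal (p.1)⁻¹ *
      (Ioo s₁ s₂).indicator (fun s => ENNReal.ofReal (eU s (T p.2))) (Real.log p.1) =
    2 * m * ∫⁻ p in Ioo s₁ s₂ ×ˢ Ioo 0 (Real.pi / m), ENNReal.ofReal (eU p.1 p.2) := by
  have hm : Measurable (fun p : ℝ × ℝ => ENNReal.ofReal (eU p.1 p.2)) := h.mod.measU.ennreal_ofReal
  have hm2 : Measurable (fun p : ℝ × ℝ => ENNReal.ofReal (eU p.1 (T p.2))) :=
    hm.comp (measurable_fst.prodMk (h.zig.cont.measurable.comp measurable_snd))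
  rw [polar_lint (H := fun s φ => (Ioo s₁ s₂).indicator (fun s => ENNReal.ofReal (eU s (T φ))) s)
    (meas_ind (H := fun s φ => ENNReal.ofReal (eU s (T φ))) hm2 measurableSet_Ioo)]
  rw [← lint_ind (H := fun s t => ENNReal.ofReal (eU s t)) hm measurableSet_Ioo]
  rw [← lintegral_const_mul' _ _ (by finiteness)]
  apply lintegral_congr
  intro s
  apply h.zig.lint (F := fun t => (Ioo s₁ s₂).indicator (fun s => ENNReal.ofReal (eU s t)) s)
  exact (meas_ind (H := fun s t => ENNReal.ofReal (eU s t)) hm measurableSet_Ioo).comp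
    (measurable_const.prodMk measurable_id)

theorem Dat.energyV (h : Dat m P Θ G K U V eU eV T B Ξ) (s₂ θ : ℝ) :
    ∫⁻ p in Ioi (0 : ℝ) ×ˢ Ioo (-Real.pi) Real.pi, ENNReal.ofReal (p.1)⁻¹ *
      (Iio s₂).indicator (fun s => ENNReal.ofReal (eV s (tri (p.2 - θ)))) (Real.log p.1) =
    2 * ∫⁻ p in Iio s₂ ×ˢ Ioo 0 Real.pi, ENNReal.ofReal (eV p.1 p.2) := by
  have hm : Measurable (fun p : ℝ × ℝ => ENNReal.ofReal (eV p.1 p.2)) := h.mod.measV.ennreal_ofReal
  have hm2 : Measurable (fun p : ℝ × ℝ => ENNReal.ofReal (eV p.1 (tri (p.2 - θ)))) :=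
    hm.comp (measurable_fst.prodMk ((tri_meas θ).comp measurable_snd))
  rw [polar_lint (H := fun s φ => (Iio s₂).indicator (fun s => ENNReal.ofReal (eV s (tri (φ - θ)))) s)
    (meas_ind (H := fun s φ => ENNReal.ofReal (eV s (tri (φ - θ)))) hm2 measurableSet_Iio)]
  rw [← lint_ind (H := fun s t => ENNReal.ofReal (eV s t)) hm measurableSet_Iio]
  rw [← lintegral_const_mul' _ _ (by finiteness)]
  apply lintegral_congr
  intro s
  exact tri_lint (fun t => (Iio s₂).indicator (fun s => ENNReal.ofReal (eV s t)) s) θ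

theorem aw_pol {s₁ s₂ r φ : ℝ} (hr : 0 < r) (hφ : φ ∈ Ioo (-Real.pi) Real.pi) :
    ENNReal.ofReal r * aw eU T s₁ s₂ (pol r φ) = ENNReal.ofReal r⁻¹ *
      (Ioo s₁ s₂).indicator (fun s => ENNReal.ofReal (eU s (T φ))) (Real.log r) := by
  unfold aw
  rw [norm_pol' φ hr.le, arg_pol hr hφ]
  by_cases hc : Real.log r ∈ Ioo s₁ s₂
  · rw [indicator_of_mem hc, if_pos ⟨(Real.lt_log_iff_exp_lt hr).1 hc.1,
      (Real.log_lt_iff_lt_exp hr).1 hc.2⟩]
    have h1 : ENNReal.ofReal r * ENNReal.ofReal (r ^ 2)⁻¹ = ENNReal.ofReal r⁻¹ := by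
      rw [← ENNReal.ofReal_mul hr.le]
      congr 1
      field_simp
    rw [← h1]
    ring
  · rw [indicator_of_notMem hc, if_neg, mul_zero, mul_zero]
    rintro ⟨h1, h2⟩
    exact hc ⟨(Real.lt_log_iff_exp_lt hr).2 h1, (Real.log_lt_iff_lt_exp hr).2 h2⟩

theorem bw_pol {s₂ θ r φ : ℝ} (hr : 0 < r) (hφ : φ ∈ Ioo (-Real.pi) Real.pi) :
    ENNReal.ofReal r * bw eV s₂ θ (pol r φ) = ENNReal.ofReal r⁻¹ *
      (Iio s₂).indicator (fun s => ENNReal.ofReal (eV s (tri (φ - θ)))) (Real.log r) := by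
  unfold bw
  rw [norm_pol' φ hr.le, arg_pol hr hφ]
  by_cases hc : Real.log r ∈ Iio s₂
  · rw [indicator_of_mem hc, if_pos ((Real.log_lt_iff_lt_exp hr).1 hc)]
    have h1 : ENNReal.ofReal r * ENNReal.ofReal (r ^ 2)⁻¹ = ENNReal.ofReal r⁻¹ := by
      rw [← ENNReal.ofReal_mul hr.le]
      congr 1
      field_simp
    rw [← h1]
    ring
  · rw [indicator_of_notMem hc, if_neg, mul_zero, mul_zero]
    · intro h2
      exact hc ((Real.log_lt_iff_lt_exp hr).2 h2)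

theorem ae_free (Ξ : Finset ℝ) : ∀ᵐ p : ℝ × ℝ ∂(volume.restrict
    (Ioi (0 : ℝ) ×ˢ Ioo (-Real.pi) Real.pi)), Free Ξ p.2 := by
  rw [Measure.volume_eq_prod, ← Measure.prod_restrict]
  have h1 : ∀ᵐ φ : ℝ ∂(volume.restrict (Ioo (-Real.pi) Real.pi)), Free Ξ φ :=
    ae_restrict_of_ae (null_free Ξ)
  exact Measure.quasiMeasurePreserving_snd.ae h1

theorem Dat.energy (harea : S_area) (h : Dat m P Θ G K U V eU eV T B Ξ) {ε R s₁ s₂ : ℝ}
    (hR : ∀ z : ℂ, ‖z‖ < R → ‖P.eval z‖ < Real.exp s₂)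
    (hε : ∀ z ∈ HH Θ G, ε < ‖z‖ → Real.exp s₁ < ‖P.eval z‖) :
    ∫⁻ z in {z : ℂ | ε < ‖z‖ ∧ ‖z‖ < R}, EE P Θ G K eU eV T z ≤
      2 * m * ((∫⁻ p in Ioo s₁ s₂ ×ˢ Ioo 0 (Real.pi / m), ENNReal.ofReal (eU p.1 p.2)) +
        (∫⁻ p in Iio s₂ ×ˢ Ioo 0 Real.pi, ENNReal.ofReal (eV p.1 p.2))) := by
  classical
  set S : Set ℂ := {z : ℂ | ε < ‖z‖ ∧ ‖z‖ < R} with hS
  have hSm : MeasurableSet S := (measurableSet_lt measurable_const measurable_norm).inter
      (measurableSet_lt measurable_norm measurable_const)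
  have e1 : ∫⁻ z in S, EE P Θ G K eU eV T z =
      ∫⁻ z : ℂ, ENNReal.ofReal (‖P.derivative.eval z‖ ^ 2) *
        S.indicator (Phi P Θ G K eU eV T) z := by
    rw [← lintegral_indicator hSm]
    apply lintegral_congr
    intro z
    by_cases hz : z ∈ S
    · rw [indicator_of_mem hz, indicator_of_mem hz]
      rfl
    · rw [indicator_of_notMem hz, indicator_of_notMem hz, mul_zero]
  have e2 := harea P h.hub.deg (S.indicator (Phi P Θ G K eU eV T)) (h.meas_Phi.indicator hSm)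
  obtain ⟨r₀, hr₀, hr₁, hcr₀, hcnt⟩ := h.lab.exn h.hub h.ΘΞ h.crΞ
  have hsum : ∑ θ ∈ Θ, cnt P (K θ) (pol r₀ 0) = m := by
    have h1 := h.lab.sum_card h.hub (w := pol r₀ 0)
      ((pol_mem_slitted_iff hr₀).2 (Or.inl hr₁)) hcr₀
    rw [h.deg] at h1
    omega
  have e3 : ∫⁻ w : ℂ, ∑ z ∈ (P - Polynomial.C w).roots.toFinset,
      S.indicator (Phi P Θ G K eU eV T) z =
      ∫⁻ p in Ioi (0 : ℝ) ×ˢ Ioo (-Real.pi) Real.pi,
        ENNReal.ofReal p.1 * ∑ z ∈ rts P (pol p.1 p.2), S.indicator (Phi P Θ G K eU eV T) z := by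
    rw [← Complex.lintegral_comp_polarCoord_symm, polarCoord_target]
    apply lintegral_congr
    intro p
    rw [symm_eq_pol, smul_eq_mul]
    rfl
  rw [e1, e2, e3]
  have e4 : ∫⁻ p in Ioi (0 : ℝ) ×ˢ Ioo (-Real.pi) Real.pi,
        ENNReal.ofReal p.1 * ∑ z ∈ rts P (pol p.1 p.2), S.indicator (Phi P Θ G K eU eV T) z ≤
      ∫⁻ p in Ioi (0 : ℝ) ×ˢ Ioo (-Real.pi) Real.pi,
        (ENNReal.ofReal (p.1)⁻¹ *
          (Ioo s₁ s₂).indicator (fun s => ENNReal.ofReal (eU s (T p.2))) (Real.log p.1) +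
        ∑ θ ∈ Θ, (cnt P (K θ) (pol r₀ 0) : ℝ≥0∞) * (ENNReal.ofReal (p.1)⁻¹ *
          (Iio s₂).indicator (fun s => ENNReal.ofReal (eV s (tri (p.2 - θ)))) (Real.log p.1))) := by
    apply lintegral_mono_ae
    filter_upwards [ae_free Ξ, ae_restrict_mem (measurableSet_Ioi.prod measurableSet_Ioo)]
      with p hp1 hp2
    obtain ⟨hr, hφ⟩ := hp2
    have hr' : 0 < p.1 := hr
    have hw : pol p.1 p.2 ∈ slitted Θ := (hp1.mono h.ΘΞ).mem hr'.le
    have h1 := h.sum_le hR hε hw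
    calc ENNReal.ofReal p.1 * ∑ z ∈ rts P (pol p.1 p.2), S.indicator (Phi P Θ G K eU eV T) z
        ≤ ENNReal.ofReal p.1 * (aw eU T s₁ s₂ (pol p.1 p.2) +
            ∑ θ ∈ Θ, cnt P (K θ) (pol p.1 p.2) * bw eV s₂ θ (pol p.1 p.2)) := by gcongr
      _ = _ := by
        rw [mul_add, aw_pol hr' hφ, Finset.mul_sum]
        congr 1
        apply Finset.sum_congr rfl
        intro θ hθ
        rw [← bw_pol hr' hφ, hcnt θ hθ p.1 p.2 hr' hp1]
        ring
  refine e4.trans (le_of_eq ?_)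
  have hm : Measurable (fun p : ℝ × ℝ => ENNReal.ofReal (eU p.1 p.2)) := h.mod.measU.ennreal_ofReal
  have hm2 : Measurable (fun p : ℝ × ℝ => ENNReal.ofReal (eU p.1 (T p.2))) :=
    hm.comp (measurable_fst.prodMk (h.zig.cont.measurable.comp measurable_snd))
  rw [lintegral_add_left, h.energyU]
  · have hmV : Measurable (fun p : ℝ × ℝ => ENNReal.ofReal (eV p.1 p.2)) :=
      h.mod.measV.ennreal_ofReal
    rw [lintegral_finsetSum']
    · have h3 : ∀ θ ∈ Θ, ∫⁻ p in Ioi (0 : ℝ) ×ˢ Ioo (-Real.pi) Real.pi,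
          (cnt P (K θ) (pol r₀ 0) : ℝ≥0∞) * (ENNReal.ofReal (p.1)⁻¹ *
            (Iio s₂).indicator (fun s => ENNReal.ofReal (eV s (tri (p.2 - θ)))) (Real.log p.1)) =
          (cnt P (K θ) (pol r₀ 0) : ℝ≥0∞) *
            (2 * ∫⁻ p in Iio s₂ ×ˢ Ioo 0 Real.pi, ENNReal.ofReal (eV p.1 p.2)) := by
        intro θ _
        rw [lintegral_const_mul' _ _ (by finiteness), h.energyV]
      rw [Finset.sum_congr rfl h3, ← Finset.sum_mul, ← Nat.cast_sum, hsum]
      ring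
    · intro θ _
      apply Measurable.aemeasurable
      apply Measurable.const_mul
      apply Measurable.mul
      · exact (measurable_fst.inv).ennreal_ofReal
      · have hm3 : Measurable (fun p : ℝ × ℝ => ENNReal.ofReal (eV p.1 (tri (p.2 - θ)))) :=
          hmV.comp (measurable_fst.prodMk ((tri_meas θ).comp measurable_snd))
        exact (meas_ind (H := fun s φ => ENNReal.ofReal (eV s (tri (φ - θ)))) hm3
          measurableSet_Iio).comp
          ((Real.measurable_log.comp measurable_fst).prodMk measurable_snd)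
  · apply Measurable.mul
    · exact (measurable_fst.inv).ennreal_ofReal
    · exact (meas_ind (H := fun s φ => ENNReal.ofReal (eU s (T φ))) hm2
          measurableSet_Ioo).comp
          ((Real.measurable_log.comp measurable_fst).prodMk measurable_snd)

end Pool.Agent.Y858.BU
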