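import Pool.Agent.Y858.BU.Main
import Pool.Agent.Y183.BU.Model
import Pool.Agent.Y281.BU.Zig
import Pool.Agent.Y288.BU.Ray
import Pool.Agent.Y288.BU.Log
import Pool.Agent.Y165.BU.Area
import Pool.Agent.Y165.BU.Ex
import Pool.Agent.Y149.BU.Hub

/-!
MP_e182ca_an, Q2: the maximum of `|a_n|` over the bi-univalent polynomials
`z + a_2 z^2 + ... + a_n z^n` is `(n - 1) ^ (n - 1) / n ^ n`.

Proof: the hub (the image of the plane slit along the radial rays over the critical values, under
the extended inverse) carries the test function `U (log |P|) (T (arg P))`, where `T` folds the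
circle onto `[0, π / (n - 1)]`; the rest of the plane carries `V (log |P|) (dist (arg P, θ))`; here
`U`, `V` come from `log |z|` for the extremal polynomial `z - a z ^ n`.  The Cauchy-Schwarz
inequality along the rays of a large annulus, and the area formula, give the bound.
-/

namespace Pool.Agent.Y858.BU.Final

open Pool.Agent.Y858.BU

/-- For every `n ≥ 2` the number `(n - 1) ^ (n - 1) / n ^ n` is the maximum of `|a_n|` over all
bi-univalent polynomials `z + a_2 z ^ 2 + ... + a_n z ^ n`. -/
theorem result (n : ℕ) (hn : 2 ≤ n) :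
    IsGreatest {x : ℝ | ∃ P : Polynomial ℂ, P.natDegree ≤ n ∧
      BiUnivalent (fun z : ℂ => P.eval z) ∧ x = ‖P.coeff n‖}
      (((n : ℝ) - 1) ^ (n - 1) / (n : ℝ) ^ n) :=
  main Pool.Agent.Y183.BU.t Pool.Agent.Y281.BU.t Pool.Agent.Y288.BU.Ray.t
    Pool.Agent.Y165.BU.Area.t Pool.Agent.Y288.BU.Log.t Pool.Agent.Y149.BU.hub
    Pool.Agent.Y165.BU.Ex.t n hn

end Pool.Agent.Y858.BU.Final
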