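import Pool.Agent.Y858.BU.Basic

set_option autoImplicit false

namespace Pool.Agent.Y858.BU

open Set Filter Topology MeasureTheory Metric
open scoped ENNReal

/-- the distance to `2 π ℤ` -/
noncomputable def tri (x : ℝ) : ℝ := Real.arccos (Real.cos x)

theorem tri_per (x : ℝ) (k : ℤ) : tri (x + 2 * Real.pi * k) = tri x := by
  unfold tri
  have : x + 2 * Real.pi * k = x + k * (2 * Real.pi) := by ring
  rw [this, Real.cos_add_int_mul_two_pi]

theorem tri_cont : Continuous tri := Real.continuous_arccos.comp Real.continuous_cos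

theorem tri_mem (x : ℝ) : tri x ∈ Icc 0 Real.pi := ⟨Real.arccos_nonneg _, Real.arccos_le_pi _⟩

theorem tri_zero : tri 0 = 0 := by simp [tri]

theorem tri_pos {x : ℝ} (h0 : 0 ≤ x) (h1 : x ≤ Real.pi) : tri x = x := Real.arccos_cos h0 h1

theorem tri_neg {x : ℝ} (h0 : x ≤ 0) (h1 : -Real.pi ≤ x) : tri x = -x := by
  unfold tri
  rw [← Real.cos_neg]
  exact Real.arccos_cos (by linarith) (by linarith)

/-- reduction modulo `2 π` -/
theorem exists_red (x : ℝ) : ∃ k : ℤ, ∃ y ∈ Ioc (-Real.pi) Real.pi, x = y + 2 * Real.pi * k := by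
  refine ⟨toIocDiv Real.two_pi_pos (-Real.pi) x, toIocMod Real.two_pi_pos (-Real.pi) x, ?_, ?_⟩
  · have := toIocMod_mem_Ioc Real.two_pi_pos (-Real.pi) x
    have h2 : -Real.pi + 2 * Real.pi = Real.pi := by ring
    rwa [h2] at this
  · have := toIocMod_add_toIocDiv_zsmul Real.two_pi_pos (-Real.pi) x
    rw [zsmul_eq_mul] at this
    linarith

theorem tri_aff {x : ℝ} (h0 : ∀ k : ℤ, x ≠ 2 * Real.pi * k) (h1 : ∀ k : ℤ, x ≠ Real.pi + 2 * Real.pi * k) :
    tri x ∈ Ioo 0 Real.pi ∧ ∃ c : ℝ, (c = 1 ∨ c = -1) ∧ ∀ᶠ y in 𝓝 x, tri y = tri x + c * (y - x) := by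
  obtain ⟨k, y, hy, hxy⟩ := exists_red x
  have hy0 : y ≠ 0 := fun h => h0 k (by rw [hxy, h, zero_add])
  have hyπ : y ≠ Real.pi := fun h => h1 k (by rw [hxy, h])
  have hyπ' : y < Real.pi := lt_of_le_of_ne hy.2 hyπ
  have hx : tri x = tri y := by rw [hxy, tri_per]
  rcases lt_or_gt_of_ne hy0 with hneg | hpos
  · have hty : tri y = -y := tri_neg hneg.le hy.1.le
    refine ⟨by rw [hx, hty]; exact ⟨by linarith, by linarith [hy.1]⟩, -1, Or.inr rfl, ?_⟩
    have h2 : ∀ᶠ u in 𝓝 x, u - 2 * Real.pi * k ∈ Ioo (-Real.pi) 0 := by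
      have : ContinuousAt (fun u : ℝ => u - 2 * Real.pi * k) x := by fun_prop
      apply this.eventually
      apply isOpen_Ioo.mem_nhds
      rw [hxy]
      constructor <;> linarith [hy.1]
    filter_upwards [h2] with u hu
    have h3 : tri u = tri (u - 2 * Real.pi * k) := by
      rw [← tri_per (u - 2 * Real.pi * k) k]
      congr 1
      ring
    rw [h3, tri_neg hu.2.le hu.1.le, hx, hty, hxy]
    ring
  · have hty : tri y = y := tri_pos hpos.le hyπ'.le
    refine ⟨by rw [hx, hty]; exact ⟨hpos, hyπ'⟩, 1, Or.inl rfl, ?_⟩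
    have h2 : ∀ᶠ u in 𝓝 x, u - 2 * Real.pi * k ∈ Ioo 0 Real.pi := by
      have : ContinuousAt (fun u : ℝ => u - 2 * Real.pi * k) x := by fun_prop
      apply this.eventually
      apply isOpen_Ioo.mem_nhds
      rw [hxy]
      constructor <;> linarith [hy.1]
    filter_upwards [h2] with u hu
    have h3 : tri u = tri (u - 2 * Real.pi * k) := by
      rw [← tri_per (u - 2 * Real.pi * k) k]
      congr 1
      ring
    rw [h3, tri_pos hu.1.le hu.2.le, hx, hty, hxy]
    ring

/-- lower integrals of periodic functions over two intervals of length one period -/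
theorem lint_per {F : ℝ → ℝ≥0∞} (hF : ∀ x, F (x + 2 * Real.pi) = F x) (a b : ℝ) :
    ∫⁻ x in Ioo a (a + 2 * Real.pi), F x = ∫⁻ x in Ioo b (b + 2 * Real.pi), F x := by
  rw [← setLIntegral_congr Ioo_ae_eq_Ioc.symm, ← setLIntegral_congr Ioo_ae_eq_Ioc.symm]
  have h1 := isAddFundamentalDomain_Ioc Real.two_pi_pos a
  have h2 := isAddFundamentalDomain_Ioc Real.two_pi_pos b
  apply h1.setLIntegral_eq h2
  rintro ⟨g, hg⟩ x
  obtain ⟨k, rfl⟩ := AddSubgroup.mem_zmultiples_iff.1 hg
  have hper : Function.Periodic F (2 * Real.pi) := hF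
  have := (hper.zsmul k) x
  change F (k • (2 * Real.pi) + x) = F x
  rw [add_comm]
  exact this

theorem tri_lint (F : ℝ → ℝ≥0∞) (θ : ℝ) :
    ∫⁻ x in Ioo (-Real.pi) Real.pi, F (tri (x - θ)) = 2 * ∫⁻ t in Ioo 0 Real.pi, F t := by
  have hpi := Real.pi_pos
  have e1 : ∫⁻ x in Ioo (-Real.pi) Real.pi, F (tri (x - θ)) =
      ∫⁻ x in Ioo (θ - Real.pi) (θ - Real.pi + 2 * Real.pi), F (tri (x - θ)) := by
    have h1 := lint_per (F := fun x => F (tri (x - θ))) (fun x => by
      have := tri_per (x - θ) 1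
      simp only [Int.cast_one, mul_one] at this
      rw [← this]
      congr 2
      ring) (-Real.pi) (θ - Real.pi)
    have h2 : -Real.pi + 2 * Real.pi = Real.pi := by ring
    rwa [h2] at h1
  rw [e1]
  have e2 : ∫⁻ x in Ioo (θ - Real.pi) (θ - Real.pi + 2 * Real.pi), F (tri (x - θ)) =
      ∫⁻ x in Ioo (-Real.pi) Real.pi, F (tri x) := by
    have h1 := (measurePreserving_sub_right volume θ).setLIntegral_comp_preimage_emb
      (MeasurableEquiv.subRight θ).measurableEmbedding (fun x => F (tri x)) (Ioo (-Real.pi) Real.pi)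
    rw [← h1]
    congr 2
    ext x
    simp only [mem_Ioo, mem_preimage]
    constructor
    · rintro ⟨h1, h2⟩; constructor <;> linarith
    · rintro ⟨h1, h2⟩; constructor <;> linarith
  rw [e2]
  have e3 : ∫⁻ x in Ioo (-Real.pi) Real.pi, F (tri x) =
      (∫⁻ x in Ioo (-Real.pi) 0, F (tri x)) + ∫⁻ x in Ioo 0 Real.pi, F (tri x) := by
    have h1 : Ioo (-Real.pi) Real.pi =ᵐ[volume] (Ioo (-Real.pi) 0 ∪ Ioo 0 Real.pi : Set ℝ) := by
      have h2 : (Ioo (-Real.pi) 0 ∪ Ioo 0 Real.pi : Set ℝ) = Ioo (-Real.pi) Real.pi \ {0} := by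
        ext x
        simp only [mem_union, mem_Ioo, Set.mem_sdiff, mem_singleton_iff]
        constructor
        · rintro (⟨h1, h2⟩ | ⟨h1, h2⟩)
          · exact ⟨⟨h1, by linarith⟩, h2.ne⟩
          · exact ⟨⟨by linarith, h2⟩, h1.ne'⟩
        · rintro ⟨⟨h1, h2⟩, h3⟩
          rcases lt_or_gt_of_ne h3 with h4 | h4
          · exact Or.inl ⟨h1, h4⟩
          · exact Or.inr ⟨h4, h2⟩
      rw [h2]
      exact (sdiff_null_ae_eq_self (by simp)).symm
    rw [setLIntegral_congr h1, lintegral_union measurableSet_Ioo]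
    rw [Set.disjoint_left]
    rintro x ⟨-, h3⟩ ⟨h4, -⟩
    linarith
  rw [e3]
  have e4 : ∫⁻ x in Ioo 0 Real.pi, F (tri x) = ∫⁻ t in Ioo 0 Real.pi, F t := by
    apply setLIntegral_congr_fun measurableSet_Ioo
    intro x hx
    simp only
    rw [tri_pos hx.1.le hx.2.le]
  have e5 : ∫⁻ x in Ioo (-Real.pi) 0, F (tri x) = ∫⁻ t in Ioo 0 Real.pi, F t := by
    have h0 : ∫⁻ x in Ioo (-Real.pi) 0, F (tri x) = ∫⁻ x in Ioo (-Real.pi) 0, F (-x) := by
      apply setLIntegral_congr_fun measurableSet_Ioo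
      intro x hx
      simp only
      rw [tri_neg hx.2.le hx.1.le]
    rw [h0]
    have h1 := (Measure.measurePreserving_neg (volume : Measure ℝ)).setLIntegral_comp_preimage_emb
      (MeasurableEquiv.neg ℝ).measurableEmbedding F (Ioo 0 Real.pi)
    rw [← h1]
    congr 2
    ext x
    simp only [mem_Ioo, mem_preimage]
    constructor
    · rintro ⟨h1, h2⟩; constructor <;> linarith
    · rintro ⟨h1, h2⟩; constructor <;> linarith
  rw [e4, e5, two_mul]

/-- the angle of `w` relative to `c = pol r θ` -/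
theorem arg_rep {r θ : ℝ} (hr : 0 < r) {w : ℂ} (hw : w ≠ 0) :
    ∃ k : ℤ, Complex.arg w = θ + Complex.arg (w / pol r θ) + 2 * Real.pi * k := by
  have h1 : pol ‖w‖ (Complex.arg w) = pol ‖w‖ (θ + Complex.arg (w / pol r θ)) := by
    rw [pol_arg]
    have h6 := Complex.norm_mul_exp_arg_mul_I (w / pol r θ)
    have hc : pol r θ ≠ 0 := pol_ne_zero hr
    have h7 : w = pol r θ * (w / pol r θ) := by field_simp
    rw [norm_div, norm_pol' θ hr.le] at h6
    conv_lhs => rw [h7, ← h6]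
    unfold pol
    push_cast
    rw [add_mul, Complex.exp_add]
    have hr' : (r : ℂ) ≠ 0 := by exact_mod_cast hr.ne'
    field_simp
  rw [pol_eq_iff (norm_pos_iff.2 hw) (norm_pos_iff.2 hw)] at h1
  obtain ⟨-, k, hk⟩ := h1
  exact ⟨k, hk⟩

/-- 2π-periodic functions of the argument -/
theorem per_arg {T : ℝ → ℝ} (hT : ∀ x, T (x + 2 * Real.pi) = T x) {r θ : ℝ} (hr : 0 < r) {w : ℂ}
    (hw : w ≠ 0) : T (Complex.arg w) = T (θ + Complex.arg (w / pol r θ)) := by
  obtain ⟨k, hk⟩ := arg_rep (θ := θ) hr hw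
  rw [hk]
  have hper : Function.Periodic T (2 * Real.pi) := hT
  have := (hper.zsmul k) (θ + Complex.arg (w / pol r θ))
  rw [zsmul_eq_mul] at this
  rw [← this]
  congr 1
  ring

theorem per_arg_pol {T : ℝ → ℝ} (hT : ∀ x, T (x + 2 * Real.pi) = T x) {r θ : ℝ} (hr : 0 < r) :
    T (Complex.arg (pol r θ)) = T θ := by
  rw [per_arg hT hr (θ := θ) (pol_ne_zero hr), div_self (pol_ne_zero hr), Complex.arg_one, add_zero]

theorem per_arg_cont {T : ℝ → ℝ} (hT : ∀ x, T (x + 2 * Real.pi) = T x) (hTc : Continuous T)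
    {c : ℂ} (hc : c ≠ 0) : ContinuousAt (fun w => T (Complex.arg w)) c := by
  have hcr : 0 < ‖c‖ := norm_pos_iff.2 hc
  have hcp : pol ‖c‖ (Complex.arg c) = c := pol_arg c
  have h1 : (fun w => T (Complex.arg w)) =ᶠ[𝓝 c]
      (fun w => T (Complex.arg c + Complex.arg (w / c))) := by
    filter_upwards [isOpen_ne.mem_nhds hc] with w hw
    have := per_arg hT (θ := Complex.arg c) hcr (w := w) hw
    rwa [hcp] at this
  apply ContinuousAt.congr _ h1.symm
  apply hTc.continuousAt.comp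
  apply continuousAt_const.add
  apply ContinuousAt.comp (g := Complex.arg)
  · rw [div_self hc]
    exact Complex.continuousAt_arg (Or.inl (by norm_num))
  · exact (continuous_id.div_const _).continuousAt

end Pool.Agent.Y858.BU
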