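import Pool.Agent.Y858.BU.Count
import Pool.Agent.Y858.BU.Fold

set_option autoImplicit false

namespace Pool.Agent.Y858.BU

open Set Filter Topology MeasureTheory Metric
open scoped ENNReal

/-- everything which is needed for the test function -/
structure Dat (m : ℕ) (P : Polynomial ℂ) (Θ : Finset ℝ) (G : ℂ → ℂ) (K : ℝ → Set ℂ)
    (U V eU eV : ℝ → ℝ → ℝ) (T : ℝ → ℝ) (B Ξ : Finset ℝ) : Prop where
  mpos : 1 ≤ m
  deg : P.natDegree = m + 1
  c1 : P.coeff 1 = 1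
  hub : Hub P Θ G
  lab : Lab P Θ G K
  mod : Model m U V eU eV
  zig : Zig m Θ T B
  hΘ : ∀ θ ∈ Θ, θ ∈ Ico 0 (2 * Real.pi)
  card : Θ.card = m
  ΘΞ : Θ ⊆ Ξ
  BΞ : B ⊆ Ξ
  crΞ : ∀ z, P.derivative.eval z = 0 → Complex.arg (P.eval z) ∈ Ξ
  anΞ : ∀ θ ∈ Θ, θ + Real.pi ∈ Ξ

/-- the folded angle outside the central sheet -/
noncomputable def tauO (P : Polynomial ℂ) (Θ : Finset ℝ) (K : ℝ → Set ℂ) (z : ℂ) : ℝ := by
  classical exact ∑ θ ∈ Θ, if z ∈ K θ then tri (Complex.arg (P.eval z) - θ) else 0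

/-- the test function -/
noncomputable def ff (P : Polynomial ℂ) (Θ : Finset ℝ) (G : ℂ → ℂ) (K : ℝ → Set ℂ)
    (U V : ℝ → ℝ → ℝ) (T : ℝ → ℝ) (z : ℂ) : ℝ := by
  classical exact
    (if z ∈ HH Θ G then U (Real.log ‖P.eval z‖) (T (Complex.arg (P.eval z)))
      else V (Real.log ‖P.eval z‖) (tauO P Θ K z))

/-- its energy density in the coordinate `log w` -/
noncomputable def eE (P : Polynomial ℂ) (Θ : Finset ℝ) (G : ℂ → ℂ) (K : ℝ → Set ℂ)
    (eU eV : ℝ → ℝ → ℝ) (T : ℝ → ℝ) (z : ℂ) : ℝ≥0∞ := by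
  classical exact
    (if z ∈ HH Θ G then
        ENNReal.ofReal (eU (Real.log ‖P.eval z‖) (T (Complex.arg (P.eval z))))
      else ∑ θ ∈ Θ, if z ∈ K θ then
        ENNReal.ofReal (eV (Real.log ‖P.eval z‖) (tri (Complex.arg (P.eval z) - θ))) else 0)

noncomputable def Phi (P : Polynomial ℂ) (Θ : Finset ℝ) (G : ℂ → ℂ) (K : ℝ → Set ℂ)
    (eU eV : ℝ → ℝ → ℝ) (T : ℝ → ℝ) (z : ℂ) : ℝ≥0∞ :=
  eE P Θ G K eU eV T z * ENNReal.ofReal ((‖P.eval z‖ ^ 2)⁻¹)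

noncomputable def EE (P : Polynomial ℂ) (Θ : Finset ℝ) (G : ℂ → ℂ) (K : ℝ → Set ℂ)
    (eU eV : ℝ → ℝ → ℝ) (T : ℝ → ℝ) (z : ℂ) : ℝ≥0∞ :=
  ENNReal.ofReal (‖P.derivative.eval z‖ ^ 2) * Phi P Θ G K eU eV T z

theorem comp_contAt {F : ℝ → ℝ → ℝ} {S : Set (ℝ × ℝ)}
    (hF : ContinuousOn (fun p : ℝ × ℝ => F p.1 p.2) S) {a b : ℂ → ℝ} {z₀ : ℂ}
    (ha : ContinuousAt a z₀) (hb : ContinuousAt b z₀) (hS : ∀ z, (a z, b z) ∈ S) :
    ContinuousAt (fun z => F (a z) (b z)) z₀ := by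
  have h1 : Tendsto (fun z => (a z, b z)) (𝓝 z₀) (𝓝[S] (a z₀, b z₀)) :=
    tendsto_nhdsWithin_iff.2 ⟨(ha.prodMk hb).tendsto, Eventually.of_forall hS⟩
  exact (hF (a z₀, b z₀) (hS z₀)).tendsto.comp h1

variable {m : ℕ} {P : Polynomial ℂ} {Θ : Finset ℝ} {G : ℂ → ℂ} {K : ℝ → Set ℂ}
    {U V eU eV : ℝ → ℝ → ℝ} {T : ℝ → ℝ} {B Ξ : Finset ℝ}

theorem Dat.tauO_mem (h : Dat m P Θ G K U V eU eV T B Ξ) {θ : ℝ} (hθ : θ ∈ Θ) {z : ℂ}
    (hz : z ∈ K θ) : tauO P Θ K z = tri (Complex.arg (P.eval z) - θ) := by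
  classical
  unfold tauO
  rw [Finset.sum_eq_single_of_mem θ hθ, if_pos hz]
  intro θ' hθ' hne
  rw [if_neg]
  intro hz'
  exact Set.disjoint_left.1 (h.lab.disj θ' hθ' θ hθ hne) hz' hz

theorem tauO_out {z : ℂ} (hz : ∀ θ ∈ Θ, z ∉ K θ) : tauO P Θ K z = 0 := by
  classical
  unfold tauO
  apply Finset.sum_eq_zero
  intro θ hθ
  rw [if_neg (hz θ hθ)]

theorem Dat.eE_mem (h : Dat m P Θ G K U V eU eV T B Ξ) {θ : ℝ} (hθ : θ ∈ Θ) {z : ℂ}
    (hz : z ∈ K θ) : eE P Θ G K eU eV T z =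
      ENNReal.ofReal (eV (Real.log ‖P.eval z‖) (tri (Complex.arg (P.eval z) - θ))) := by
  classical
  have hzH : z ∉ HH Θ G := fun hh => Set.disjoint_left.1 (h.lab.off θ hθ) hz (subset_closure hh)
  unfold eE
  rw [if_neg hzH, Finset.sum_eq_single_of_mem θ hθ, if_pos hz]
  intro θ' hθ' hne
  rw [if_neg]
  intro hz'
  exact Set.disjoint_left.1 (h.lab.disj θ' hθ' θ hθ hne) hz' hz

theorem eE_H {z : ℂ} (hz : z ∈ HH Θ G) : eE P Θ G K eU eV T z =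
      ENNReal.ofReal (eU (Real.log ‖P.eval z‖) (T (Complex.arg (P.eval z)))) := by
  classical
  unfold eE
  rw [if_pos hz]

theorem ff_H {z : ℂ} (hz : z ∈ HH Θ G) : ff P Θ G K U V T z =
      U (Real.log ‖P.eval z‖) (T (Complex.arg (P.eval z))) := by
  classical
  unfold ff
  rw [if_pos hz]

theorem ff_O {z : ℂ} (hz : z ∉ HH Θ G) : ff P Θ G K U V T z =
      V (Real.log ‖P.eval z‖) (tauO P Θ K z) := by
  classical
  unfold ff
  rw [if_neg hz]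

theorem Dat.ff_K (h : Dat m P Θ G K U V eU eV T B Ξ) {θ : ℝ} (hθ : θ ∈ Θ) {z : ℂ}
    (hz : z ∈ K θ) : ff P Θ G K U V T z =
      V (Real.log ‖P.eval z‖) (tri (Complex.arg (P.eval z) - θ)) := by
  have hzH : z ∉ HH Θ G := fun hh => Set.disjoint_left.1 (h.lab.off θ hθ) hz (subset_closure hh)
  rw [ff_O hzH, h.tauO_mem hθ hz]

theorem logP_cont {z₀ : ℂ} (h0 : P.eval z₀ ≠ 0) :
    ContinuousAt (fun z => Real.log ‖P.eval z‖) z₀ := by
  apply ContinuousAt.log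
  · exact P.continuous.norm.continuousAt
  · exact norm_ne_zero_iff.2 h0

theorem Dat.contU' (h : Dat m P Θ G K U V eU eV T B Ξ) {z₀ : ℂ} (h0 : P.eval z₀ ≠ 0) :
    ContinuousAt (fun z => U (Real.log ‖P.eval z‖) (T (Complex.arg (P.eval z)))) z₀ := by
  apply comp_contAt h.mod.contU (logP_cont h0)
  · exact ContinuousAt.comp (g := fun w => T (Complex.arg w)) (f := fun z => P.eval z)
      (per_arg_cont h.zig.per h.zig.cont h0) P.continuous.continuousAt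
  · intro z
    exact ⟨mem_univ _, h.zig.rng _⟩

theorem tri_shift_per (θ : ℝ) : ∀ x, (fun y => tri (y - θ)) (x + 2 * Real.pi) = (fun y => tri (y - θ)) x := by
  intro x
  have := tri_per (x - θ) 1
  simp only [Int.cast_one, mul_one] at this
  simp only
  rw [← this]
  congr 1
  ring

theorem Dat.contV' (h : Dat m P Θ G K U V eU eV T B Ξ) {z₀ : ℂ} (h0 : P.eval z₀ ≠ 0) (θ : ℝ) :
    ContinuousAt (fun z => V (Real.log ‖P.eval z‖) (tri (Complex.arg (P.eval z) - θ))) z₀ := by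
  apply comp_contAt h.mod.contV (logP_cont h0)
  · have h1 := per_arg_cont (T := fun y => tri (y - θ)) (tri_shift_per θ)
      (tri_cont.comp (by fun_prop)) h0
    exact ContinuousAt.comp (g := fun w => tri (Complex.arg w - θ)) (f := fun z => P.eval z)
      h1 P.continuous.continuousAt
  · intro z
    exact ⟨mem_univ _, tri_mem _⟩

theorem Dat.contV0 (h : Dat m P Θ G K U V eU eV T B Ξ) {z₀ : ℂ} (h0 : P.eval z₀ ≠ 0) :
    ContinuousAt (fun z => V (Real.log ‖P.eval z‖) 0) z₀ := by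
  apply comp_contAt h.mod.contV (b := fun _ => 0) (logP_cont h0) continuousAt_const
  intro z
  exact ⟨mem_univ _, ⟨le_rfl, Real.pi_pos.le⟩⟩

theorem Dat.cont (h : Dat m P Θ G K U V eU eV T B Ξ) {z₀ : ℂ} (h0 : P.eval z₀ ≠ 0) :
    ContinuousAt (ff P Θ G K U V T) z₀ := by
  by_cases hH : z₀ ∈ HH Θ G
  · apply (h.contU' h0).congr
    filter_upwards [h.hub.isOpen.mem_nhds hH] with z hz
    exact (ff_H hz).symm
  by_cases hK : ∃ θ ∈ Θ, z₀ ∈ K θ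
  · obtain ⟨θ, hθ, hz₀⟩ := hK
    apply (h.contV' h0 θ).congr
    filter_upwards [(h.lab.op θ hθ).mem_nhds hz₀] with z hz
    exact (h.ff_K hθ hz).symm
  push Not at hK
  have hcl : z₀ ∈ closure (HH Θ G) := by
    by_contra hc
    obtain ⟨θ, hθ, hz⟩ := h.lab.cover z₀ hc
    exact hK θ hθ hz
  obtain ⟨θ, hθ, r, hr, hPz⟩ := h.hub.closure_mem hcl hH
  have hr0 : 0 < r := by linarith
  have hval : ff P Θ G K U V T z₀ = V (Real.log r) 0 := by
    rw [ff_O hH, tauO_out hK, hPz, norm_pol' θ hr0.le]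
  have hvU : U (Real.log ‖P.eval z₀‖) (T (Complex.arg (P.eval z₀))) = V (Real.log r) 0 := by
    rw [hPz, norm_pol' θ hr0.le, per_arg_pol h.zig.per hr0, h.zig.zero θ hθ]
    exact h.mod.glue _ (Real.log_nonneg hr)
  have hvV : V (Real.log ‖P.eval z₀‖) (tri (Complex.arg (P.eval z₀) - θ)) = V (Real.log r) 0 := by
    have h1 := per_arg_pol (T := fun y => tri (y - θ)) (tri_shift_per θ) hr0 (θ := θ)
    simp only [sub_self, tri_zero] at h1
    rw [hPz, norm_pol' θ hr0.le, h1]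
  have hv0 : V (Real.log ‖P.eval z₀‖) 0 = V (Real.log r) 0 := by
    rw [hPz, norm_pol' θ hr0.le]
  rw [Metric.continuousAt_iff']
  intro ε hε
  have e1 := Metric.continuousAt_iff'.1 (h.contU' h0) ε hε
  have e2 := Metric.continuousAt_iff'.1 (h.contV' h0 θ) ε hε
  have e3 := Metric.continuousAt_iff'.1 (h.contV0 h0) ε hε
  have e4 : ∀ᶠ z in 𝓝 z₀, ∀ θ' ∈ Θ, θ' ≠ θ → z ∉ K θ' := by
    rw [Filter.eventually_all_finset]
    intro θ' hθ'
    by_cases hne : θ' = θ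
    · exact Eventually.of_forall fun z hh => absurd hne hh
    · have h5 := h.lab.bd z₀ hcl hH θ hθ r hr hPz θ' hθ' hne
      filter_upwards [isClosed_closure.isOpen_compl.mem_nhds h5] with z hz _ hzK
      exact hz (subset_closure hzK)
  filter_upwards [e1, e2, e3, e4] with z h1 h2 h3 h4
  rw [hval]
  rw [hvU] at h1
  rw [hvV] at h2
  rw [hv0] at h3
  by_cases hzH : z ∈ HH Θ G
  · rw [ff_H hzH]; exact h1
  by_cases hzK : z ∈ K θ
  · rw [h.ff_K hθ hzK]; exact h2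
  · have h6 : ∀ θ' ∈ Θ, z ∉ K θ' := by
      intro θ' hθ'
      by_cases hne : θ' = θ
      · rw [hne]; exact hzK
      · exact h4 θ' hθ' hne
    rw [ff_O hzH, tauO_out h6]
    exact h3

theorem chain {W : ℝ × ℝ → ℝ} {A B s₀ t₀ : ℝ}
    (hW : HasFDerivAt W (A • ContinuousLinearMap.fst ℝ ℝ ℝ + B • ContinuousLinearMap.snd ℝ ℝ ℝ)
      (s₀, t₀)) {F : ℝ → ℂ} {q : ℂ} {ρ₀ : ℝ} (hF : HasDerivAt F q ρ₀) (h0 : F ρ₀ = 0) (c₁ : ℝ) :
    HasDerivAt (fun ρ => W (s₀ + (F ρ).re, t₀ + c₁ * (F ρ).im)) (A * q.re + B * (c₁ * q.im)) ρ₀ := by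
  have hre : HasDerivAt (fun ρ => s₀ + (F ρ).re) q.re ρ₀ :=
    (Complex.reCLM.hasFDerivAt.comp_hasDerivAt ρ₀ hF).const_add s₀
  have him : HasDerivAt (fun ρ => t₀ + c₁ * (F ρ).im) (c₁ * q.im) ρ₀ :=
    ((Complex.imCLM.hasFDerivAt.comp_hasDerivAt ρ₀ hF).const_mul c₁).const_add t₀
  have hp : HasDerivAt (fun ρ => (s₀ + (F ρ).re, t₀ + c₁ * (F ρ).im)) (q.re, c₁ * q.im) ρ₀ :=
    hre.prodMk him
  have hW' : HasFDerivAt W (A • ContinuousLinearMap.fst ℝ ℝ ℝ + B • ContinuousLinearMap.snd ℝ ℝ ℝ)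
      ((fun ρ => (s₀ + (F ρ).re, t₀ + c₁ * (F ρ).im)) ρ₀) := by
    simp only [h0, Complex.zero_re, Complex.zero_im, add_zero, mul_zero]
    exact hW
  have := hW'.comp_hasDerivAt ρ₀ hp
  have e : (A • ContinuousLinearMap.fst ℝ ℝ ℝ + B • ContinuousLinearMap.snd ℝ ℝ ℝ)
      (q.re, c₁ * q.im) = A * q.re + B * (c₁ * q.im) := by simp
  rw [e] at this
  exact this

theorem chain_le {A B c₁ : ℝ} (hc : c₁ = 1 ∨ c₁ = -1) (q : ℂ) {e : ℝ} (he : A ^ 2 + B ^ 2 ≤ e) :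
    (A * q.re + B * (c₁ * q.im)) ^ 2 ≤ e * ‖q‖ ^ 2 := by
  have h1 : ‖q‖ ^ 2 = q.re ^ 2 + q.im ^ 2 := by
    rw [← Complex.normSq_eq_norm_sq, Complex.normSq_apply]; ring
  have hc2 : c₁ ^ 2 = 1 := by rcases hc with h | h <;> rw [h] <;> norm_num
  have h2 : (A * q.re + B * (c₁ * q.im)) ^ 2 ≤ (A ^ 2 + B ^ 2) * (q.re ^ 2 + q.im ^ 2) := by
    have h3 : (A ^ 2 + B ^ 2) * (q.re ^ 2 + q.im ^ 2) - (A * q.re + B * (c₁ * q.im)) ^ 2 =
        (A * (c₁ * q.im) - B * q.re) ^ 2 + (A ^ 2 + B ^ 2) * q.im ^ 2 * (1 - c₁ ^ 2) := by ring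
    rw [hc2] at h3
    nlinarith [sq_nonneg (A * (c₁ * q.im) - B * q.re)]
  rw [h1]
  apply h2.trans
  apply mul_le_mul_of_nonneg_right he
  positivity

theorem Dat.der (h : Dat m P Θ G K U V eU eV T B Ξ) {ρ₀ φ : ℝ} (hne : P.eval (pol ρ₀ φ) ≠ 0)
    (hfree : Free Ξ (Complex.arg (P.eval (pol ρ₀ φ)))) :
    ∃ d : ℝ, HasDerivAt (fun ρ : ℝ => ff P Θ G K U V T (pol ρ φ)) d ρ₀ ∧
      ENNReal.ofReal (d ^ 2) ≤ EE P Θ G K eU eV T (pol ρ₀ φ) := by
  set z₀ : ℂ := pol ρ₀ φ with hz₀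
  set c : ℂ := P.eval z₀ with hc
  set θ₀ : ℝ := Complex.arg c with hθ₀
  have hcr : 0 < ‖c‖ := norm_pos_iff.2 hne
  have hcp : pol ‖c‖ θ₀ = c := pol_arg c
  set F : ℝ → ℂ := fun ρ => Complex.log (P.eval (pol ρ φ) / c) with hF
  have hw : HasDerivAt (fun ρ : ℝ => P.eval (pol ρ φ))
      (Complex.exp (φ * Complex.I) • P.derivative.eval z₀) ρ₀ := by
    have h1 : HasDerivAt (fun z : ℂ => P.eval z) (P.derivative.eval z₀)
      ((fun ρ : ℝ => pol ρ φ) ρ₀) := P.hasDerivAt z₀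
    exact h1.scomp ρ₀ (hasDerivAt_pol φ ρ₀)
  have hwc : HasDerivAt (fun ρ : ℝ => P.eval (pol ρ φ) / c)
      (Complex.exp (φ * Complex.I) • P.derivative.eval z₀ / c) ρ₀ := hw.div_const c
  have hone : P.eval (pol ρ₀ φ) / c = 1 := div_self hne
  set q : ℂ := Complex.exp (φ * Complex.I) • P.derivative.eval z₀ / c with hq
  have hFd : HasDerivAt F q ρ₀ := by
    have h1 := hwc.clog_real (by rw [hone]; exact Complex.one_mem_slitPlane)
    rw [hone, div_one] at h1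
    exact h1
  have hF0 : F ρ₀ = 0 := by
    simp only [hF]
    rw [hone, Complex.log_one]
  have hqn : ‖q‖ ^ 2 = ‖P.derivative.eval z₀‖ ^ 2 * (‖c‖ ^ 2)⁻¹ := by
    rw [hq, smul_eq_mul, norm_div, norm_mul, Complex.norm_exp_ofReal_mul_I, one_mul, div_pow,
      div_eq_mul_inv]
  have hFc : ContinuousAt F ρ₀ := hFd.continuousAt
  have hwne : ∀ᶠ ρ in 𝓝 ρ₀, P.eval (pol ρ φ) ≠ 0 := hw.continuousAt.eventually_ne hne
  have hs : ∀ᶠ ρ in 𝓝 ρ₀, Real.log ‖P.eval (pol ρ φ)‖ = Real.log ‖c‖ + (F ρ).re := by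
    filter_upwards [hwne] with ρ hρ
    simp only [hF]
    rw [Complex.log_re, norm_div, Real.log_div (norm_ne_zero_iff.2 hρ) hcr.ne']
    ring
  have hT : ∀ {S : ℝ → ℝ}, (∀ x, S (x + 2 * Real.pi) = S x) → ∀ᶠ ρ in 𝓝 ρ₀,
      S (Complex.arg (P.eval (pol ρ φ))) = S (θ₀ + (F ρ).im) := by
    intro S hS
    filter_upwards [hwne] with ρ hρ
    have := per_arg hS (θ := θ₀) hcr (w := P.eval (pol ρ φ)) hρ
    rw [hcp] at this
    rw [this]
    simp only [hF]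
    rw [Complex.log_im]
  have hpath : ContinuousAt (fun ρ : ℝ => pol ρ φ) ρ₀ := (hasDerivAt_pol φ ρ₀).continuousAt
  have himc : Tendsto (fun ρ => θ₀ + (F ρ).im) (𝓝 ρ₀) (𝓝 θ₀) := by
    have h1 : ContinuousAt (fun ρ => θ₀ + (F ρ).im) ρ₀ :=
      continuousAt_const.add (Complex.continuous_im.continuousAt.comp hFc)
    have h2 := h1.tendsto
    simp only [hF0, Complex.zero_im, add_zero] at h2
    exact h2
  by_cases hH : z₀ ∈ HH Θ G
  · -- the central sheet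
    obtain ⟨hmem, c₁, hc₁, haff⟩ := h.zig.aff θ₀ (fun b hb k => hfree b (h.BΞ hb) k)
    obtain ⟨A, B', hA, hAB⟩ := h.mod.derU (Real.log ‖c‖) (T θ₀) hmem
    refine ⟨A * q.re + B' * (c₁ * q.im), ?_, ?_⟩
    · apply (chain hA hFd hF0 c₁).congr_of_eventuallyEq
      filter_upwards [hs, hT h.zig.per, himc.eventually haff,
        hpath.eventually (h.hub.isOpen.mem_nhds hH)] with ρ h1 h2 h3 h4
      rw [ff_H h4, h1, h2, h3]
      congr 1
      ring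
    · unfold EE Phi
      rw [eE_H hH]
      have h5 := chain_le (A := A) (B := B') hc₁ q hAB
      rw [hqn] at h5
      have he : 0 ≤ eU (Real.log ‖c‖) (T θ₀) := le_trans (by positivity) hAB
      calc ENNReal.ofReal ((A * q.re + B' * (c₁ * q.im)) ^ 2)
          ≤ ENNReal.ofReal (eU (Real.log ‖c‖) (T θ₀) *
              (‖P.derivative.eval z₀‖ ^ 2 * (‖c‖ ^ 2)⁻¹)) := ENNReal.ofReal_le_ofReal h5
        _ = _ := by
          rw [ENNReal.ofReal_mul he, ENNReal.ofReal_mul (by positivity)]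
          ring
  · by_cases hK : ∃ θ ∈ Θ, z₀ ∈ K θ
    · obtain ⟨θ, hθ, hzK⟩ := hK
      obtain ⟨hmem, c₁, hc₁, haff⟩ := tri_aff (x := θ₀ - θ)
        (fun k hk => hfree θ (h.ΘΞ hθ) k (by linarith))
        (fun k hk => hfree (θ + Real.pi) (h.anΞ θ hθ) k (by linarith))
      obtain ⟨A, B', hA, hAB⟩ := h.mod.derV (Real.log ‖c‖) (tri (θ₀ - θ)) hmem
      refine ⟨A * q.re + B' * (c₁ * q.im), ?_, ?_⟩
      · apply (chain hA hFd hF0 c₁).congr_of_eventuallyEq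
        have haff' : ∀ᶠ ρ in 𝓝 ρ₀, tri (θ₀ + (F ρ).im - θ) = tri (θ₀ - θ) + c₁ * (F ρ).im := by
          have h1 : Tendsto (fun ρ => θ₀ + (F ρ).im - θ) (𝓝 ρ₀) (𝓝 (θ₀ - θ)) := himc.sub_const θ
          filter_upwards [h1.eventually haff] with ρ hρ
          rw [hρ]
          ring
        filter_upwards [hs, hT (S := fun y => tri (y - θ)) (tri_shift_per θ), haff',
          hpath.eventually ((h.lab.op θ hθ).mem_nhds hzK)] with ρ h1 h2 h3 h4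
        rw [h.ff_K hθ h4, h1]
        have h2' : tri (Complex.arg (P.eval (pol ρ φ)) - θ) = tri (θ₀ + (F ρ).im - θ) := h2
        rw [h2', h3]
      · unfold EE Phi
        rw [h.eE_mem hθ hzK]
        have h5 := chain_le (A := A) (B := B') hc₁ q hAB
        rw [hqn] at h5
        have he : 0 ≤ eV (Real.log ‖c‖) (tri (θ₀ - θ)) := le_trans (by positivity) hAB
        calc ENNReal.ofReal ((A * q.re + B' * (c₁ * q.im)) ^ 2)
            ≤ ENNReal.ofReal (eV (Real.log ‖c‖) (tri (θ₀ - θ)) *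
                (‖P.derivative.eval z₀‖ ^ 2 * (‖c‖ ^ 2)⁻¹)) := ENNReal.ofReal_le_ofReal h5
          _ = _ := by
            rw [ENNReal.ofReal_mul he, ENNReal.ofReal_mul (by positivity)]
            ring
    · exfalso
      push Not at hK
      have hcl : z₀ ∈ closure (HH Θ G) := by
        by_contra hcc
        obtain ⟨θ, hθ, hz⟩ := h.lab.cover z₀ hcc
        exact hK θ hθ hz
      obtain ⟨θ, hθ, r, hr, hPz⟩ := h.hub.closure_mem hcl hH
      have h1 : pol ‖c‖ θ₀ = pol r θ := by rw [hcp]; exact hPz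
      rw [pol_eq_iff hcr (by linarith)] at h1
      obtain ⟨-, k, hk⟩ := h1
      exact hfree θ (h.ΘΞ hθ) k hk

end Pool.Agent.Y858.BU
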