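import Pool.Agent.Y858.BU.Side

set_option autoImplicit false

namespace Pool.Agent.Y858.BU

open Set Filter Topology MeasureTheory Metric
open scoped ENNReal

variable {P : Polynomial ℂ} {Θ : Finset ℝ} {G : ℂ → ℂ}

theorem exists_gap (hΘ : ∀ θ ∈ Θ, θ ∈ Ico 0 (2 * Real.pi)) : ∃ δ : ℝ, 0 < δ ∧ δ < Real.pi ∧
    ∀ θ ∈ Θ, ∀ θ' ∈ Θ, ∀ k : ℤ, |θ' + 2 * Real.pi * k - θ| ≤ δ → θ' = θ ∧ k = 0 := by
  classical
  have hpi := Real.pi_pos
  set D : Finset ℝ := insert Real.pi (((Θ ×ˢ Θ).filter (fun p => p.1 ≠ p.2)).image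
    (fun p => min |p.1 - p.2| (2 * Real.pi - |p.1 - p.2|))) with hD
  have hDne : D.Nonempty := ⟨_, Finset.mem_insert_self _ _⟩
  have hlt : ∀ θ ∈ Θ, ∀ θ' ∈ Θ, |θ - θ'| < 2 * Real.pi := by
    intro θ hθ θ' hθ'
    have h1 := hΘ θ hθ
    have h2 := hΘ θ' hθ'
    rw [abs_lt]
    constructor <;> linarith [h1.1, h1.2, h2.1, h2.2]
  have hpos : 0 < D.min' hDne := by
    rw [Finset.lt_min'_iff]
    intro x hx
    rw [hD, Finset.mem_insert] at hx
    rcases hx with rfl | hx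
    · exact hpi
    · rw [Finset.mem_image] at hx
      obtain ⟨p, hp, rfl⟩ := hx
      rw [Finset.mem_filter, Finset.mem_product] at hp
      apply lt_min
      · exact abs_pos.2 (sub_ne_zero.2 hp.2)
      · linarith [hlt p.1 hp.1.1 p.2 hp.1.2]
  have hle : D.min' hDne ≤ Real.pi := Finset.min'_le _ _ (Finset.mem_insert_self _ _)
  refine ⟨D.min' hDne / 2, by linarith, by linarith, ?_⟩
  intro θ hθ θ' hθ' k hk
  have hlt' := hlt θ' hθ' θ hθ
  rw [abs_lt] at hlt'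
  by_cases hne : θ' = θ
  · refine ⟨hne, ?_⟩
    rw [hne] at hk
    have h1 : |2 * Real.pi * (k : ℝ)| ≤ D.min' hDne / 2 := by
      have : θ + 2 * Real.pi * (k : ℝ) - θ = 2 * Real.pi * k := by ring
      rwa [this] at hk
    rw [abs_mul, abs_of_pos (by positivity : (0 : ℝ) < 2 * Real.pi)] at h1
    by_contra hk0
    have h2 : (1 : ℝ) ≤ |(k : ℝ)| := by
      have : (1 : ℤ) ≤ |k| := Int.one_le_abs hk0
      exact_mod_cast this
    nlinarith
  · exfalso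
    have hm : D.min' hDne ≤ min |θ' - θ| (2 * Real.pi - |θ' - θ|) := by
      apply Finset.min'_le
      rw [hD, Finset.mem_insert]
      right
      rw [Finset.mem_image]
      exact ⟨(θ', θ), by simp [hθ, hθ', hne], rfl⟩
    have hm1 := hm.trans (min_le_left _ _)
    have hm2 := hm.trans (min_le_right _ _)
    rw [abs_le] at hk
    -- `|θ' - θ + 2 π k| ≥ min`
    rcases lt_trichotomy k 0 with hk0 | hk0 | hk0
    · have h3 : (k : ℝ) ≤ -1 := by exact_mod_cast (by omega : k ≤ -1)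
      have h4 : 2 * Real.pi * (k : ℝ) ≤ -(2 * Real.pi) := by nlinarith
      have h5 := le_abs_self (θ' - θ)
      linarith
    · rw [hk0] at hk
      simp only [Int.cast_zero, mul_zero, add_zero] at hk
      have h5 : |θ' - θ| ≤ D.min' hDne / 2 := abs_le.2 hk
      linarith
    · have h3 : (1 : ℝ) ≤ k := by exact_mod_cast (by omega : 1 ≤ k)
      have h4 : 2 * Real.pi ≤ 2 * Real.pi * (k : ℝ) := by nlinarith
      have h5 := neg_abs_le (θ' - θ)
      linarith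

/-- the angle of `w` seen from the direction of `c` -/
theorem ang_near {r θ : ℝ} (hr : 0 < r) {δ : ℝ} (hδ : 0 < δ) :
    ∀ᶠ w in 𝓝 (pol r θ), 0 < ‖w‖ ∧ ∃ φ : ℝ, |φ - θ| < δ ∧ w = pol ‖w‖ φ := by
  have hc : pol r θ ≠ 0 := pol_ne_zero hr
  have h1 : Tendsto (fun w : ℂ => Complex.arg (w / pol r θ)) (𝓝 (pol r θ)) (𝓝 0) := by
    have h2 : ContinuousAt (fun w : ℂ => Complex.arg (w / pol r θ)) (pol r θ) := by
      apply ContinuousAt.comp (g := Complex.arg)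
      · rw [div_self hc]
        exact Complex.continuousAt_arg (Or.inl (by norm_num))
      · exact (continuous_id.div_const _).continuousAt
    have h3 : Complex.arg (pol r θ / pol r θ) = 0 := by rw [div_self hc, Complex.arg_one]
    have h4 := h2.tendsto
    rwa [h3] at h4
  have h5 : ∀ᶠ w in 𝓝 (pol r θ), |Complex.arg (w / pol r θ)| < δ := by
    have := h1.eventually (Metric.ball_mem_nhds (0 : ℝ) hδ)
    filter_upwards [this] with w hw
    rw [Real.dist_eq, sub_zero] at hw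
    exact hw
  filter_upwards [h5, isOpen_ne.mem_nhds hc] with w hw hw0
  refine ⟨norm_pos_iff.2 hw0, θ + Complex.arg (w / pol r θ), by simpa using hw, ?_⟩
  have h6 := Complex.norm_mul_exp_arg_mul_I (w / pol r θ)
  have h7 : w = pol r θ * (w / pol r θ) := by field_simp
  rw [norm_div, norm_pol' θ hr.le] at h6
  conv_lhs => rw [h7, ← h6]
  unfold pol
  push_cast
  rw [add_mul, Complex.exp_add]
  have hr' : (r : ℂ) ≠ 0 := by exact_mod_cast hr.ne'
  field_simp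

/-- the partition of the complement of the closed central sheet by the slits -/
theorem Hub.labels (hlog : S_log) (h : Hub P Θ G) (hΘ : ∀ θ ∈ Θ, θ ∈ Ico 0 (2 * Real.pi)) :
    ∃ K : ℝ → Set ℂ, (∀ θ ∈ Θ, IsOpen (K θ)) ∧ (∀ θ ∈ Θ, Disjoint (K θ) (closure (HH Θ G))) ∧
      (∀ z, z ∉ closure (HH Θ G) → ∃ θ ∈ Θ, z ∈ K θ) ∧
      (∀ θ ∈ Θ, ∀ θ' ∈ Θ, θ ≠ θ' → Disjoint (K θ) (K θ')) ∧
      (∀ z ∈ closure (HH Θ G), z ∉ HH Θ G → ∀ θ ∈ Θ, ∀ r : ℝ, 1 ≤ r → P.eval z = pol r θ →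
        ∀ θ' ∈ Θ, θ' ≠ θ → z ∉ closure (K θ')) := by
  classical
  have hpi := Real.pi_pos
  obtain ⟨δ, hδ0, hδπ, hδ⟩ := exists_gap hΘ
  have hfree1 : ∀ θ ∈ Θ, Free Θ (θ - δ) := by
    intro θ hθ θ' hθ' k hk
    obtain ⟨h1, h2⟩ := hδ θ hθ θ' hθ' k (by rw [← hk, abs_le]; constructor <;> linarith)
    rw [h1, h2] at hk
    simp at hk
    linarith
  have hfree2 : ∀ θ ∈ Θ, Free Θ (θ + δ) := by
    intro θ hθ θ' hθ' k hk
    obtain ⟨h1, h2⟩ := hδ θ hθ θ' hθ' k (by rw [← hk, abs_le]; constructor <;> linarith)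
    rw [h1, h2] at hk
    simp at hk
    linarith
  have hside : ∀ θ : ℝ, ∃ A B : Set ℂ, θ ∈ Θ → IsOpen A ∧ IsOpen B ∧ Disjoint A B ∧
      A ∪ B = (Ray G (θ - δ) ∪ Ray G (θ + δ))ᶜ ∧
      (∀ r φ : ℝ, 0 < r → pol r φ ∈ slitted Θ → θ - δ < φ → φ < θ + δ → G (pol r φ) ∈ A) ∧
      (∀ r φ : ℝ, 0 < r → pol r φ ∈ slitted Θ → θ + δ < φ → φ < θ - δ + 2 * Real.pi →
        G (pol r φ) ∈ B) := by
    intro θ
    by_cases hθ : θ ∈ Θ
    · obtain ⟨A, B, hAB⟩ := h.side hlog (hfree1 θ hθ) (hfree2 θ hθ) (by linarith) (by linarith)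
      exact ⟨A, B, fun _ => hAB⟩
    · exact ⟨∅, ∅, fun hh => absurd hh hθ⟩
  choose A B hAB using hside
  set H : Set ℂ := HH Θ G with hH
  -- boundary points of the central sheet
  have hnear : ∀ z ∈ closure H, ∀ θ ∈ Θ, ∀ r : ℝ, 1 ≤ r → P.eval z = pol r θ →
      ∀ δ' : ℝ, 0 < δ' → ∀ W : Set ℂ, IsOpen W → z ∈ W → ∃ x ∈ W, ∃ r' φ : ℝ, 0 < r' ∧
        |φ - θ| < δ' ∧ pol r' φ ∈ slitted Θ ∧ x = G (pol r' φ) := by
    intro z hz θ hθ r hr hzr δ' hδ' W hW hzW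
    have h1 : ∀ᶠ x in 𝓝 z, 0 < ‖P.eval x‖ ∧ ∃ φ : ℝ, |φ - θ| < δ' ∧ P.eval x = pol ‖P.eval x‖ φ := by
      have h2 := ang_near (r := r) (θ := θ) (by linarith) hδ'
      rw [← hzr] at h2
      exact P.continuous.continuousAt.eventually h2
    have h3 : ∀ᶠ x in 𝓝 z, x ∈ W := hW.mem_nhds hzW
    obtain ⟨x, hx, hxH⟩ := (mem_closure_iff_nhds.1 hz) _ (Filter.inter_mem h1 h3)
    obtain ⟨⟨hx0, φ, hφ, hxφ⟩, hxW⟩ := hx
    refine ⟨x, hxW, ‖P.eval x‖, φ, hx0, hφ, ?_, ?_⟩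
    · rw [← hxφ]; exact h.memS hxH
    · rw [← hxφ, h.eqG hxH]
  have hnotray : ∀ z, z ∉ H → ∀ θ ∈ Θ, z ∈ A θ ∪ B θ := by
    intro z hz θ hθ
    rw [(hAB θ hθ).2.2.2.1]
    rintro (hr | hr)
    · exact hz (h.ray_sub (hfree1 θ hθ) hr)
    · exact hz (h.ray_sub (hfree2 θ hθ) hr)
  have hbdA : ∀ z ∈ closure H, z ∉ H → ∀ θ ∈ Θ, ∀ r : ℝ, 1 ≤ r → P.eval z = pol r θ →
      z ∈ A θ := by
    intro z hz hz' θ hθ r hr hzr
    rcases hnotray z hz' θ hθ with hA | hB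
    · exact hA
    · exfalso
      obtain ⟨x, hxB, r', φ, hr', hφ, hm, hx⟩ := hnear z hz θ hθ r hr hzr δ hδ0 (B θ)
        (hAB θ hθ).2.1 hB
      rw [abs_lt] at hφ
      have hxA := (hAB θ hθ).2.2.2.2.1 r' φ hr' hm (by linarith) (by linarith)
      rw [← hx] at hxA
      exact Set.disjoint_left.1 (hAB θ hθ).2.2.1 hxA hxB
  have hbdB : ∀ z ∈ closure H, z ∉ H → ∀ θ ∈ Θ, ∀ r : ℝ, 1 ≤ r → P.eval z = pol r θ →
      ∀ θ' ∈ Θ, θ' ≠ θ → z ∈ B θ' := by
    intro z hz hz' θ hθ r hr hzr θ' hθ' hne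
    rcases hnotray z hz' θ' hθ' with hA | hB
    swap
    · exact hB
    exfalso
    -- an integer `k` with `θ + 2 π k` in the far sector
    have h1 := hΘ θ hθ
    have h2 := hΘ θ' hθ'
    have hk : ∃ k : ℤ, θ' + δ < θ + 2 * Real.pi * k ∧ θ + 2 * Real.pi * k < θ' - δ + 2 * Real.pi := by
      rcases lt_or_gt_of_ne hne with hlt | hlt
      · refine ⟨0, ?_, ?_⟩
        · by_contra hc
          have := hδ θ' hθ' θ hθ 0 (by rw [abs_le]; constructor <;> push_cast at hc ⊢ <;> linarith)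
          exact hne this.1.symm
        · by_contra hc
          have := hδ θ' hθ' θ hθ (-1) (by
            rw [abs_le]; constructor <;> push_cast at hc ⊢ <;> linarith [h1.1, h1.2, h2.1, h2.2])
          omega
      · refine ⟨1, ?_, ?_⟩
        · by_contra hc
          have := hδ θ' hθ' θ hθ 1 (by
            rw [abs_le]; constructor <;> push_cast at hc ⊢ <;> linarith [h1.1, h1.2, h2.1, h2.2])
          omega
        · by_contra hc
          have := hδ θ' hθ' θ hθ 0 (by rw [abs_le]; constructor <;> push_cast at hc ⊢ <;> linarith)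
          exact hne this.1.symm
    obtain ⟨k, hk1, hk2⟩ := hk
    set δ' : ℝ := min (θ + 2 * Real.pi * k - (θ' + δ)) (θ' - δ + 2 * Real.pi - (θ + 2 * Real.pi * k))
      with hδ'
    have hδ'0 : 0 < δ' := lt_min (by linarith) (by linarith)
    have hd1 : δ' ≤ θ + 2 * Real.pi * k - (θ' + δ) := min_le_left _ _
    have hd2 : δ' ≤ θ' - δ + 2 * Real.pi - (θ + 2 * Real.pi * k) := min_le_right _ _
    obtain ⟨x, hxA, r', φ, hr', hφ, hm, hx⟩ := hnear z hz θ hθ r hr hzr δ' hδ'0 (A θ')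
      (hAB θ' hθ').1 hA
    rw [abs_lt] at hφ
    have hxB := (hAB θ' hθ').2.2.2.2.2 r' (φ + 2 * Real.pi * k) hr' (by rw [pol_per]; exact hm)
      (by linarith) (by linarith)
    rw [pol_per, ← hx] at hxB
    exact Set.disjoint_left.1 (hAB θ' hθ').2.2.1 hxA hxB
  -- the components of the complement
  have hcomp : ∀ z, z ∉ closure H → ∃ θ ∈ Θ, z ∈ A θ ∧ ∀ θ' ∈ Θ, θ' ≠ θ → z ∈ B θ' := by
    intro z hz
    set O : Set ℂ := (closure H)ᶜ with hO
    have hOo : IsOpen O := isClosed_closure.isOpen_compl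
    have hzO : z ∈ O := hz
    set C : Set ℂ := connectedComponentIn O z with hC
    have hCo : IsOpen C := hOo.connectedComponentIn
    have hCc : IsPreconnected C := isPreconnected_connectedComponentIn
    have hCO : C ⊆ O := connectedComponentIn_subset O z
    have hzC : z ∈ C := mem_connectedComponentIn hzO
    have h0C : (0 : ℂ) ∉ C := fun h0 => hCO h0 (subset_closure h.zero_mem)
    have hfr : (frontier C).Nonempty := by
      rw [nonempty_frontier_iff]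
      exact ⟨⟨z, hzC⟩, fun hu => h0C (hu ▸ mem_univ _)⟩
    obtain ⟨z₀, hz₀⟩ := hfr
    have hz₀cl : z₀ ∈ closure C := frontier_subset_closure hz₀
    have hz₀C : z₀ ∉ C := by
      rw [hCo.frontier_eq] at hz₀
      exact hz₀.2
    have hz₀O : z₀ ∉ O := by
      intro hmem
      apply hz₀C
      have h1 : IsOpen (connectedComponentIn O z₀) := hOo.connectedComponentIn
      obtain ⟨x, hx1, hx2⟩ := (_root_.mem_closure_iff.1 hz₀cl) _ h1 (mem_connectedComponentIn hmem)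
      have h2 : connectedComponentIn O z₀ = connectedComponentIn O x := connectedComponentIn_eq hx1
      have h3 : connectedComponentIn O z = connectedComponentIn O x := connectedComponentIn_eq hx2
      rw [hC, h3, ← h2]
      exact mem_connectedComponentIn hmem
    have hz₀H : z₀ ∈ closure H := not_not.1 hz₀O
    have hz₀H' : z₀ ∉ H := by
      intro hmem
      obtain ⟨x, hx1, hx2⟩ := (_root_.mem_closure_iff.1 hz₀cl) _ h.isOpen hmem
      exact hCO hx2 (subset_closure hx1)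
    obtain ⟨θ, hθ, r, hr, hzr⟩ := h.closure_mem hz₀H hz₀H'
    have hCH : ∀ x ∈ C, x ∉ H := fun x hx hxH => hCO hx (subset_closure hxH)
    refine ⟨θ, hθ, ?_, ?_⟩
    · have h1 := hbdA z₀ hz₀H hz₀H' θ hθ r hr hzr
      obtain ⟨x, hx1, hx2⟩ := (_root_.mem_closure_iff.1 hz₀cl) _ (hAB θ hθ).1 h1
      have h2 : C ⊆ A θ := hCc.subset_left_of_subset_union (hAB θ hθ).1 (hAB θ hθ).2.1
        (hAB θ hθ).2.2.1 (fun y hy => hnotray y (hCH y hy) θ hθ) ⟨x, hx2, hx1⟩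
      exact h2 hzC
    · intro θ' hθ' hne
      have h1 := hbdB z₀ hz₀H hz₀H' θ hθ r hr hzr θ' hθ' hne
      obtain ⟨x, hx1, hx2⟩ := (_root_.mem_closure_iff.1 hz₀cl) _ (hAB θ' hθ').2.1 h1
      have h2 : C ⊆ B θ' := hCc.subset_right_of_subset_union (hAB θ' hθ').1 (hAB θ' hθ').2.1
        (hAB θ' hθ').2.2.1 (fun y hy => hnotray y (hCH y hy) θ' hθ') ⟨x, hx2, hx1⟩
      exact h2 hzC
  refine ⟨fun θ => (closure H)ᶜ ∩ A θ, ?_, ?_, ?_, ?_, ?_⟩
  · intro θ hθ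
    exact isClosed_closure.isOpen_compl.inter (hAB θ hθ).1
  · intro θ hθ
    rw [Set.disjoint_left]
    rintro z ⟨hz1, -⟩ hz2
    exact hz1 hz2
  · intro z hz
    obtain ⟨θ, hθ, hzA, -⟩ := hcomp z hz
    exact ⟨θ, hθ, hz, hzA⟩
  · intro θ₁ hθ₁ θ₂ hθ₂ hne
    rw [Set.disjoint_left]
    rintro z ⟨hz1, hz2⟩ ⟨-, hz3⟩
    obtain ⟨θ, hθ, -, hB⟩ := hcomp z hz1
    by_cases h1 : θ₁ = θ
    · have h2 : θ₂ ≠ θ := by rw [← h1]; exact hne.symm
      exact Set.disjoint_left.1 (hAB θ₂ hθ₂).2.2.1 hz3 (hB θ₂ hθ₂ h2)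
    · exact Set.disjoint_left.1 (hAB θ₁ hθ₁).2.2.1 hz2 (hB θ₁ hθ₁ h1)
  · intro z hz hz' θ hθ r hr hzr θ' hθ' hne hcl
    have h1 := hbdB z hz hz' θ hθ r hr hzr θ' hθ' hne
    obtain ⟨x, hx1, hx2⟩ := (_root_.mem_closure_iff.1 hcl) _ (hAB θ' hθ').2.1 h1
    exact Set.disjoint_left.1 (hAB θ' hθ').2.2.1 hx2.2 hx1

end Pool.Agent.Y858.BU
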