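import Pool.Agent.Y858.BU.Asy

set_option autoImplicit false

namespace Pool.Agent.Y858.BU

open Set Filter Topology MeasureTheory Metric
open scoped ENNReal

theorem inv_ball {P : Polynomial ℂ} {g : ℂ → ℂ} (h0 : P.eval 0 = 0)
    (hd : P.derivative.eval 0 = 1) (hg : ∀ᶠ z in 𝓝 (0 : ℂ), g (P.eval z) = z)
    (hgd : DifferentiableOn ℂ g (ball 0 1)) : ∀ w ∈ ball (0 : ℂ) 1, P.eval (g w) = w := by
  have h1 : AnalyticOnNhd ℂ (fun w => P.eval (g w)) (ball 0 1) := by
    apply DifferentiableOn.analyticOnNhd _ isOpen_ball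
    exact P.differentiable.comp_differentiableOn hgd
  have h2 : AnalyticOnNhd ℂ (fun w : ℂ => w) (ball 0 1) :=
    differentiableOn_id.analyticOnNhd isOpen_ball
  have hs : HasStrictDerivAt (fun z => P.eval z) 1 0 := by
    have := P.hasStrictDerivAt 0
    rwa [hd] at this
  have h3 : map (fun z => P.eval z) (𝓝 0) = 𝓝 0 := by
    have := hs.map_nhds_eq one_ne_zero
    rwa [h0] at this
  have h4 : (fun w => P.eval (g w)) =ᶠ[𝓝 0] fun w => w := by
    have h5 : ∀ᶠ w in map (fun z => P.eval z) (𝓝 0), P.eval (g w) = w := by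
      rw [eventually_map]
      filter_upwards [hg] with z hz
      rw [hz]
    rwa [h3] at h5
  exact h1.eqOn_of_preconnected_of_eventuallyEq h2 (convex_ball 0 1).isPreconnected
    (by simp) h4

theorem bound (hmodel : S_model) (hzig : S_zig) (hray : S_ray) (harea : S_area) (hlog : S_log)
    (hhub : S_hub) {m : ℕ} (hm : 1 ≤ m) {P : Polynomial ℂ} (hdeg : P.natDegree = m + 1)
    (hb : BiUnivalent (fun z => P.eval z)) : ‖P.coeff (m + 1)‖ ≤ ast m := by
  classical
  have hpi := Real.pi_pos
  have h0 : P.eval 0 = 0 := hb.f0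
  have hd : P.derivative.eval 0 = 1 := (P.hasDerivAt 0).unique hb.df0
  have hc1 : P.coeff 1 = 1 := by
    rw [← Polynomial.coeff_zero_eq_eval_zero, Polynomial.coeff_derivative] at hd
    simpa using hd
  obtain ⟨g, hg0, hg, hgd, -⟩ := hb.inv
  have hinv := inv_ball h0 hd hg hgd
  have hP1 : 1 ≤ P.natDegree := by omega
  -- the critical directions
  set α : ℂ → ℝ := fun z => if 0 ≤ Complex.arg (P.eval z) then Complex.arg (P.eval z)
    else Complex.arg (P.eval z) + 2 * Real.pi with hα
  have hαI : ∀ z, α z ∈ Ico 0 (2 * Real.pi) := by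
    intro z
    have h1 := Complex.neg_pi_lt_arg (P.eval z)
    have h2 := Complex.arg_le_pi (P.eval z)
    simp only [hα]
    split_ifs with h
    · exact ⟨h, by linarith⟩
    · push Not at h
      exact ⟨by linarith, by linarith⟩
  have hαp : ∀ z, pol ‖P.eval z‖ (α z) = P.eval z := by
    intro z
    simp only [hα]
    split_ifs with h
    · exact pol_arg _
    · have := pol_per ‖P.eval z‖ (Complex.arg (P.eval z)) 1
      simp only [Int.cast_one, mul_one] at this
      rw [this, pol_arg]
  set cr : Finset ℂ := P.derivative.roots.toFinset with hcr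
  have hmem : ∀ z, P.derivative.eval z = 0 → z ∈ cr := by
    intro z hz
    rw [hcr, Multiset.mem_toFinset, Polynomial.mem_roots (derivative_ne hP1)]
    exact hz
  set D : Finset ℝ := cr.image α with hD
  have hDc : D.card ≤ m := by
    calc D.card ≤ cr.card := Finset.card_image_le
      _ ≤ P.derivative.roots.card := Multiset.toFinset_card_le _
      _ ≤ P.derivative.natDegree := Polynomial.card_roots' _
      _ ≤ P.natDegree - 1 := Polynomial.natDegree_derivative_le _
      _ = m := by omega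
  have hDI : (D : Set ℝ) ⊆ Ico 0 (2 * Real.pi) := by
    intro x hx
    rw [Finset.mem_coe, hD, Finset.mem_image] at hx
    obtain ⟨z, -, rfl⟩ := hx
    exact hαI z
  have hDc' : (D : Set ℝ).ncard ≤ m := by rw [Set.ncard_coe_finset]; exact hDc
  obtain ⟨Θ', hDΘ', hΘI', hΘc'⟩ := Set.Infinite.exists_superset_ncard_eq
    (Ico_infinite (by linarith : (0 : ℝ) < 2 * Real.pi)) hDI D.finite_toSet hDc'
  have hfin : Θ'.Finite := Set.finite_of_ncard_pos (by omega)
  obtain ⟨Θ, rfl⟩ := hfin.exists_finset_coe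
  rw [Set.ncard_coe_finset] at hΘc'
  have hΘ : ∀ θ ∈ Θ, θ ∈ Ico 0 (2 * Real.pi) := fun θ hθ => hΘI' (Finset.mem_coe.2 hθ)
  obtain ⟨T, B, hT⟩ := hzig m Θ hm hΘc' hΘ
  obtain ⟨U, V, eU, eV, hM⟩ := hmodel m hm
  obtain ⟨G, hGd, hGi, hGg⟩ := hhub P g Θ hP1 hgd hinv (by
    intro z hz hz1
    refine ⟨α z, ?_, ‖P.eval z‖, hz1, (hαp z).symm⟩
    apply Finset.mem_coe.1
    apply hDΘ'
    rw [Finset.mem_coe, hD]
    exact Finset.mem_image_of_mem _ (hmem z hz))
  have hH : Hub P Θ G := ⟨hP1, hGd, hGi, by rw [hGg 0 (by simp), hg0]⟩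
  obtain ⟨K, hK⟩ := hH.exLab hlog hΘ
  set Ξ : Finset ℝ := Θ ∪ B ∪ cr.image (fun z => Complex.arg (P.eval z)) ∪
    Θ.image (fun θ => θ + Real.pi) with hΞ
  have hdat : Dat m P Θ G K U V eU eV T B Ξ :=
    { mpos := hm
      deg := hdeg
      c1 := hc1
      hub := hH
      lab := hK
      mod := hM
      zig := hT
      hΘ := hΘ
      card := hΘc'
      ΘΞ := by
        intro x hx
        simp only [hΞ, Finset.mem_union]
        exact Or.inl (Or.inl (Or.inl hx))
      BΞ := by
        intro x hx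
        simp only [hΞ, Finset.mem_union]
        exact Or.inl (Or.inl (Or.inr hx))
      crΞ := by
        intro z hz
        simp only [hΞ, Finset.mem_union]
        exact Or.inl (Or.inr (Finset.mem_image_of_mem _ (hmem z hz)))
      anΞ := by
        intro θ hθ
        simp only [hΞ, Finset.mem_union]
        exact Or.inr (Finset.mem_image_of_mem (fun θ => θ + Real.pi) hθ) }
  have hfinal := hdat.bound hray harea
  have ha0 : 0 < ‖P.coeff (m + 1)‖ := by
    rw [norm_pos_iff, ← hdeg]
    exact Polynomial.leadingCoeff_ne_zero.2 (by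
      intro h0
      rw [h0] at hdeg
      simp at hdeg)
  have hast : 0 < ast m := by
    unfold ast
    have : (0 : ℝ) < m := by exact_mod_cast hm
    positivity
  exact (Real.log_le_log_iff ha0 hast).1 hfinal

/-- the final statement -/
theorem main (hmodel : S_model) (hzig : S_zig) (hray : S_ray) (harea : S_area) (hlog : S_log)
    (hhub : S_hub) (hex : S_ex) (n : ℕ) (hn : 2 ≤ n) :
    IsGreatest {x : ℝ | ∃ P : Polynomial ℂ, P.natDegree ≤ n ∧ BiUnivalent (fun z => P.eval z) ∧
      x = ‖P.coeff n‖} (((n : ℝ) - 1) ^ (n - 1) / (n : ℝ) ^ n) := by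
  obtain ⟨m, rfl⟩ : ∃ m, n = m + 1 := ⟨n - 1, by omega⟩
  have hm : 1 ≤ m := by omega
  have hast : (((m + 1 : ℕ) : ℝ) - 1) ^ (m + 1 - 1) / ((m + 1 : ℕ) : ℝ) ^ (m + 1) = ast m := by
    unfold ast
    push_cast
    simp
  have hast0 : 0 < ast m := by
    unfold ast
    have : (0 : ℝ) < m := by exact_mod_cast hm
    positivity
  rw [hast]
  constructor
  · refine ⟨Polynomial.X - Polynomial.C (ast m : ℂ) * Polynomial.X ^ (m + 1), ?_, ?_, ?_⟩
    · apply (Polynomial.natDegree_sub_le _ _).trans
      rw [Polynomial.natDegree_X]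
      apply max_le (by omega)
      exact Polynomial.natDegree_C_mul_X_pow_le _ _
    · have := hex m hm
      simpa using this
    · rw [Polynomial.coeff_sub, Polynomial.coeff_X, if_neg (by omega), Polynomial.coeff_C_mul,
        Polynomial.coeff_X_pow_self, mul_one, zero_sub, norm_neg, Complex.norm_real,
        Real.norm_of_nonneg hast0.le]
  · rintro x ⟨P, hP, hb, rfl⟩
    by_cases hdeg : P.natDegree = m + 1
    · exact bound hmodel hzig hray harea hlog hhub hm hdeg hb
    · rw [Polynomial.coeff_eq_zero_of_natDegree_lt (by omega), norm_zero]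
      exact hast0.le

end Pool.Agent.Y858.BU
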