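import Pool.Agent.Y858.BU.Basic

set_option autoImplicit false

namespace Pool.Agent.Y858.BU

open Set Filter Topology MeasureTheory Metric
open scoped ENNReal

variable {P : Polynomial ℂ} {Θ : Finset ℝ} {G : ℂ → ℂ}

/-- the image of a free ray -/
def Ray (G : ℂ → ℂ) (φ : ℝ) : Set ℂ := (fun t : ℝ => G (pol t φ)) '' Ici 0

theorem hasDerivAt_pol (φ t : ℝ) :
    HasDerivAt (fun t : ℝ => pol t φ) (Complex.exp (φ * Complex.I)) t := by
  have h1 : HasDerivAt (fun t : ℝ => (t : ℂ)) 1 t := Complex.ofRealCLM.hasDerivAt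
  have h2 := h1.mul_const (Complex.exp (φ * Complex.I))
  rw [one_mul] at h2
  exact h2

theorem Hub.ray_sub (_h : Hub P Θ G) {φ : ℝ} (hφ : Free Θ φ) : Ray G φ ⊆ HH Θ G := by
  rintro _ ⟨t, ht, rfl⟩
  exact ⟨_, hφ.mem ht, rfl⟩

theorem poly_bdd (P : Polynomial ℂ) (M : ℝ) : ∃ C : ℝ, ∀ z : ℂ, ‖z‖ ≤ M → ‖P.eval z‖ ≤ C := by
  obtain ⟨C, hC⟩ := (isCompact_closedBall (0 : ℂ) M).exists_bound_of_continuousOn
    P.continuous.continuousOn
  exact ⟨C, fun z hz => hC z (by simpa using hz)⟩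

theorem Hub.ray_log (hlog : S_log) (h : Hub P Θ G) {φ : ℝ} (hφ : Free Θ φ) :
    ∃ L : ℂ → ℂ, ContinuousOn L (Ray G φ)ᶜ ∧ ∀ z ∈ (Ray G φ)ᶜ, Complex.exp (L z) = z := by
  apply hlog (fun t => G (pol t φ)) (fun t => Complex.exp (φ * Complex.I) • deriv G (pol t φ))
  · intro t ht
    have h1 : HasDerivAt G (deriv G (pol t φ)) (pol t φ) :=
      (h.dif.differentiableAt ((isOpen_slitted Θ).mem_nhds (hφ.mem ht))).hasDerivAt
    exact h1.scomp t (hasDerivAt_pol φ t)
  · have h1 : ContinuousOn (deriv G) (slitted Θ) := (h.dif.deriv (isOpen_slitted Θ)).continuousOn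
    have h2 : ContinuousOn (fun t : ℝ => deriv G (pol t φ)) (Ici 0) := by
      apply h1.comp (by unfold pol; fun_prop)
      intro t ht
      exact hφ.mem ht
    exact (continuousOn_const (c := Complex.exp (φ * Complex.I))).mul h2
  · simp only [pol_zero, h.G0]
  · intro t ht h0
    rw [← h.G0] at h0
    exact pol_ne_zero ht (h.inj (hφ.mem ht.le) (zero_mem_slitted Θ) h0)
  · rw [Filter.tendsto_atTop]
    intro M
    obtain ⟨C, hC⟩ := poly_bdd P M
    filter_upwards [eventually_gt_atTop (max C 0)] with t ht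
    by_contra hcon
    have ht0 : 0 ≤ t := ((le_max_right C 0).trans_lt ht).le
    have h1 := hC _ (not_le.1 hcon).le
    rw [h.inv _ (hφ.mem ht0), norm_pol' φ ht0] at h1
    exact absurd ((le_max_left C 0).trans_lt ht) (not_lt.2 h1)

theorem Hub.isClosed_ray (h : Hub P Θ G) {φ : ℝ} (hφ : Free Θ φ) : IsClosed (Ray G φ) := by
  rw [← closure_subset_iff_isClosed]
  intro z hz
  -- `P z` is on the ray
  have hcl : IsClosed {w : ℂ | ∃ r : ℝ, 0 ≤ r ∧ w = pol r φ} := by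
    have he : Complex.exp (φ * Complex.I) * Complex.exp (-(φ * Complex.I)) = 1 := by
      rw [← Complex.exp_add]; simp
    have hset : {w : ℂ | ∃ r : ℝ, 0 ≤ r ∧ w = pol r φ} =
        {w : ℂ | (w * Complex.exp (-(φ * Complex.I))).im = 0 ∧
          0 ≤ (w * Complex.exp (-(φ * Complex.I))).re} := by
      ext w
      constructor
      · rintro ⟨r, hr, rfl⟩
        unfold pol
        rw [mem_ofPred_eq, mul_assoc, he, mul_one]
        simp [hr]
      · rintro ⟨h1, h2⟩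
        refine ⟨_, h2, ?_⟩
        unfold pol
        have h3 : (((w * Complex.exp (-(φ * Complex.I))).re : ℝ) : ℂ) =
            w * Complex.exp (-(φ * Complex.I)) := by
          apply Complex.ext <;> simp [h1]
        rw [h3, mul_assoc, mul_comm (Complex.exp (-(φ * Complex.I))), he, mul_one]
    rw [hset]
    have hc : Continuous (fun w : ℂ => w * Complex.exp (-(φ * Complex.I))) := by fun_prop
    exact (isClosed_eq (Complex.continuous_im.comp hc) continuous_const).and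
      (isClosed_le continuous_const (Complex.continuous_re.comp hc))
  have hPz : P.eval z ∈ {w : ℂ | ∃ r : ℝ, 0 ≤ r ∧ w = pol r φ} := by
    have h1 : _root_.closure (Ray G φ) ⊆ (fun z => P.eval z) ⁻¹' {w : ℂ | ∃ r : ℝ, 0 ≤ r ∧ w = pol r φ} := by
      apply closure_minimal _ (hcl.preimage P.continuous)
      rintro _ ⟨t, ht, rfl⟩
      exact ⟨t, ht, h.inv _ (hφ.mem ht)⟩
    exact h1 hz
  obtain ⟨r, hr, hrz⟩ := hPz
  have hmem : P.eval z ∈ slitted Θ := by rw [hrz]; exact hφ.mem hr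
  by_cases hzH : z ∈ HH Θ G
  · refine ⟨r, hr, ?_⟩
    simp only
    rw [← hrz, h.eqG hzH]
  · obtain ⟨θ, hθ, r', hr', heq⟩ := h.closure_mem (closure_mono (h.ray_sub hφ) hz) hzH
    exact absurd heq (hmem θ hθ r' hr')

theorem int_const {X : Type*} [TopologicalSpace X] {S : Set X} (hS : IsPreconnected S) {f : X → ℝ}
    (hf : ContinuousOn f S) (hi : ∀ x ∈ S, ∃ k : ℤ, f x = k) {x y : X} (hx : x ∈ S) (hy : y ∈ S) :
    f x = f y := by
  by_contra hne
  wlog hlt : f x < f y generalizing x y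
  · exact this hy hx (Ne.symm hne) (lt_of_le_of_ne (not_lt.1 hlt) (Ne.symm hne))
  obtain ⟨a, ha⟩ := hi x hx
  obtain ⟨b, hb⟩ := hi y hy
  have hab : a < b := by
    have : (a : ℝ) < b := by rw [← ha, ← hb]; exact hlt
    exact_mod_cast this
  have hab' : (a : ℝ) + 1 ≤ b := by exact_mod_cast hab
  have h1 : ((a : ℝ) + 1 / 2) ∈ Icc (f x) (f y) := by
    rw [ha, hb]
    constructor <;> linarith
  obtain ⟨c, hc, hcv⟩ := hS.intermediate_value hx hy hf h1
  obtain ⟨k, hk⟩ := hi c hc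
  rw [hk] at hcv
  have h2 : (k : ℝ) * 2 = a * 2 + 1 := by linarith
  have h3 : k * 2 = a * 2 + 1 := by exact_mod_cast h2
  omega

theorem exp_const {X : Type*} [TopologicalSpace X] {S : Set X} (hS : IsPreconnected S) {D : X → ℂ}
    (hD : ContinuousOn D S) (h1 : ∀ x ∈ S, Complex.exp (D x) = 1) {x y : X} (hx : x ∈ S)
    (hy : y ∈ S) : D x = D y := by
  have h2 : ∀ x ∈ S, ∃ k : ℤ, D x = k * (2 * Real.pi * Complex.I) := fun x hx =>
    Complex.exp_eq_one_iff.1 (h1 x hx)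
  have h3 : ContinuousOn (fun x => (D x).im / (2 * Real.pi)) S :=
    (Complex.continuous_im.comp_continuousOn hD).div_const _
  have h4 : ∀ x ∈ S, ∃ k : ℤ, (fun x => (D x).im / (2 * Real.pi)) x = k := by
    intro x hx
    obtain ⟨k, hk⟩ := h2 x hx
    refine ⟨k, ?_⟩
    simp only [hk]
    have : ((k : ℂ) * (2 * Real.pi * Complex.I)).im = k * (2 * Real.pi) := by simp
    rw [this]
    field_simp
  have h5 := int_const hS h3 h4 hx hy
  obtain ⟨k, hk⟩ := h2 x hx
  obtain ⟨l, hl⟩ := h2 y hy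
  have h6 : (D x).im = (D y).im := by
    have hpi : (0 : ℝ) < 2 * Real.pi := by positivity
    have h7 : (D x).im / (2 * Real.pi) = (D y).im / (2 * Real.pi) := h5
    field_simp at h7
    exact h7
  apply Complex.ext _ h6
  rw [hk, hl]
  simp


/-- the branch of the logarithm of `G (exp ξ)` on the left half plane -/
theorem Hub.exN (h : Hub P Θ G) : ∃ N : ℂ → ℂ, ContinuousOn N {ξ : ℂ | ξ.re < 0} ∧
    (∀ ξ : ℂ, ξ.re < 0 → Complex.exp (N ξ) = G (Complex.exp ξ)) ∧
    ∀ ξ : ℂ, ξ.re < 0 → N (ξ + 2 * Real.pi * Complex.I) = N ξ + 2 * Real.pi * Complex.I := by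
  have hdb : DifferentiableOn ℂ G (ball 0 1) := h.dif.mono (ball_subset_slitted Θ)
  have hq : ContinuousOn (dslope G 0) (ball (0 : ℂ) 1) := by
    apply (continuousOn_dslope (isOpen_ball.mem_nhds (mem_ball_self one_pos))).2
    exact ⟨hdb.continuousOn, hdb.differentiableAt (isOpen_ball.mem_nhds (mem_ball_self one_pos))⟩
  have hq0 : (0 : ℂ) ∉ dslope G 0 '' ball (0 : ℂ) 1 := by
    rintro ⟨w, hw, hw0⟩
    by_cases hw' : w = 0
    · subst hw'
      rw [dslope_same] at hw0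
      have := h.der (zero_mem_slitted Θ)
      rw [hw0, mul_zero] at this
      exact zero_ne_one this
    · rw [dslope_of_ne _ hw', slope_def_module, h.G0, sub_zero, sub_zero] at hw0
      have h1 : G w = 0 := by
        rcases smul_eq_zero.1 hw0 with h2 | h2
        · exact absurd (inv_eq_zero.1 h2) hw'
        · exact h2
      exact hw' (h.inj (ball_subset_slitted Θ hw) (zero_mem_slitted Θ) (by rw [h1, h.G0]))
  have hsc : IsSimplyConnected (ball (0 : ℂ) 1) := by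
    have : ContractibleSpace (ball (0 : ℂ) 1) :=
      (convex_ball 0 1).contractibleSpace ⟨0, mem_ball_self one_pos⟩
    exact (inferInstance : SimplyConnectedSpace (ball (0 : ℂ) 1))
  obtain ⟨ℓ, hℓc, hℓ⟩ := Complex.exists_continuousOn_eqOn_exp_comp hsc isOpen_ball hq hq0
  have hmem : ∀ ξ : ℂ, ξ.re < 0 → Complex.exp ξ ∈ ball (0 : ℂ) 1 := by
    intro ξ hξ
    rw [mem_ball_zero_iff, Complex.norm_exp]
    exact Real.exp_lt_one_iff.2 hξ
  refine ⟨fun ξ => ξ + ℓ (Complex.exp ξ), ?_, ?_, ?_⟩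
  · exact continuousOn_id.add (hℓc.comp Complex.continuous_exp.continuousOn hmem)
  · intro ξ hξ
    rw [Complex.exp_add]
    have h1 := hℓ (hmem ξ hξ)
    simp only [Function.comp_apply] at h1
    rw [h1, dslope_of_ne _ (Complex.exp_ne_zero ξ), slope_def_module, h.G0, sub_zero, sub_zero,
      smul_eq_mul, ← mul_assoc, mul_inv_cancel₀ (Complex.exp_ne_zero ξ), one_mul]
  · intro ξ hξ
    simp only
    have h1 : Complex.exp (ξ + 2 * Real.pi * Complex.I) = Complex.exp ξ := by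
      rw [Complex.exp_add, Complex.exp_two_pi_mul_I, mul_one]
    rw [h1]
    ring

theorem exp_eq_pol (s φ : ℝ) : Complex.exp ((s : ℂ) + φ * Complex.I) = pol (Real.exp s) φ := by
  rw [Complex.exp_add, pol, Complex.ofReal_exp]

/-- a branch of the logarithm off a free ray, in the coordinate `ξ`, differs from `N` by a
constant -/
theorem Hub.Lconst (h : Hub P Θ G) {N : ℂ → ℂ} (hN : ContinuousOn N {ξ : ℂ | ξ.re < 0})
    (hN1 : ∀ ξ : ℂ, ξ.re < 0 → Complex.exp (N ξ) = G (Complex.exp ξ)) {φ : ℝ} (hφ : Free Θ φ)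
    {L : ℂ → ℂ} (hL : ContinuousOn L (Ray G φ)ᶜ) (hL1 : ∀ z ∈ (Ray G φ)ᶜ, Complex.exp (L z) = z) :
    ∃ c : ℂ, ∀ ξ : ℂ, ξ.re < 0 → φ < ξ.im → ξ.im < φ + 2 * Real.pi →
      L (G (Complex.exp ξ)) = N ξ + c := by
  set S : Set ℂ := {ξ : ℂ | ξ.re < 0 ∧ φ < ξ.im ∧ ξ.im < φ + 2 * Real.pi} with hS
  have hSc : Convex ℝ S := by
    have h1 : S = {ξ : ℂ | ξ.re < 0} ∩ ({ξ : ℂ | φ < ξ.im} ∩ {ξ : ℂ | ξ.im < φ + 2 * Real.pi}) := rfl
    rw [h1]
    exact (convex_halfSpace_re_lt 0).inter ((convex_halfSpace_im_gt φ).inter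
      (convex_halfSpace_im_lt _))
  have hmem : ∀ ξ : ℂ, ξ.re < 0 → Complex.exp ξ ∈ ball (0 : ℂ) 1 := by
    intro ξ hξ
    rw [mem_ball_zero_iff, Complex.norm_exp]
    exact Real.exp_lt_one_iff.2 hξ
  have hR : ∀ ξ ∈ S, G (Complex.exp ξ) ∈ (Ray G φ)ᶜ := by
    rintro ξ ⟨h1, h2, h3⟩ ⟨t, ht, hte⟩
    have h4 := h.inj (hφ.mem ht) (ball_subset_slitted Θ (hmem ξ h1)) hte
    have h5 : Complex.exp ξ = pol (Real.exp ξ.re) ξ.im := by
      rw [← exp_eq_pol, Complex.re_add_im]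
    have ht0 : 0 < t := by
      rcases (mem_Ici.1 ht).eq_or_lt with h6 | h6
      · exfalso
        rw [← h6, pol_zero] at h4
        exact Complex.exp_ne_zero ξ h4.symm
      · exact h6
    rw [h5, pol_eq_iff ht0 (Real.exp_pos _)] at h4
    obtain ⟨-, k, hk⟩ := h4
    have hpi := Real.pi_pos
    have h7 : (0 : ℝ) < -k := by
      by_contra hc
      have : 0 ≤ 2 * Real.pi * (k : ℝ) := by nlinarith
      linarith
    have h8 : (-k : ℝ) < 1 := by
      by_contra hc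
      have : 2 * Real.pi * (k : ℝ) ≤ -(2 * Real.pi) := by nlinarith
      linarith
    have h9 : 0 < -k := by exact_mod_cast h7
    have h10 : -k < 1 := by exact_mod_cast h8
    omega
  have hGc : ContinuousOn (fun ξ => G (Complex.exp ξ)) S := by
    apply h.cont.comp Complex.continuous_exp.continuousOn
    intro ξ hξ
    exact ball_subset_slitted Θ (hmem ξ hξ.1)
  have hD : ContinuousOn (fun ξ => L (G (Complex.exp ξ)) - N ξ) S :=
    (hL.comp hGc hR).sub (hN.mono fun ξ hξ => hξ.1)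
  have hD1 : ∀ ξ ∈ S, Complex.exp ((fun ξ => L (G (Complex.exp ξ)) - N ξ) ξ) = 1 := by
    intro ξ hξ
    simp only
    rw [Complex.exp_sub, hL1 _ (hR ξ hξ), hN1 ξ hξ.1, div_self]
    intro h0
    rw [← h.G0] at h0
    exact Complex.exp_ne_zero ξ (h.inj (ball_subset_slitted Θ (hmem ξ hξ.1)) (zero_mem_slitted Θ) h0)
  refine ⟨L (G (Complex.exp (-1 + (φ + Real.pi) * Complex.I))) - N (-1 + (φ + Real.pi) * Complex.I),
    fun ξ h1 h2 h3 => ?_⟩
  have h4 := exp_const hSc.isPreconnected hD hD1 (x := ξ) (y := -1 + (φ + Real.pi) * Complex.I)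
    ⟨h1, h2, h3⟩ (by
      have hpi := Real.pi_pos
      refine ⟨?_, ?_, ?_⟩
      · simp
      · simp; linarith
      · simp; linarith)
  have h5 : L (G (Complex.exp ξ)) - N ξ = _ := h4
  linear_combination h5


/-- the two sides of the cross-cut which consists of two free rays -/
theorem Hub.side (hlog : S_log) (h : Hub P Θ G) {φ₁ φ₂ : ℝ} (h1 : Free Θ φ₁) (h2 : Free Θ φ₂)
    (h12 : φ₁ < φ₂) (h21 : φ₂ < φ₁ + 2 * Real.pi) :
    ∃ A B : Set ℂ, IsOpen A ∧ IsOpen B ∧ Disjoint A B ∧ A ∪ B = (Ray G φ₁ ∪ Ray G φ₂)ᶜ ∧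
      (∀ r φ : ℝ, 0 < r → pol r φ ∈ slitted Θ → φ₁ < φ → φ < φ₂ → G (pol r φ) ∈ A) ∧
      (∀ r φ : ℝ, 0 < r → pol r φ ∈ slitted Θ → φ₂ < φ → φ < φ₁ + 2 * Real.pi →
        G (pol r φ) ∈ B) := by
  obtain ⟨N, hN, hN1, hN2⟩ := h.exN
  obtain ⟨L₁, hL₁, hL₁'⟩ := h.ray_log hlog h1
  obtain ⟨L₂, hL₂, hL₂'⟩ := h.ray_log hlog h2
  obtain ⟨c₁, hc₁⟩ := h.Lconst hN hN1 h1 hL₁ hL₁'
  obtain ⟨c₂, hc₂⟩ := h.Lconst hN hN1 h2 hL₂ hL₂'
  have hpi := Real.pi_pos
  set U : Set ℂ := (Ray G φ₁ ∪ Ray G φ₂)ᶜ with hU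
  have hUo : IsOpen U := ((h.isClosed_ray h1).union (h.isClosed_ray h2)).isOpen_compl
  have hU1 : U ⊆ (Ray G φ₁)ᶜ := compl_subset_compl.2 subset_union_left
  have hU2 : U ⊆ (Ray G φ₂)ᶜ := compl_subset_compl.2 subset_union_right
  set s : ℂ → ℝ := fun z => (L₁ z - L₂ z).im / (2 * Real.pi) with hs
  have hsc : ContinuousOn s U :=
    (Complex.continuous_im.comp_continuousOn ((hL₁.mono hU1).sub (hL₂.mono hU2))).div_const _
  have hsi : ∀ z ∈ U, ∃ k : ℤ, s z = k := by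
    intro z hz
    have hz0 : z ≠ 0 := by
      intro h0
      apply hU1 hz
      exact ⟨0, mem_Ici.2 le_rfl, by simp only [pol_zero, h.G0, h0]⟩
    have h3 : Complex.exp (L₁ z - L₂ z) = 1 := by
      rw [Complex.exp_sub, hL₁' z (hU1 hz), hL₂' z (hU2 hz), div_self hz0]
    obtain ⟨k, hk⟩ := Complex.exp_eq_one_iff.1 h3
    refine ⟨k, ?_⟩
    rw [hs]
    simp only [hk]
    have : ((k : ℂ) * (2 * Real.pi * Complex.I)).im = k * (2 * Real.pi) := by simp
    rw [this]
    field_simp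
  set a : ℝ := (c₁ - c₂).im / (2 * Real.pi) - 1 with ha
  -- the points of the central sheet avoid the rays
  have hmemU : ∀ r φ : ℝ, 0 < r → pol r φ ∈ slitted Θ → φ₁ < φ → φ < φ₁ + 2 * Real.pi → φ ≠ φ₂ →
      G (pol r φ) ∈ U := by
    intro r φ hr hm hφ1 hφ2 hne hmem
    have key : ∀ ψ : ℝ, Free Θ ψ → G (pol r φ) ∈ Ray G ψ → ∃ k : ℤ, φ = ψ + 2 * Real.pi * k := by
      rintro ψ hψ ⟨t, ht, hte⟩
      have h4 := h.inj (hψ.mem ht) hm hte
      have ht0 : 0 < t := by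
        rcases (mem_Ici.1 ht).eq_or_lt with h6 | h6
        · exfalso
          rw [← h6, pol_zero] at h4
          exact pol_ne_zero hr h4.symm
        · exact h6
      rw [pol_eq_iff ht0 hr] at h4
      obtain ⟨-, k, hk⟩ := h4
      exact ⟨-k, by push_cast; linarith⟩
    rcases hmem with hmem | hmem
    · obtain ⟨k, hk⟩ := key φ₁ h1 hmem
      have h7 : (0 : ℝ) < k := by
        by_contra hc
        have : 2 * Real.pi * (k : ℝ) ≤ 0 := by nlinarith
        linarith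
      have h8 : (k : ℝ) < 1 := by
        by_contra hc
        have : (2 * Real.pi) ≤ 2 * Real.pi * (k : ℝ) := by nlinarith
        linarith
      have h9 : 0 < k := by exact_mod_cast h7
      have h10 : k < 1 := by exact_mod_cast h8
      omega
    · obtain ⟨k, hk⟩ := key φ₂ h2 hmem
      have h7 : (-1 : ℝ) < k := by
        by_contra hc
        have : 2 * Real.pi * (k : ℝ) ≤ -(2 * Real.pi) := by nlinarith
        linarith
      have h8 : (k : ℝ) < 1 := by
        by_contra hc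
        have : (2 * Real.pi) ≤ 2 * Real.pi * (k : ℝ) := by nlinarith
        linarith
      have h9 : -1 < k := by exact_mod_cast h7
      have h10 : k < 1 := by exact_mod_cast h8
      have h11 : k = 0 := by omega
      rw [h11] at hk
      apply hne
      simpa using hk
  -- constancy along the radii
  have hrad : ∀ r φ : ℝ, 0 < r → pol r φ ∈ slitted Θ → φ₁ < φ → φ < φ₁ + 2 * Real.pi → φ ≠ φ₂ →
      ∃ σ : ℝ, σ < 0 ∧ s (G (pol r φ)) = s (G (Complex.exp ((σ : ℂ) + φ * Complex.I))) := by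
    intro r φ hr hm hφ1 hφ2 hne
    set t₀ : ℝ := min r (1 / 2) with ht₀
    have ht₀0 : 0 < t₀ := lt_min hr (by norm_num)
    have ht₀1 : t₀ < 1 := (min_le_right _ _).trans_lt (by norm_num)
    refine ⟨Real.log t₀, Real.log_neg ht₀0 ht₀1, ?_⟩
    rw [exp_eq_pol, Real.exp_log ht₀0]
    have hmS : ∀ t ∈ Ioc 0 r, pol t φ ∈ slitted Θ := fun t ht => slitted_star hm ht.1.le ht.2
    have hcont : ContinuousOn (fun t : ℝ => s (G (pol t φ))) (Ioc 0 r) := by
      have h3 : ContinuousOn (fun t : ℝ => G (pol t φ)) (Ioc 0 r) :=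
        h.cont.comp (by unfold pol; fun_prop) hmS
      apply hsc.comp h3
      intro t ht
      exact hmemU t φ ht.1 (hmS t ht) hφ1 hφ2 hne
    exact int_const (f := fun t : ℝ => s (G (pol t φ))) (convex_Ioc 0 r).isPreconnected hcont
      (fun t ht => hsi _ (hmemU t φ ht.1 (hmS t ht) hφ1 hφ2 hne)) (x := r) (y := t₀)
      ⟨hr, le_rfl⟩ ⟨ht₀0, min_le_left _ _⟩
  have hre : ∀ σ φ : ℝ, ((σ : ℂ) + φ * Complex.I).re = σ := by intro σ φ; simp
  have him : ∀ σ φ : ℝ, ((σ : ℂ) + φ * Complex.I).im = φ := by intro σ φ; simp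
  have hvalA : ∀ σ φ : ℝ, σ < 0 → φ₁ < φ → φ < φ₂ →
      s (G (Complex.exp ((σ : ℂ) + φ * Complex.I))) = a := by
    intro σ φ hσ hφ1 hφ2
    have e1 := hc₁ ((σ : ℂ) + φ * Complex.I) (by rw [hre]; exact hσ) (by rw [him]; exact hφ1)
      (by rw [him]; linarith)
    have e2 := hc₂ ((σ : ℂ) + φ * Complex.I + 2 * Real.pi * Complex.I)
      (by simp [hσ]) (by simp; linarith) (by simp; linarith)
    rw [hN2 _ (by rw [hre]; exact hσ)] at e2
    have e3 : Complex.exp ((σ : ℂ) + φ * Complex.I + 2 * Real.pi * Complex.I) =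
        Complex.exp ((σ : ℂ) + φ * Complex.I) := by
      rw [Complex.exp_add _ (2 * Real.pi * Complex.I), Complex.exp_two_pi_mul_I, mul_one]
    rw [e3] at e2
    rw [hs]
    simp only [e1, e2]
    have e4 : N ((σ : ℂ) + φ * Complex.I) + c₁ -
        (N ((σ : ℂ) + φ * Complex.I) + 2 * Real.pi * Complex.I + c₂) =
        (c₁ - c₂) - ((2 * Real.pi : ℝ) : ℂ) * Complex.I := by push_cast; ring
    rw [e4, Complex.sub_im, Complex.im_ofReal_mul, Complex.I_im, ha]
    field_simp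
  have hvalB : ∀ σ φ : ℝ, σ < 0 → φ₂ < φ → φ < φ₁ + 2 * Real.pi →
      s (G (Complex.exp ((σ : ℂ) + φ * Complex.I))) = a + 1 := by
    intro σ φ hσ hφ1 hφ2
    have e1 := hc₁ ((σ : ℂ) + φ * Complex.I) (by rw [hre]; exact hσ) (by rw [him]; linarith)
      (by rw [him]; linarith)
    have e2 := hc₂ ((σ : ℂ) + φ * Complex.I) (by rw [hre]; exact hσ) (by rw [him]; exact hφ1)
      (by rw [him]; linarith)
    rw [hs]
    simp only [e1, e2]
    have e4 : N ((σ : ℂ) + φ * Complex.I) + c₁ - (N ((σ : ℂ) + φ * Complex.I) + c₂) =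
        (c₁ - c₂) := by ring
    rw [e4, ha]
    ring
  refine ⟨U ∩ s ⁻¹' Ioo (a - 1 / 2) (a + 1 / 2), U ∩ s ⁻¹' {a}ᶜ, hsc.isOpen_inter_preimage hUo isOpen_Ioo,
    hsc.isOpen_inter_preimage hUo isOpen_compl_singleton, ?_, ?_, ?_, ?_⟩
  · rw [Set.disjoint_left]
    rintro z ⟨hzU, hz1⟩ ⟨-, hz2⟩
    apply hz2
    -- `a` is an integer
    have hai : ∃ k : ℤ, a = k := by
      have hmid := hvalA (-1) ((φ₁ + φ₂) / 2) (by norm_num) (by linarith) (by linarith)
      have hmU : G (Complex.exp (((-1 : ℝ) : ℂ) + ((φ₁ + φ₂) / 2 : ℝ) * Complex.I)) ∈ U := by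
        rw [exp_eq_pol]
        apply hmemU _ _ (Real.exp_pos _) _ (by linarith) (by linarith) (by intro hh; linarith)
        apply ball_subset_slitted
        rw [mem_ball_zero_iff, norm_pol' _ (Real.exp_pos _).le]
        exact Real.exp_lt_one_iff.2 (by norm_num)
      obtain ⟨k, hk⟩ := hsi _ hmU
      exact ⟨k, by rw [← hmid, hk]⟩
    obtain ⟨k, hk⟩ := hai
    obtain ⟨l, hl⟩ := hsi z hzU
    have hz3 : a - 1 / 2 < s z ∧ s z < a + 1 / 2 := hz1
    rw [hk, hl] at hz3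
    have h5 : ((l : ℝ)) < k + 1 := by linarith [hz3.2]
    have h6 : ((k : ℝ)) < l + 1 := by linarith [hz3.1]
    have h7 : l < k + 1 := by exact_mod_cast h5
    have h8 : k < l + 1 := by exact_mod_cast h6
    have h9 : l = k := by omega
    rw [mem_singleton_iff, hl, hk, h9]
  · ext z
    constructor
    · rintro (⟨hz, -⟩ | ⟨hz, -⟩) <;> exact hz
    · intro hz
      by_cases hza : s z = a
      · left
        refine ⟨hz, ?_⟩
        rw [mem_preimage, hza]
        constructor <;> linarith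
      · right
        exact ⟨hz, hza⟩
  · intro r φ hr hm hφ1 hφ2
    refine ⟨hmemU r φ hr hm hφ1 (by linarith) (by intro hh; linarith), ?_⟩
    obtain ⟨σ, hσ, he⟩ := hrad r φ hr hm hφ1 (by linarith) (by intro hh; linarith)
    rw [mem_preimage, he, hvalA σ φ hσ hφ1 hφ2]
    constructor <;> linarith
  · intro r φ hr hm hφ1 hφ2
    refine ⟨hmemU r φ hr hm (by linarith) (by linarith) (by intro hh; linarith), ?_⟩
    obtain ⟨σ, hσ, he⟩ := hrad r φ hr hm (by linarith) (by linarith) (by intro hh; linarith)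
    rw [mem_preimage, he, hvalB σ φ hσ hφ1 hφ2, mem_compl_iff, mem_singleton_iff]
    linarith

end Pool.Agent.Y858.BU
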