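import Mathlib

set_option autoImplicit false

/-!
Project BU (owner helper858), MP_e182ca_an Q2: `max |a_n|` over the bi-univalent polynomials of
degree `≤ n` is `(n - 1) ^ (n - 1) / n ^ n`.  Statements of the self-contained sub-tasks.
-/

namespace Pool.Agent.Y858.BU

open Set Filter Topology MeasureTheory Metric
open scoped ENNReal

/-- the extremal coefficient in degree `m + 1` -/
noncomputable def ast (m : ℕ) : ℝ := (m : ℝ) ^ m / ((m : ℝ) + 1) ^ (m + 1)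

/-- The model functions in degree `n = m + 1`.  Let `Z` be the inverse of `z ↦ z - ast m * z ^ (m+1)`
on the half sector `0 ≤ arg z ≤ π / m`.  `U s t` is `log |Z|` at the point `exp (s + i t)` of the
central sheet (`0 ≤ t ≤ π / m`), and `V s t` is `log |Z|` at the point `exp (s - i t)` of the other
sheet (`0 ≤ t ≤ π`), which is glued to the first one along `t = 0, s > 0`. -/
structure Model (m : ℕ) (U V eU eV : ℝ → ℝ → ℝ) : Prop where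
  contU : ContinuousOn (fun p : ℝ × ℝ => U p.1 p.2) (univ ×ˢ Icc 0 (Real.pi / m))
  contV : ContinuousOn (fun p : ℝ × ℝ => V p.1 p.2) (univ ×ˢ Icc 0 Real.pi)
  glue : ∀ s : ℝ, 0 ≤ s → U s 0 = V s 0
  derU : ∀ s t : ℝ, t ∈ Ioo 0 (Real.pi / m) → ∃ A B : ℝ,
    HasFDerivAt (fun p : ℝ × ℝ => U p.1 p.2)
      (A • ContinuousLinearMap.fst ℝ ℝ ℝ + B • ContinuousLinearMap.snd ℝ ℝ ℝ) (s, t) ∧
    A ^ 2 + B ^ 2 ≤ eU s t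
  derV : ∀ s t : ℝ, t ∈ Ioo 0 Real.pi → ∃ A B : ℝ,
    HasFDerivAt (fun p : ℝ × ℝ => V p.1 p.2)
      (A • ContinuousLinearMap.fst ℝ ℝ ℝ + B • ContinuousLinearMap.snd ℝ ℝ ℝ) (s, t) ∧
    A ^ 2 + B ^ 2 ≤ eV s t
  measU : Measurable (fun p : ℝ × ℝ => eU p.1 p.2)
  measV : Measurable (fun p : ℝ × ℝ => eV p.1 p.2)
  asyU0 : ∀ η : ℝ, 0 < η → ∃ s₀ : ℝ, ∀ s ≤ s₀, ∀ t ∈ Icc 0 (Real.pi / m), |U s t - s| ≤ η
  asyU1 : ∀ η : ℝ, 0 < η → ∃ s₀ : ℝ, ∀ s ≥ s₀, ∀ t ∈ Icc 0 (Real.pi / m),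
    |U s t - (s - Real.log (ast m)) / (m + 1)| ≤ η
  asyV1 : ∀ η : ℝ, 0 < η → ∃ s₀ : ℝ, ∀ s ≥ s₀, ∀ t ∈ Icc 0 Real.pi,
    |V s t - (s - Real.log (ast m)) / (m + 1)| ≤ η
  energy : ∀ η : ℝ, 0 < η → ∃ s₀ : ℝ, ∀ s₁ s₂ : ℝ, s₁ ≤ -s₀ → s₀ ≤ s₂ →
    (∫⁻ p in Ioo s₁ s₂ ×ˢ Ioo 0 (Real.pi / m), ENNReal.ofReal (eU p.1 p.2)) +
      (∫⁻ p in Iio s₂ ×ˢ Ioo 0 Real.pi, ENNReal.ofReal (eV p.1 p.2)) ≤
    ENNReal.ofReal (Real.pi / m * ((s₂ - Real.log (ast m)) / (m + 1) - s₁ + η))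

/-- task MODEL -/
def S_model : Prop := ∀ m : ℕ, 1 ≤ m → ∃ U V eU eV : ℝ → ℝ → ℝ, Model m U V eU eV

/-- A measure preserving folding of the circle onto `[0, π / m]` which maps the angles of `Θ`
to `0`; `B` is the set of the break points. -/
structure Zig (m : ℕ) (Θ : Finset ℝ) (T : ℝ → ℝ) (B : Finset ℝ) : Prop where
  per : ∀ x, T (x + 2 * Real.pi) = T x
  cont : Continuous T
  rng : ∀ x, T x ∈ Icc 0 (Real.pi / m)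
  zero : ∀ θ ∈ Θ, T θ = 0
  aff : ∀ x, (∀ b ∈ B, ∀ k : ℤ, x ≠ b + 2 * Real.pi * k) → T x ∈ Ioo 0 (Real.pi / m) ∧
    ∃ c : ℝ, (c = 1 ∨ c = -1) ∧ ∀ᶠ y in 𝓝 x, T y = T x + c * (y - x)
  meas : ∀ F : ℝ → ℝ≥0∞, Measurable F →
    ∫⁻ x in Ioo 0 (2 * Real.pi), F (T x) = 2 * m * ∫⁻ t in Ioo 0 (Real.pi / m), F t

/-- task ZIG -/
def S_zig : Prop := ∀ (m : ℕ) (Θ : Finset ℝ), 1 ≤ m → Θ.card = m →
  (∀ θ ∈ Θ, θ ∈ Ico 0 (2 * Real.pi)) → ∃ (T : ℝ → ℝ) (B : Finset ℝ), Zig m Θ T B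

/-- the point with polar coordinates `r`, `φ` -/
noncomputable def pol (r φ : ℝ) : ℂ := (r : ℂ) * Complex.exp (φ * Complex.I)

/-- task RAY: Cauchy-Schwarz along the rays of an annulus -/
def S_ray : Prop := ∀ (f : ℂ → ℝ) (E : ℂ → ℝ≥0∞) (X : Set ℝ), Measurable E → X.Finite →
  (∀ φ ∈ Ioo (-Real.pi) Real.pi, φ ∉ X → ContinuousOn (fun ρ : ℝ => f (pol ρ φ)) (Ioi 0) ∧
    ∃ Y : Set ℝ, Y.Finite ∧ ∀ ρ : ℝ, 0 < ρ → ρ ∉ Y →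
      ∃ d : ℝ, HasDerivAt (fun ρ : ℝ => f (pol ρ φ)) d ρ ∧
        ENNReal.ofReal (d ^ 2) ≤ E (pol ρ φ)) →
  ∀ ε R A : ℝ, 0 < ε → ε < R → 0 ≤ A →
    (∀ φ ∈ Ioo (-Real.pi) Real.pi, φ ∉ X → A ≤ f (pol R φ) - f (pol ε φ)) →
    ENNReal.ofReal (2 * Real.pi * A ^ 2) ≤
      ENNReal.ofReal (Real.log (R / ε)) * ∫⁻ z in {z : ℂ | ε < ‖z‖ ∧ ‖z‖ < R}, E z

/-- task AREA: the area formula with multiplicity for polynomials -/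
def S_area : Prop := ∀ P : Polynomial ℂ, 1 ≤ P.natDegree → ∀ Φ : ℂ → ℝ≥0∞, Measurable Φ →
  ∫⁻ z : ℂ, ENNReal.ofReal (‖P.derivative.eval z‖ ^ 2) * Φ z =
    ∫⁻ w : ℂ, ∑ z ∈ (P - Polynomial.C w).roots.toFinset, Φ z

/-- task LOG: a branch of the logarithm on the complement of a proper `C¹` ray from the origin -/
def S_log : Prop := ∀ κ κ' : ℝ → ℂ, (∀ t : ℝ, 0 ≤ t → HasDerivAt κ (κ' t) t) →
  ContinuousOn κ' (Ici 0) → κ 0 = 0 → (∀ t : ℝ, 0 < t → κ t ≠ 0) →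
  Tendsto (fun t => ‖κ t‖) atTop atTop →
  ∃ L : ℂ → ℂ, ContinuousOn L (κ '' Ici 0)ᶜ ∧ ∀ z ∈ (κ '' Ici 0)ᶜ, Complex.exp (L z) = z

/-- bi-univalent functions (normalised) -/
structure BiUnivalent (f : ℂ → ℂ) : Prop where
  f0 : f 0 = 0
  df0 : HasDerivAt f 1 0
  dif : DifferentiableOn ℂ f (ball 0 1)
  inj : InjOn f (ball 0 1)
  inv : ∃ g : ℂ → ℂ, g 0 = 0 ∧ (∀ᶠ z in 𝓝 0, g (f z) = z) ∧ DifferentiableOn ℂ g (ball 0 1) ∧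
    InjOn g (ball 0 1)

/-- task EX: the extremal polynomial is bi-univalent -/
def S_ex : Prop := ∀ m : ℕ, 1 ≤ m → BiUnivalent (fun z : ℂ => z - (ast m : ℂ) * z ^ (m + 1))

/-- the plane minus the closed radial slits of `Θ` which start at the unit circle -/
def slitted (Θ : Finset ℝ) : Set ℂ := {w : ℂ | ∀ θ ∈ Θ, ∀ r : ℝ, 1 ≤ r → w ≠ pol r θ}

/-- task HUB: extension of an inverse branch of a polynomial along all free rays -/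
def S_hub : Prop := ∀ (P : Polynomial ℂ) (g : ℂ → ℂ) (Θ : Finset ℝ), 1 ≤ P.natDegree →
  DifferentiableOn ℂ g (ball 0 1) → (∀ w ∈ ball (0 : ℂ) 1, P.eval (g w) = w) →
  (∀ z : ℂ, P.derivative.eval z = 0 → 1 ≤ ‖P.eval z‖ → ∃ θ ∈ Θ, ∃ r : ℝ, 1 ≤ r ∧
    P.eval z = pol r θ) →
  ∃ G : ℂ → ℂ, DifferentiableOn ℂ G (slitted Θ) ∧ (∀ w ∈ slitted Θ, P.eval (G w) = w) ∧
    ∀ w ∈ ball (0 : ℂ) 1, G w = g w

end Pool.Agent.Y858.BU
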